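import Pool.Agent.H58.Cat.Conc

namespace Pool.Agent.H58.Cat

open Finset

/-- All pairs in the square `[u, u+r] × [v, v+r]` are attained below `2 ^ L`, by multiples of three. -/
def Box (L u v r : ℕ) : Prop :=
  ∀ k₁ k₂, u ≤ k₁ → k₁ ≤ u + r → v ≤ k₂ → k₂ ≤ v + r →
    ∃ e, e < 2 ^ L ∧ 3 ∣ e ∧ F 2 e = k₁ ∧ F 3 e = k₂

theorem step_z {i j s τ K T : ℕ} (h1 : 3 ^ j ≤ 2 ^ s) (h2 : 2 ^ s ≤ 2 * 3 ^ j)
    (h3 : 3 ^ j ≤ 2 ^ τ) (h4 : i + 2 ≤ τ) (h5 : 2 ^ (i + τ) ≤ 3 ^ K)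
    (h6 : 3 ^ K < 2 ^ (i + τ + 1)) (hT : 11 * τ + 24 * s + 32 * i + 64 < 3 * T ^ 2) :
    ∃ z, z < 2 ^ τ ∧ |2 * (F 2 (3 ^ j * z) : ℤ) - (τ + s : ℕ)| ≤ 2 * T ∧
      |2 * (F 3 (2 ^ i * z) : ℤ) - K| ≤ 2 * T := by
  set κ := Nat.log 3 (2 ^ τ) with hκ
  have hκ1 : 3 ^ κ ≤ 2 ^ τ := Nat.pow_log_le_self 3 (by positivity)
  have hκ2 : 2 ^ τ < 3 ^ (κ + 1) := Nat.lt_pow_succ_log_self (by norm_num) _
  have hκK : κ ≤ K := by
    have : 3 ^ κ ≤ 3 ^ K := by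
      refine hκ1.trans (le_trans ?_ h5)
      exact Nat.pow_le_pow_right (by norm_num) (by omega)
    exact (Nat.pow_le_pow_iff_right (by norm_num)).1 this
  obtain ⟨n, hn⟩ := Nat.exists_eq_add_of_le hκK
  -- bounds for `κ` and `n`
  have hκ3 : 3 * κ ≤ 2 * τ := by
    have : 2 ^ (3 * κ) ≤ 2 ^ (2 * τ) := by
      calc 2 ^ (3 * κ) = 8 ^ κ := by rw [pow_mul]; norm_num
        _ ≤ 9 ^ κ := Nat.pow_le_pow_left (by norm_num) _
        _ = 3 ^ κ * 3 ^ κ := by rw [← mul_pow]; norm_num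
        _ ≤ 2 ^ τ * 2 ^ τ := Nat.mul_le_mul hκ1 hκ1
        _ = 2 ^ (2 * τ) := by rw [← pow_add]; ring_nf
    exact (Nat.pow_le_pow_iff_right (by norm_num)).1 this
  have hn3 : 3 * n ≤ 2 * i + 4 := by
    rcases Nat.eq_zero_or_pos n with h0 | h0
    · omega
    obtain ⟨n', rfl⟩ : ∃ n', n = n' + 1 := ⟨n - 1, by omega⟩
    have a1 : 3 ^ n' < 2 ^ (i + 1) := by
      have a2 : 3 ^ n' * 2 ^ τ < 2 ^ (i + 1) * 2 ^ τ := by
        calc 3 ^ n' * 2 ^ τ ≤ 3 ^ n' * 3 ^ (κ + 1) := Nat.mul_le_mul_left _ hκ2.le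
          _ = 3 ^ K := by rw [hn, ← pow_add]; ring_nf
          _ < 2 ^ (i + τ + 1) := h6
          _ = 2 ^ (i + 1) * 2 ^ τ := by rw [← pow_add]; ring_nf
      exact Nat.lt_of_mul_lt_mul_right a2
    have : 2 ^ (3 * n') < 2 ^ (2 * (i + 1)) := by
      calc 2 ^ (3 * n') = 8 ^ n' := by rw [pow_mul]; norm_num
        _ ≤ 9 ^ n' := Nat.pow_le_pow_left (by norm_num) _
        _ = 3 ^ n' * 3 ^ n' := by rw [← mul_pow]; norm_num
        _ < 2 ^ (i + 1) * 2 ^ (i + 1) := Nat.mul_lt_mul'' a1 a1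
        _ = 2 ^ (2 * (i + 1)) := by rw [← pow_add]; ring_nf
    have := (Nat.pow_lt_pow_iff_right (by norm_num : 1 < 2)).1 this
    omega
  set Z := 2 ^ τ with hZ
  have hZpos : 0 < Z := by positivity
  -- base two
  have c2 := conc (b := 2) (Or.inl rfl) (range Z) (fun z => 3 ^ j * z) τ s 1 (Z / 3 ^ j + 1) T
    (by
      intro v _
      have := mult_low (A := 0) (B := 3 ^ j) (N := 2 ^ τ) (Z := Z) (v := v) (by positivity)
        (by apply Nat.Coprime.pow; norm_num)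
      simp only [zero_add] at this
      refine this.trans ?_
      rw [hZ, Nat.div_eq_of_lt (by omega)])
    (by
      intro v _
      exact mult_high0 (by positivity) (by positivity) (by
        rw [hZ, mul_comm]; exact Nat.mul_le_mul_left _ h1))
  have c3 := conc (b := 3) (Or.inr rfl) (range Z) (fun z => 2 ^ i * z) κ n
    ((Z - 1) / 3 ^ κ + 1) (3 ^ κ / 2 ^ i + 1) T
    (by
      intro v _
      have := mult_low (A := 0) (B := 2 ^ i) (N := 3 ^ κ) (Z := Z) (v := v) (by positivity)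
        (by apply Nat.Coprime.pow; norm_num)
      simpa only [zero_add] using this)
    (by
      intro v _
      exact mult_high0 (by positivity) (by positivity) (by
        rw [hZ, ← pow_add, ← pow_add, ← hn]; exact h5))
  rw [← hn] at c3
  set bad2 := #{z ∈ range Z | 2 * (T : ℤ) < |dev 2 0 (τ + s) (3 ^ j * z)|} with hbad2
  set bad3 := #{z ∈ range Z | 2 * (T : ℤ) < |dev 3 0 K (2 ^ i * z)|} with hbad3
  -- the arithmetic in `ℕ`
  have hch2 : (Z / 3 ^ j + 1) * 2 ^ s ≤ 4 * Z := by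
    have e1 : (Z / 3 ^ j + 1) * 3 ^ j ≤ 2 * Z := by
      have := Nat.div_mul_le_self Z (3 ^ j)
      rw [add_mul, one_mul]; omega
    calc (Z / 3 ^ j + 1) * 2 ^ s ≤ (Z / 3 ^ j + 1) * (2 * 3 ^ j) := Nat.mul_le_mul_left _ h2
      _ = 2 * ((Z / 3 ^ j + 1) * 3 ^ j) := by ring
      _ ≤ 2 * (2 * Z) := Nat.mul_le_mul_left _ e1
      _ = 4 * Z := by ring
  have hcl3 : ((Z - 1) / 3 ^ κ + 1) * 3 ^ κ ≤ 2 * Z := by
    have := Nat.div_mul_le_self (Z - 1) (3 ^ κ)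
    rw [add_mul, one_mul]; omega
  have hi : 2 ^ i ≤ 3 ^ κ := by
    have a1 : 4 * 2 ^ i ≤ Z := by
      calc 4 * 2 ^ i = 2 ^ (i + 2) := by rw [pow_add]; ring
        _ ≤ 2 ^ τ := Nat.pow_le_pow_right (by norm_num) h4
    rw [pow_succ] at hκ2
    omega
  have hch3 : (3 ^ κ / 2 ^ i + 1) * 3 ^ n ≤ 4 * Z := by
    have e1 : (3 ^ κ / 2 ^ i + 1) * 2 ^ i ≤ 2 * 3 ^ κ := by
      have := Nat.div_mul_le_self (3 ^ κ) (2 ^ i)
      rw [add_mul, one_mul]; omega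
    have e2 : (3 ^ κ / 2 ^ i + 1) * 3 ^ n * 2 ^ i ≤ 4 * Z * 2 ^ i := by
      calc (3 ^ κ / 2 ^ i + 1) * 3 ^ n * 2 ^ i = (3 ^ κ / 2 ^ i + 1) * 2 ^ i * 3 ^ n := by ring
        _ ≤ 2 * 3 ^ κ * 3 ^ n := Nat.mul_le_mul_right _ e1
        _ = 2 * 3 ^ K := by rw [hn, pow_add]; ring
        _ ≤ 2 * 2 ^ (i + τ + 1) := Nat.mul_le_mul_left _ h6.le
        _ = 4 * Z * 2 ^ i := by rw [hZ, pow_add, pow_add]; ring
    exact Nat.le_of_mul_le_mul_right e2 (by positivity)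
  have b2 : (bad2 : ℤ) * T ^ 2 ≤ (τ + 8 * s) * Z := by
    refine c2.trans ?_
    have e : ((Z / 3 ^ j + 1 : ℕ) : ℤ) * 2 ^ s ≤ 4 * Z := by exact_mod_cast hch2
    have e' : (2 : ℤ) ^ τ = Z := by rw [hZ]; push_cast; rfl
    have hs0 : (0 : ℤ) ≤ s := by positivity
    have := mul_le_mul_of_nonneg_left e hs0
    simp only [Nat.add_one_sub_one, Nat.cast_one, one_mul, Nat.cast_ofNat, e']
    norm_num
    norm_num at this
    linarith
  have b3 : (bad3 : ℤ) * T ^ 2 ≤ (4 * κ + 16 * n) * Z := by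
    refine c3.trans ?_
    have e : (((Z - 1) / 3 ^ κ + 1 : ℕ) : ℤ) * 3 ^ κ ≤ 2 * Z := by exact_mod_cast hcl3
    have e' : ((3 ^ κ / 2 ^ i + 1 : ℕ) : ℤ) * 3 ^ n ≤ 4 * Z := by exact_mod_cast hch3
    have g1 := mul_le_mul_of_nonneg_left e (by positivity : (0 : ℤ) ≤ κ)
    have g2 := mul_le_mul_of_nonneg_left e' (by positivity : (0 : ℤ) ≤ n)
    have h31 : ((3 - 1 : ℕ) : ℤ) = 2 := by norm_num
    rw [h31]
    push_cast at g1 g2 ⊢
    linarith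
  have hfin : bad2 + bad3 < Z := by
    have h3T : (3 : ℤ) * ((bad2 + bad3) * T ^ 2) ≤ (11 * τ + 24 * s + 32 * i + 64) * Z := by
      have : (3 : ℤ) * (τ + 8 * s + (4 * κ + 16 * n)) ≤ 11 * τ + 24 * s + 32 * i + 64 := by
        have a1 : (3 : ℤ) * κ ≤ 2 * τ := by exact_mod_cast hκ3
        have a2 : (3 : ℤ) * n ≤ 2 * i + 4 := by exact_mod_cast hn3
        linarith
      have hZ0 : (0 : ℤ) ≤ Z := by positivity
      have := mul_le_mul_of_nonneg_right this hZ0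
      nlinarith [b2, b3]
    have hT' : ((11 * τ + 24 * s + 32 * i + 64 : ℕ) : ℤ) < 3 * T ^ 2 := by exact_mod_cast hT
    push_cast at hT'
    have hZ0 : (0 : ℤ) < Z := by exact_mod_cast hZpos
    have h7 := mul_lt_mul_of_pos_right hT' hZ0
    have h8 : (3 * (T : ℤ) ^ 2) * (bad2 + bad3) < (3 * (T : ℤ) ^ 2) * Z := by linarith
    have h9 : (0 : ℤ) ≤ 3 * (T : ℤ) ^ 2 := by positivity
    have := lt_of_mul_lt_mul_left h8 h9
    exact_mod_cast this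
  -- existence
  have hex : ∃ z ∈ range Z, ¬ (2 * (T : ℤ) < |dev 2 0 (τ + s) (3 ^ j * z)|) ∧
      ¬ (2 * (T : ℤ) < |dev 3 0 K (2 ^ i * z)|) := by
    by_contra hcon
    push Not at hcon
    have hsub : range Z ⊆ filter (fun z => 2 * (T : ℤ) < |dev 2 0 (τ + s) (3 ^ j * z)|) (range Z) ∪
        filter (fun z => 2 * (T : ℤ) < |dev 3 0 K (2 ^ i * z)|) (range Z) := by
      intro z hz
      rw [mem_union, mem_filter, mem_filter]
      by_cases h : 2 * (T : ℤ) < |dev 2 0 (τ + s) (3 ^ j * z)|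
      · exact Or.inl ⟨hz, h⟩
      · exact Or.inr ⟨hz, hcon z hz (not_lt.1 h)⟩
    have := (card_le_card hsub).trans (card_union_le _ _)
    rw [card_range] at this
    omega
  obtain ⟨z, hz, hz2, hz3⟩ := hex
  rw [mem_range] at hz
  rw [not_lt] at hz2 hz3
  refine ⟨z, hz, ?_, ?_⟩
  · rw [F_eq_cnt Nat.prime_two (K := τ + s)]
    · exact hz2
    · calc 2 * (3 ^ j * z) < 2 * (2 ^ s * 2 ^ τ) := by
            apply Nat.mul_lt_mul_of_pos_left _ (by norm_num)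
            exact Nat.mul_lt_mul_of_le_of_lt h1 hz (by positivity)
        _ = 2 ^ (τ + s + 1) := by rw [pow_succ, pow_add]; ring
  · rw [F_eq_cnt Nat.prime_three (K := K)]
    · exact hz3
    · calc 2 * (2 ^ i * z) < 2 * (2 ^ i * 2 ^ τ) := by
            apply Nat.mul_lt_mul_of_pos_left _ (by norm_num)
            exact Nat.mul_lt_mul_of_pos_left hz (by positivity)
        _ = 2 * 2 ^ (i + τ) := by rw [pow_add]
        _ ≤ 3 ^ (K + 1) := by rw [pow_succ]; omega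

theorem log_bounds {K σ : ℕ} (h1 : 2 ^ σ ≤ 3 ^ K) (h2 : 3 ^ K < 2 ^ (σ + 1)) :
    5 * σ ≤ 8 * K ∧ 11 * K < 7 * (σ + 1) := by
  constructor
  · have : 2 ^ (5 * σ) ≤ 2 ^ (8 * K) := by
      calc 2 ^ (5 * σ) = (2 ^ σ) ^ 5 := by rw [← pow_mul, mul_comm]
        _ ≤ (3 ^ K) ^ 5 := Nat.pow_le_pow_left h1 _
        _ = 243 ^ K := by rw [← pow_mul, mul_comm, pow_mul]; norm_num
        _ ≤ 256 ^ K := Nat.pow_le_pow_left (by norm_num) _
        _ = 2 ^ (8 * K) := by rw [pow_mul]; norm_num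
    exact (Nat.pow_le_pow_iff_right (by norm_num)).1 this
  · have : 2 ^ (11 * K) < 2 ^ (7 * (σ + 1)) := by
      calc 2 ^ (11 * K) = 2048 ^ K := by rw [pow_mul]; norm_num
        _ ≤ 2187 ^ K := Nat.pow_le_pow_left (by norm_num) _
        _ = (3 ^ K) ^ 7 := by rw [← pow_mul, mul_comm K 7, pow_mul]; norm_num
        _ < (2 ^ (σ + 1)) ^ 7 := Nat.pow_lt_pow_left h2 (by norm_num)
        _ = 2 ^ (7 * (σ + 1)) := by rw [← pow_mul, mul_comm]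
    exact (Nat.pow_lt_pow_iff_right (by norm_num)).1 this

/-- assembling the top part and the bottom part -/
theorem combine {L i j w e : ℕ} (hi : L + 1 ≤ i) (hj : 2 ^ (L + 1) ≤ 3 ^ j) (hj0 : 0 < j)
    (he : e < 2 ^ L) (he3 : 3 ∣ e) :
    3 ∣ 2 ^ i * 3 ^ j * w + e ∧ F 2 (2 ^ i * 3 ^ j * w + e) = F 2 (3 ^ j * w) + F 2 e ∧
      F 3 (2 ^ i * 3 ^ j * w + e) = F 3 (2 ^ i * w) + F 3 e := by
  have h2e : 2 * e < 2 ^ (L + 1) := by rw [pow_succ]; omega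
  refine ⟨?_, ?_, ?_⟩
  · apply dvd_add _ he3
    apply Dvd.dvd.mul_right
    apply Dvd.dvd.mul_left
    exact dvd_pow_self 3 (by omega)
  · rw [F_add Nat.prime_two (i := i)]
    · rw [mul_assoc, F_pow_mul Nat.prime_two]
    · rw [mul_assoc]; exact Nat.dvd_mul_right _ _
    · exact lt_of_lt_of_le h2e (Nat.pow_le_pow_right (by norm_num) hi)
  · rw [F_add Nat.prime_three (i := j)]
    · rw [show 2 ^ i * 3 ^ j * w = 3 ^ j * (2 ^ i * w) by ring, F_pow_mul Nat.prime_three]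
    · rw [show 2 ^ i * 3 ^ j * w = 3 ^ j * (2 ^ i * w) by ring]; exact Nat.dvd_mul_right _ _
    · exact lt_of_lt_of_le h2e hj

theorem exists_js (L : ℕ) : ∃ j s, 2 ^ (L + 1) ≤ 3 ^ j ∧ 0 < j ∧ 3 ^ j ≤ 2 ^ s ∧
    2 ^ s ≤ 2 * 3 ^ j ∧ s ≤ L + 3 := by
  set j := Nat.clog 3 (2 ^ (L + 1)) with hj
  have hj1 : 2 ^ (L + 1) ≤ 3 ^ j := Nat.le_pow_clog (by norm_num) _
  have hj0 : 0 < j := Nat.clog_pos (by norm_num) (by
    calc 2 = 2 ^ 1 := by norm_num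
      _ ≤ 2 ^ (L + 1) := Nat.pow_le_pow_right (by norm_num) (by omega))
  have hj2 : 3 ^ (j - 1) < 2 ^ (L + 1) := Nat.pow_pred_clog_lt_self (by norm_num) (by
    calc 1 < 2 ^ 1 := by norm_num
      _ ≤ 2 ^ (L + 1) := Nat.pow_le_pow_right (by norm_num) (by omega))
  set s := Nat.clog 2 (3 ^ j) with hs
  have hs1 : 3 ^ j ≤ 2 ^ s := Nat.le_pow_clog (by norm_num) _
  have h3 : 3 ≤ 3 ^ j := by
    calc 3 = 3 ^ 1 := by norm_num
      _ ≤ 3 ^ j := Nat.pow_le_pow_right (by norm_num) hj0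
  have hs0 : 0 < s := Nat.clog_pos (by norm_num) (by omega)
  have hs2 : 2 ^ (s - 1) < 3 ^ j := Nat.pow_pred_clog_lt_self (by norm_num) (by omega)
  have hs3 : 2 ^ s ≤ 2 * 3 ^ j := by
    have : 2 ^ s = 2 * 2 ^ (s - 1) := by
      conv_lhs => rw [show s = (s - 1) + 1 by omega]
      rw [pow_succ]; ring
    omega
  refine ⟨j, s, hj1, hj0, hs1, hs3, ?_⟩
  have : 2 ^ (s - 1) < 2 ^ (L + 3) := by
    calc 2 ^ (s - 1) < 3 ^ j := hs2
      _ = 3 * 3 ^ (j - 1) := by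
        conv_lhs => rw [show j = (j - 1) + 1 by omega]
        rw [pow_succ]; ring
      _ ≤ 3 * 2 ^ (L + 1) := Nat.mul_le_mul_left _ hj2.le
      _ ≤ 4 * 2 ^ (L + 1) := by omega
      _ = 2 ^ (L + 3) := by rw [show 2 ^ (L + 3) = 2 ^ (L + 1) * 2 ^ 2 from pow_add 2 (L + 1) 2]; ring
  have := (Nat.pow_lt_pow_iff_right (by norm_num : 1 < 2)).1 this
  omega

/-- the general step -/
theorem box_step {ℓ u v : ℕ} (hℓ : 1000 ≤ ℓ) (h : Box (80 * ℓ) u v (5 * ℓ)) :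
    ∃ u' v', Box (800 * ℓ) u' v' (50 * ℓ) := by
  obtain ⟨j, s, hj1, hj0, hs1, hs2, hs3⟩ := exists_js (80 * ℓ)
  have hs4 : 80 * ℓ + 1 ≤ s := by
    have : 2 ^ (80 * ℓ + 1) ≤ 2 ^ s := hj1.trans hs1
    exact (Nat.pow_le_pow_iff_right (by norm_num)).1 this
  refine ⟨(356 * ℓ + 2 * u + 5 * ℓ + s + 1) / 2, (342 * ℓ + 2 * v + 5 * ℓ + 1) / 2, ?_⟩
  intro k₁ k₂ hk1 hk1' hk2 hk2'
  obtain ⟨τ, hτ⟩ : ∃ τ, τ + s + 2 * u + 5 * ℓ = 2 * k₁ :=
    ⟨2 * k₁ - (s + 2 * u + 5 * ℓ), by omega⟩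
  obtain ⟨K, hK⟩ : ∃ K, K + 2 * v + 5 * ℓ = 2 * k₂ := ⟨2 * k₂ - (2 * v + 5 * ℓ), by omega⟩
  have hτ1 : 356 * ℓ ≤ τ := by omega
  have hτ2 : τ ≤ 456 * ℓ + 1 := by omega
  have hK1 : 342 * ℓ ≤ K := by omega
  have hK2 : K ≤ 442 * ℓ + 1 := by omega
  set σ := Nat.log 2 (3 ^ K) with hσ
  have hσ1 : 2 ^ σ ≤ 3 ^ K := Nat.pow_log_le_self 2 (by positivity)
  have hσ2 : 3 ^ K < 2 ^ (σ + 1) := Nat.lt_pow_succ_log_self (by norm_num) _
  obtain ⟨hb1, hb2⟩ := log_bounds hσ1 hσ2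
  obtain ⟨i, hi⟩ : ∃ i, i + τ = σ := ⟨σ - τ, by omega⟩
  have hi1 : 80 * ℓ + 1 ≤ i := by omega
  have hi2 : i + 2 ≤ τ := by omega
  have hT : 11 * τ + 24 * s + 32 * i + 64 < 3 * (5 * ℓ / 2) ^ 2 := by
    have hTl : 5 * ℓ ≤ 2 * (5 * ℓ / 2) + 1 := by omega
    have hi3 : 5 * i ≤ 1756 * ℓ + 8 := by omega
    set T := 5 * ℓ / 2
    have hTb : 2499 * ℓ ≤ 1000 * T := by omega
    have : 2499 * ℓ * (2499 * 1000) ≤ 1000 * T * (1000 * T) := by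
      have h1 : 2499 * 1000 ≤ 1000 * T := by omega
      exact Nat.mul_le_mul hTb h1
    have h2 : 5 * (11 * τ + 24 * s + 32 * i + 64) ≤ 90872 * ℓ + 5000 := by omega
    nlinarith
  obtain ⟨z, hz, hz2, hz3⟩ := step_z (i := i) (j := j) (s := s) (τ := τ) (K := K)
    (T := 5 * ℓ / 2) hs1 hs2
    (hs1.trans (Nat.pow_le_pow_right (by norm_num) (by omega))) hi2 (by rw [hi]; exact hσ1)
    (by rw [hi]; exact hσ2) hT
  rw [abs_le] at hz2 hz3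
  push_cast at hz2 hz3
  -- the remaining parts of the box
  obtain ⟨e, he, he3, he1, he2⟩ := h (k₁ - F 2 (3 ^ j * z)) (k₂ - F 3 (2 ^ i * z))
    (by omega) (by omega) (by omega) (by omega)
  obtain ⟨q1, q2, q3⟩ := combine (w := z) hi1 hj1 hj0 he he3
  refine ⟨2 ^ i * 3 ^ j * z + e, ?_, q1, ?_, ?_⟩
  · calc 2 ^ i * 3 ^ j * z + e < 2 ^ i * 2 ^ s * 2 ^ τ + 2 ^ (80 * ℓ) := by
          apply Nat.add_lt_add_of_le_of_lt _ he
          apply Nat.mul_le_mul _ hz.le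
          exact Nat.mul_le_mul_left _ hs1
      _ ≤ 2 ^ (σ + s) + 2 ^ (σ + s) := by
          apply Nat.add_le_add
          · rw [← hi, ← pow_add, ← pow_add]
            exact Nat.pow_le_pow_right (by norm_num) (by omega)
          · exact Nat.pow_le_pow_right (by norm_num) (by omega)
      _ = 2 ^ (σ + s + 1) := by rw [pow_succ]; ring
      _ ≤ 2 ^ (800 * ℓ) := Nat.pow_le_pow_right (by norm_num) (by omega)
  · rw [q2, he1]; omega
  · rw [q3, he2]; omega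

end Pool.Agent.H58.Cat
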