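import Pool.Agent.H58.Cat.Basic

namespace Pool.Agent.H58.Cat

open Finset

theorem sum_range_mul' {M : Type*} [AddCommMonoid M] (b N : ℕ) (f : ℕ → M) :
    ∑ x ∈ range (b * N), f x = ∑ x ∈ range N, ∑ d ∈ range b, f (b * x + d) := by
  induction N with
  | zero => simp
  | succ N ih => rw [Nat.mul_succ, sum_range_add, ih, sum_range_succ]

/-- the deviation of twice the count from its mean -/
def dev (b c K x : ℕ) : ℤ := 2 * (cnt b c K x : ℤ) - K

theorem dev_succ {b : ℕ} (hb : 0 < b) (c K x d : ℕ) (hd : d < b) :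
    dev b c (K + 1) (b * x + d) =
      (if b ≤ 2 * d + c then 1 else -1) + dev b ((2 * d + c) / b) K x := by
  unfold dev
  rw [add_comm K 1, cnt_add hb]
  have h1 : (b * x + d) % b ^ 1 = d := by
    rw [pow_one, Nat.mul_add_mod, Nat.mod_eq_of_lt hd]
  have h2 : (b * x + d) / b ^ 1 = x := by
    rw [pow_one, Nat.mul_add_div hb, Nat.div_eq_of_lt hd, add_zero]
  have h3 : cnt b c 1 (b * x + d) = if b ≤ 2 * d + c then 1 else 0 := by
    unfold cnt
    rw [sum_range_one, zero_add, h1, pow_one]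
  rw [h1, h2, h3, pow_one]
  push_cast
  split_ifs <;> ring

/-- first moments in base `3` -/
theorem first3 (n : ℕ) :
    2 * ∑ x ∈ range (3 ^ n), dev 3 0 n x = 1 - 3 ^ n ∧
    2 * ∑ x ∈ range (3 ^ n), dev 3 1 n x = 3 ^ n - 1 := by
  induction n with
  | zero => simp [dev, cnt]
  | succ n ih =>
    have e : ∀ c, ∑ x ∈ range (3 ^ (n + 1)), dev 3 c (n + 1) x =
        ∑ x ∈ range (3 ^ n), ∑ d ∈ range 3, dev 3 c (n + 1) (3 * x + d) := by
      intro c; rw [pow_succ, mul_comm, sum_range_mul']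
    have e0 : ∑ x ∈ range (3 ^ (n + 1)), dev 3 0 (n + 1) x =
        ∑ x ∈ range (3 ^ n), (-1 + 2 * dev 3 0 n x + dev 3 1 n x) := by
      rw [e]
      apply sum_congr rfl
      intro x _
      simp only [sum_range_succ, sum_range_zero]
      rw [dev_succ (by norm_num) _ _ _ _ (by norm_num), dev_succ (by norm_num) _ _ _ _ (by norm_num),
        dev_succ (by norm_num) _ _ _ _ (by norm_num)]
      norm_num
      ring
    have e1 : ∑ x ∈ range (3 ^ (n + 1)), dev 3 1 (n + 1) x =
        ∑ x ∈ range (3 ^ n), (1 + dev 3 0 n x + 2 * dev 3 1 n x) := by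
      rw [e]
      apply sum_congr rfl
      intro x _
      simp only [sum_range_succ, sum_range_zero]
      rw [dev_succ (by norm_num) _ _ _ _ (by norm_num), dev_succ (by norm_num) _ _ _ _ (by norm_num),
        dev_succ (by norm_num) _ _ _ _ (by norm_num)]
      norm_num
      ring
    rw [e0, e1]
    simp only [sum_add_distrib, ← mul_sum, sum_const, card_range, nsmul_eq_mul]
    push_cast
    constructor
    · linear_combination 2 * ih.1 + ih.2
    · linear_combination ih.1 + 2 * ih.2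

theorem second3 (n : ℕ) :
    (∑ x ∈ range (3 ^ n), dev 3 0 n x ^ 2 ≤ 2 * n * 3 ^ n) ∧
    (∑ x ∈ range (3 ^ n), dev 3 1 n x ^ 2 ≤ 2 * n * 3 ^ n) := by
  induction n with
  | zero => simp [dev, cnt]
  | succ n ih =>
    have e : ∀ c, ∑ x ∈ range (3 ^ (n + 1)), dev 3 c (n + 1) x ^ 2 =
        ∑ x ∈ range (3 ^ n), ∑ d ∈ range 3, dev 3 c (n + 1) (3 * x + d) ^ 2 := by
      intro c; rw [pow_succ, mul_comm, sum_range_mul']
    have e0 : ∑ x ∈ range (3 ^ (n + 1)), dev 3 0 (n + 1) x ^ 2 =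
        ∑ x ∈ range (3 ^ n), (3 + 2 * dev 3 0 n x ^ 2 + dev 3 1 n x ^ 2
          - 4 * dev 3 0 n x + 2 * dev 3 1 n x) := by
      rw [e]
      apply sum_congr rfl
      intro x _
      simp only [sum_range_succ, sum_range_zero]
      rw [dev_succ (by norm_num) _ _ _ _ (by norm_num), dev_succ (by norm_num) _ _ _ _ (by norm_num),
        dev_succ (by norm_num) _ _ _ _ (by norm_num)]
      norm_num
      ring
    have e1 : ∑ x ∈ range (3 ^ (n + 1)), dev 3 1 (n + 1) x ^ 2 =
        ∑ x ∈ range (3 ^ n), (3 + dev 3 0 n x ^ 2 + 2 * dev 3 1 n x ^ 2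
          - 2 * dev 3 0 n x + 4 * dev 3 1 n x) := by
      rw [e]
      apply sum_congr rfl
      intro x _
      simp only [sum_range_succ, sum_range_zero]
      rw [dev_succ (by norm_num) _ _ _ _ (by norm_num), dev_succ (by norm_num) _ _ _ _ (by norm_num),
        dev_succ (by norm_num) _ _ _ _ (by norm_num)]
      norm_num
      ring
    have f := first3 n
    rw [e0, e1]
    simp only [sum_add_distrib, sum_sub_distrib, ← mul_sum, sum_const, card_range, nsmul_eq_mul]
    push_cast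
    have hp : (3 : ℤ) ^ (n + 1) = 3 * 3 ^ n := by ring
    rw [hp]
    constructor <;> nlinarith [f.1, f.2, ih.1, ih.2]

theorem first2 (n : ℕ) :
    ∑ x ∈ range (2 ^ n), dev 2 0 n x = 0 ∧ ∑ x ∈ range (2 ^ n), dev 2 1 n x = 0 := by
  induction n with
  | zero => simp [dev, cnt]
  | succ n ih =>
    have e : ∀ c, ∑ x ∈ range (2 ^ (n + 1)), dev 2 c (n + 1) x =
        ∑ x ∈ range (2 ^ n), ∑ d ∈ range 2, dev 2 c (n + 1) (2 * x + d) := by
      intro c; rw [pow_succ, mul_comm, sum_range_mul']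
    have e0 : ∀ c, c = 0 ∨ c = 1 → ∑ x ∈ range (2 ^ (n + 1)), dev 2 c (n + 1) x =
        ∑ x ∈ range (2 ^ n), (dev 2 0 n x + dev 2 1 n x) := by
      intro c hc
      rw [e]
      apply sum_congr rfl
      intro x _
      simp only [sum_range_succ, sum_range_zero]
      rw [dev_succ (by norm_num) _ _ _ _ (by norm_num), dev_succ (by norm_num) _ _ _ _ (by norm_num)]
      rcases hc with rfl | rfl <;> norm_num <;> ring
    rw [e0 0 (by simp), e0 1 (by simp)]
    simp only [sum_add_distrib]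
    omega

theorem second2 (n : ℕ) :
    (∑ x ∈ range (2 ^ n), dev 2 0 n x ^ 2 ≤ n * 2 ^ n) ∧
    (∑ x ∈ range (2 ^ n), dev 2 1 n x ^ 2 ≤ n * 2 ^ n) := by
  induction n with
  | zero => simp [dev, cnt]
  | succ n ih =>
    have e : ∀ c, ∑ x ∈ range (2 ^ (n + 1)), dev 2 c (n + 1) x ^ 2 =
        ∑ x ∈ range (2 ^ n), ∑ d ∈ range 2, dev 2 c (n + 1) (2 * x + d) ^ 2 := by
      intro c; rw [pow_succ, mul_comm, sum_range_mul']
    have e0 : ∀ c, c = 0 ∨ c = 1 → ∑ x ∈ range (2 ^ (n + 1)), dev 2 c (n + 1) x ^ 2 =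
        ∑ x ∈ range (2 ^ n), (2 + dev 2 0 n x ^ 2 + dev 2 1 n x ^ 2
          - 2 * dev 2 0 n x + 2 * dev 2 1 n x) := by
      intro c hc
      rw [e]
      apply sum_congr rfl
      intro x _
      simp only [sum_range_succ, sum_range_zero]
      rw [dev_succ (by norm_num) _ _ _ _ (by norm_num), dev_succ (by norm_num) _ _ _ _ (by norm_num)]
      rcases hc with rfl | rfl <;> norm_num <;> ring
    have f := first2 n
    rw [e0 0 (by simp), e0 1 (by simp)]
    simp only [sum_add_distrib, sum_sub_distrib, ← mul_sum, sum_const, card_range, nsmul_eq_mul]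
    push_cast
    have hp : (2 : ℤ) ^ (n + 1) = 2 * 2 ^ n := by ring
    rw [hp, f.1, f.2]
    constructor <;> nlinarith [ih.1, ih.2]

/-- The second moment bound. -/
theorem second {b c : ℕ} (hb : b = 2 ∨ b = 3) (hc : c ≤ 1) (n : ℕ) :
    ∑ x ∈ range (b ^ n), dev b c n x ^ 2 ≤ ((b - 1 : ℕ) : ℤ) * n * b ^ n := by
  have hc' : c = 0 ∨ c = 1 := by omega
  rcases hb with rfl | rfl <;> rcases hc' with rfl | rfl
  · simpa using (second2 n).1
  · simpa using (second2 n).2
  · simpa using (second3 n).1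
  · simpa using (second3 n).2

end Pool.Agent.H58.Cat
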