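import Mathlib
import Pool.Agent.H58.Cat.Moment

namespace Pool.Agent.H58.Cat

open Finset Real

/-- the sum of `cos²` over a full period -/
theorem sum_cos_sq {g : ℕ} (hg : 2 ≤ g) (α : ℝ) :
    ∑ t ∈ range g, cos (α + π * t / g) ^ 2 = g / 2 := by
  have h1 : ∀ t : ℕ, cos (α + π * t / g) ^ 2 = 1 / 2 + cos (2 * α + 2 * π * t / g) / 2 := by
    intro t
    rw [cos_sq]
    congr 2
    ring_nf
  simp_rw [h1]
  rw [sum_add_distrib, sum_const, card_range, ← sum_div]
  have h2 : ∑ t ∈ range g, cos (2 * α + 2 * π * t / g) = 0 := by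
    have hz := (Complex.isPrimitiveRoot_exp g (by omega)).geom_sum_eq_zero (by omega)
    have h3 : ∀ t : ℕ, cos (2 * α + 2 * π * t / g) =
        (Complex.exp (2 * α * Complex.I) * Complex.exp (2 * π * Complex.I / g) ^ t).re := by
      intro t
      rw [← Complex.exp_nat_mul, ← Complex.exp_add]
      have : 2 * (α : ℂ) * Complex.I + t * (2 * π * Complex.I / g) =
          ((2 * α + 2 * π * t / g : ℝ) : ℂ) * Complex.I := by
        push_cast; ring
      rw [this, Complex.exp_ofReal_mul_I_re]
    simp_rw [h3]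
    rw [← Complex.re_sum, ← mul_sum, hz]
    simp
  rw [h2]
  simp
  ring

/-- the mean square of the product of cosines over a full period -/
theorem sum_prod_cos_sq {N g : ℕ → ℕ} (hN0 : N 0 = 1) (hN : ∀ k, N (k + 1) = N k * g k)
    (hg : ∀ k, 2 ≤ g k) (κ : ℕ) :
    ∑ u ∈ range (N κ), ∏ k ∈ range κ, cos (π * u / N (k + 1)) ^ 2 = N κ / 2 ^ κ := by
  have hpos : ∀ k, 0 < N k := by
    intro k
    induction k with
    | zero => rw [hN0]; norm_num
    | succ k ih => rw [hN]; exact Nat.mul_pos ih (by have := hg k; omega)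
  have hdvd : ∀ k l, k ≤ l → N k ∣ N l := by
    intro k l hkl
    induction l, hkl using Nat.le_induction with
    | base => exact dvd_rfl
    | succ l _ ih => rw [hN]; exact Dvd.dvd.mul_right ih _
  induction κ with
  | zero => simp [hN0]
  | succ κ ih =>
    rw [hN κ, sum_range_mul']
    have key : ∀ t ∈ range (g κ), ∀ u ∈ range (N κ),
        ∏ k ∈ range (κ + 1), cos (π * ((N κ * t + u : ℕ) : ℝ) / N (k + 1)) ^ 2 =
          (∏ k ∈ range κ, cos (π * u / N (k + 1)) ^ 2) *
            cos (π * u / N (κ + 1) + π * t / g κ) ^ 2 := by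
      intro t _ u _
      rw [prod_range_succ]
      congr 1
      · apply prod_congr rfl
        intro k hk
        rw [mem_range] at hk
        obtain ⟨w, hw⟩ := hdvd (k + 1) κ hk
        have hne : (N (k + 1) : ℝ) ≠ 0 := by
          have := hpos (k + 1); positivity
        have : π * ((N κ * t + u : ℕ) : ℝ) / N (k + 1) =
            π * u / N (k + 1) + ((w * t : ℕ) : ℝ) * π := by
          rw [hw]; push_cast; field_simp; ring
        rw [this, cos_add_nat_mul_pi, mul_pow, ← pow_mul, mul_comm (w * t) 2, pow_mul]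
        norm_num
      · congr 2
        have hne : (N κ : ℝ) ≠ 0 := by
          have := hpos κ; positivity
        have hne' : (g κ : ℝ) ≠ 0 := by
          have := hg κ; positivity
        rw [hN κ]
        push_cast
        field_simp
        ring
    have e1 : ∑ t ∈ range (g κ), ∑ u ∈ range (N κ),
        ∏ k ∈ range (κ + 1), cos (π * ((N κ * t + u : ℕ) : ℝ) / N (k + 1)) ^ 2 =
        ∑ u ∈ range (N κ), (∏ k ∈ range κ, cos (π * u / N (k + 1)) ^ 2) * (g κ / 2) := by
      rw [sum_comm]
      apply sum_congr rfl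
      intro u hu
      rw [← sum_cos_sq (hg κ) (π * u / N (κ + 1)), mul_sum]
      apply sum_congr rfl
      intro t ht
      rw [key t ht u hu]
    rw [e1, ← sum_mul, ih]
    push_cast
    rw [pow_succ]
    field_simp

/-- the cosine away from the integers -/
theorem abs_cos_le {x η : ℝ} (h0 : 0 ≤ η) (_h1 : η ≤ 1 / 2) (hx : ∀ n : ℤ, η ≤ |x - n|) :
    |cos (π * x)| ≤ cos (π * η) := by
  have hr := hx (round x)
  have hr2 : |x - round x| ≤ 1 / 2 := abs_sub_round x
  have e1 : |cos (π * x)| = |cos (π * (x - round x))| := by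
    have : π * (x - round x) = π * x - (round x : ℤ) * π := by ring
    rw [this, cos_sub_int_mul_pi, abs_mul, abs_zpow]
    simp
  rw [e1]
  have e2 : cos (π * (x - round x)) = cos (π * |x - round x|) := by
    rw [← cos_abs (π * (x - round x)), abs_mul, abs_of_pos pi_pos]
  have e3 : 0 ≤ cos (π * |x - round x|) := by
    apply cos_nonneg_of_neg_pi_div_two_le_of_le
    · have : 0 ≤ π * |x - round x| := by positivity
      linarith [pi_pos]
    · nlinarith [pi_pos]
  rw [e2, abs_of_nonneg e3]
  apply cos_le_cos_of_nonneg_of_le_pi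
  · positivity
  · nlinarith [pi_pos]
  · nlinarith [pi_pos]

theorem cos_lt_one' {η : ℝ} (h0 : 0 < η) (h1 : η ≤ 1 / 2) : cos (π * η) < 1 := by
  rw [← cos_zero]
  apply cos_lt_cos_of_nonneg_of_le_pi
  · norm_num
  · nlinarith [pi_pos]
  · positivity

end Pool.Agent.H58.Cat
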