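import Mathlib
import Pool.Agent.H58.Cat.Trig

namespace Pool.Agent.H58.Cat

open Finset Real

/-- the two pairs of bases -/
def Pair (p q : ℕ) : Prop := (p = 2 ∧ q = 3) ∨ (p = 3 ∧ q = 2)

/-- lower bound for the order of `q` modulo `p ^ E` -/
theorem ord_lower {p q E d : ℕ} (h : Pair p q) (hE : 2 ≤ E) (hd : 0 < d)
    (hdvd : p ^ E ∣ q ^ d - 1) : p ^ (E - 2) ≤ d := by
  rcases h with ⟨rfl, rfl⟩ | ⟨rfl, rfl⟩
  · have hne : 3 ^ d - 1 ≠ 0 := by
      have : 3 ^ 1 ≤ 3 ^ d := Nat.pow_le_pow_right (by norm_num) hd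
      omega
    have hodd : Even d := by
      by_contra hcon
      rw [Nat.not_even_iff_odd] at hcon
      obtain ⟨k, rfl⟩ := hcon
      have h4 : 4 ∣ 3 ^ (2 * k + 1) - 1 := by
        refine dvd_trans ?_ hdvd
        calc 4 = 2 ^ 2 := by norm_num
          _ ∣ 2 ^ E := pow_dvd_pow 2 hE
      have h9 : 3 ^ (2 * k + 1) % 4 = 3 := by
        rw [pow_succ, pow_mul, Nat.mul_mod, Nat.pow_mod]
        norm_num
      omega
    have key := padicValNat.pow_two_sub_pow (x := 3) (y := 1) (by norm_num) (by norm_num)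
      (by norm_num) hd.ne' hodd
    have hv : E ≤ padicValNat 2 (3 ^ d - 1) := by
      exact (padicValNat_dvd_iff_le hne).1 hdvd
    rw [one_pow] at key
    have e4 : padicValNat 2 (3 + 1) = 2 := by
      rw [show 3 + 1 = 2 ^ 2 by norm_num]; exact padicValNat.prime_pow 2
    have e2 : padicValNat 2 (3 - 1) = 1 := by
      rw [show 3 - 1 = 2 ^ 1 by norm_num]; exact padicValNat.prime_pow 1
    rw [e4, e2] at key
    have hv2 : E - 2 ≤ padicValNat 2 d := by omega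
    exact Nat.le_of_dvd hd ((padicValNat_dvd_iff_le hd.ne').2 hv2)
  · have hne : 2 ^ d - 1 ≠ 0 := by
      have : 2 ^ 1 ≤ 2 ^ d := Nat.pow_le_pow_right (by norm_num) hd
      omega
    have heven : Even d := by
      by_contra hcon
      rw [Nat.not_even_iff_odd] at hcon
      obtain ⟨k, rfl⟩ := hcon
      have h3 : 3 ∣ 2 ^ (2 * k + 1) - 1 := by
        refine dvd_trans ?_ hdvd
        exact dvd_pow_self 3 (by omega)
      have h9 : 2 ^ (2 * k + 1) % 3 = 2 := by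
        rw [pow_succ, pow_mul, Nat.mul_mod, Nat.pow_mod]
        norm_num
      omega
    obtain ⟨k, hk⟩ := heven
    have hk0 : k ≠ 0 := by omega
    have hpow : 2 ^ d = 4 ^ k := by rw [hk, ← two_mul, pow_mul]; norm_num
    rw [hpow] at hdvd hne
    have hp3 : Fact (Nat.Prime 3) := ⟨Nat.prime_three⟩
    have key := padicValNat.pow_sub_pow (p := 3) (x := 4) (y := 1) (by decide) (by norm_num)
      (by norm_num) (by norm_num) hk0
    rw [one_pow] at key
    have hv : E ≤ padicValNat 3 (4 ^ k - 1) := (padicValNat_dvd_iff_le hne).1 hdvd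
    have e1 : padicValNat 3 (4 - 1) = 1 := by
      rw [show 4 - 1 = 3 ^ 1 by norm_num]; exact padicValNat.prime_pow 1
    rw [e1] at key
    have hv2 : E - 2 ≤ padicValNat 3 k := by omega
    have := Nat.le_of_dvd (Nat.pos_of_ne_zero hk0)
      ((padicValNat_dvd_iff_le hk0).2 hv2)
    omega

/-- distinctness of the residues -/
theorem pow_mul_inj {p q E D Q : ℕ} (h : Pair p q) (hE : 2 ≤ E) (hD : D ≤ p ^ (E - 2))
    (hQ : ¬ p ∣ Q) {d₁ d₂ : ℕ} (h1 : d₁ < D) (h2 : d₂ < D)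
    (heq : q ^ d₁ * Q % p ^ E = q ^ d₂ * Q % p ^ E) : d₁ = d₂ := by
  wlog hlt : d₁ < d₂ generalizing d₁ d₂
  · rcases lt_trichotomy d₁ d₂ with h' | h' | h'
    · exact this h1 h2 heq h'
    · exact h'
    · exact (this h2 h1 heq.symm h').symm
  exfalso
  have hp : p.Prime := by
    rcases h with ⟨rfl, rfl⟩ | ⟨rfl, rfl⟩ <;> norm_num
  have hcop : Nat.Coprime (p ^ E) Q := Nat.Coprime.pow_left _ ((Nat.Prime.coprime_iff_not_dvd hp).2 hQ)
  have hcq : Nat.Coprime (p ^ E) (q ^ d₁) := by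
    apply Nat.Coprime.pow
    rcases h with ⟨rfl, rfl⟩ | ⟨rfl, rfl⟩ <;> norm_num
  have hm : q ^ d₁ * Q ≡ q ^ d₂ * Q [MOD p ^ E] := heq
  have hm2 : q ^ d₁ ≡ q ^ d₂ [MOD p ^ E] := Nat.ModEq.cancel_right_of_coprime hcop hm
  have hm3 : q ^ d₁ * 1 ≡ q ^ d₁ * q ^ (d₂ - d₁) [MOD p ^ E] := by
    rw [mul_one, ← pow_add, Nat.add_sub_cancel' hlt.le]; exact hm2
  have hm4 : 1 ≡ q ^ (d₂ - d₁) [MOD p ^ E] := Nat.ModEq.cancel_left_of_coprime hcq hm3
  have hq1 : 1 ≤ q ^ (d₂ - d₁) := by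
    apply Nat.one_le_pow
    rcases h with ⟨rfl, rfl⟩ | ⟨rfl, rfl⟩ <;> norm_num
  have hdvd : p ^ E ∣ q ^ (d₂ - d₁) - 1 := (Nat.modEq_iff_dvd' hq1).1 hm4
  have := ord_lower h hE (by omega) hdvd
  omega

/-- a long run of small distances to the integers -/
theorem run {P θ : ℝ} {i₁ : ℕ} {R : ℕ} (hPN : ∃ P' : ℕ, P = P') (hP : 2 ≤ P)
    (h : ∀ l, l < R + 1 → ∃ n : ℤ, |P ^ (i₁ + l) * θ - n| < 1 / (4 * P)) :
    ∃ Q : ℤ, |P ^ i₁ * θ - Q| * P ^ R < 1 / (4 * P) := by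
  obtain ⟨Q, hQ⟩ := h 0 (by omega)
  refine ⟨Q, ?_⟩
  rw [add_zero] at hQ
  have hP0 : 0 < P := by linarith
  have key : ∀ l, l < R + 1 → |P ^ (i₁ + l) * θ - P ^ l * Q| < 1 / (4 * P) := by
    intro l
    induction l with
    | zero => intro _; simpa using hQ
    | succ l ih =>
      intro hl
      have h1 := ih (by omega)
      obtain ⟨n, hn⟩ := h (l + 1) hl
      have h2 : |P ^ (i₁ + (l + 1)) * θ - P ^ (l + 1) * Q| < 1 / 4 := by
        have : P ^ (i₁ + (l + 1)) * θ - P ^ (l + 1) * Q = P * (P ^ (i₁ + l) * θ - P ^ l * Q) := by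
          rw [← add_assoc, pow_succ, pow_succ]; ring
        rw [this, abs_mul, abs_of_pos hP0]
        calc P * |P ^ (i₁ + l) * θ - P ^ l * Q| < P * (1 / (4 * P)) :=
              mul_lt_mul_of_pos_left h1 hP0
          _ = 1 / 4 := by field_simp
      have h3 : 1 / (4 * P) ≤ 1 / 8 := by
        rw [div_le_div_iff₀ (by positivity) (by norm_num)]; linarith
      obtain ⟨P', rfl⟩ := hPN
      have h4 : n = (P' : ℤ) ^ (l + 1) * Q := by
        have h5 : |((n - (P' : ℤ) ^ (l + 1) * Q : ℤ) : ℝ)| < 1 := by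
          push_cast
          rw [abs_lt] at h2 hn ⊢
          constructor <;> linarith [h2.1, h2.2, hn.1, hn.2]
        rw [← Int.cast_abs] at h5
        have h6 : |n - (P' : ℤ) ^ (l + 1) * Q| < 1 := by exact_mod_cast h5
        have := Int.abs_lt_one_iff.1 h6
        linarith
      rw [h4] at hn
      push_cast at hn
      exact hn
  have := key R (by omega)
  have e : P ^ (i₁ + R) * θ - P ^ R * Q = (P ^ i₁ * θ - Q) * P ^ R := by rw [pow_add]; ring
  rwa [e, abs_mul, abs_of_pos (by positivity : (0 : ℝ) < P ^ R)] at this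

end Pool.Agent.H58.Cat
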