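import Mathlib
import Pool.Agent.H58.Cat.Ord

namespace Pool.Agent.H58.Cat

open Finset Real

/-- the characteristic function of a sparse random number, in absolute value -/
noncomputable def Phi (P : ℝ) (I₁ I₂ : ℕ) (θ : ℝ) : ℝ := ∏ i ∈ Ico I₁ I₂, |cos (π * (P ^ i * θ))|

theorem Phi_nonneg (P : ℝ) (I₁ I₂ : ℕ) (θ : ℝ) : 0 ≤ Phi P I₁ I₂ θ :=
  prod_nonneg fun _ _ => abs_nonneg _

theorem Phi_le_one (P : ℝ) (I₁ I₂ : ℕ) (θ : ℝ) : Phi P I₁ I₂ θ ≤ 1 :=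
  prod_le_one (fun _ _ => abs_nonneg _) fun _ _ => abs_cos_le_one _

theorem prod_le_subset {s t : Finset ℕ} {a : ℕ → ℝ} (h0 : ∀ i, 0 ≤ a i) (h1 : ∀ i, a i ≤ 1)
    (hst : s ⊆ t) : ∏ i ∈ t, a i ≤ ∏ i ∈ s, a i := by
  rw [← prod_sdiff hst]
  have e1 : ∏ i ∈ t \ s, a i ≤ 1 := prod_le_one (fun i _ => h0 i) (fun i _ => h1 i)
  have e2 : 0 ≤ ∏ i ∈ s, a i := prod_nonneg fun i _ => h0 i
  calc _ ≤ 1 * ∏ i ∈ s, a i := mul_le_mul_of_nonneg_right e1 e2
    _ = _ := one_mul _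

theorem prod_perturb {κ : ℕ} {a b : ℕ → ℝ} {ε : ℝ} (hε : 0 ≤ ε) (ha0 : ∀ i, 0 ≤ a i)
    (ha1 : ∀ i, a i ≤ 1) (hb0 : ∀ i, 0 ≤ b i) (hb1 : ∀ i, b i ≤ 1)
    (h : ∀ i, i < κ → a i ≤ b i + ε) :
    ∏ i ∈ range κ, a i ≤ ∏ i ∈ range κ, b i + κ * ε := by
  induction κ with
  | zero => simp
  | succ κ ih =>
    rw [prod_range_succ, prod_range_succ]
    have h1 := ih (fun i hi => h i (by omega))
    have h2 := h κ (by omega)
    have hB1 : ∏ i ∈ range κ, b i ≤ 1 := prod_le_one (fun i _ => hb0 i) (fun i _ => hb1 i)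
    have hB0 : 0 ≤ ∏ i ∈ range κ, b i := prod_nonneg fun i _ => hb0 i
    calc (∏ i ∈ range κ, a i) * a κ ≤ (∏ i ∈ range κ, b i + κ * ε) * a κ :=
          mul_le_mul_of_nonneg_right h1 (ha0 κ)
      _ = (∏ i ∈ range κ, b i) * a κ + κ * ε * a κ := by ring
      _ ≤ (∏ i ∈ range κ, b i) * (b κ + ε) + κ * ε * 1 := by
          apply add_le_add
          · exact mul_le_mul_of_nonneg_left h2 hB0
          · exact mul_le_mul_of_nonneg_left (ha1 κ) (by positivity)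
      _ ≤ (∏ i ∈ range κ, b i) * b κ + 1 * ε + κ * ε := by nlinarith
      _ = _ := by push_cast; ring

/-- many blocks with a bad index -/
theorem Phi_le_pow {P η : ℝ} (hη0 : 0 ≤ η) (hη1 : η ≤ 1 / 2) {I₁ R : ℕ} {θ : ℝ} (B : ℕ) (I₂ : ℕ)
    (hI : I₁ + B * R ≤ I₂)
    (h : ∀ t, t < B → ∃ i, I₂ - (t + 1) * R ≤ i ∧ i < I₂ - t * R ∧ ∀ n : ℤ, η ≤ |P ^ i * θ - n|) :
    Phi P I₁ I₂ θ ≤ cos (π * η) ^ B := by
  induction B generalizing I₂ with
  | zero => simpa using Phi_le_one P I₁ I₂ θ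
  | succ B ih =>
    have hc0 : 0 ≤ cos (π * η) := by
      apply cos_nonneg_of_neg_pi_div_two_le_of_le
      · have : 0 ≤ π * η := by positivity
        linarith [pi_pos]
      · nlinarith [pi_pos]
    have hBR : (B + 1) * R = B * R + R := by ring
    have h1 := ih (I₂ - R) (by omega) (by
      intro t ht
      obtain ⟨i, hi1, hi2, hi3⟩ := h (t + 1) (by omega)
      refine ⟨i, ?_, ?_, hi3⟩
      · rw [show (t + 1 + 1) * R = (t + 1) * R + R by ring] at hi1; omega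
      · rw [show (t + 1) * R = t * R + R by ring] at hi2; omega)
    obtain ⟨i, hi1, hi2, hi3⟩ := h 0 (by omega)
    rw [zero_add, one_mul] at hi1
    rw [zero_mul, Nat.sub_zero] at hi2
    have h2 : |cos (π * (P ^ i * θ))| ≤ cos (π * η) := abs_cos_le hη0 hη1 hi3
    unfold Phi at h1 ⊢
    rw [← prod_Ico_consecutive _ (show I₁ ≤ I₂ - R by omega) (show I₂ - R ≤ I₂ by omega), pow_succ]
    apply mul_le_mul h1 _ (prod_nonneg fun _ _ => abs_nonneg _) (pow_nonneg hc0 _)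
    refine (prod_le_subset (s := {i}) (fun _ => abs_nonneg _) (fun _ => abs_cos_le_one _) ?_).trans ?_
    · rw [singleton_subset_iff, mem_Ico]; exact ⟨hi1, hi2⟩
    · rw [prod_singleton]; exact h2

/-- cosine products are periodic -/
theorem prod_cos_periodic {N : ℕ → ℕ} (hpos : ∀ k, 0 < N k) (hdvd : ∀ k l, k ≤ l → N k ∣ N l)
    (κ n : ℕ) :
    ∏ k ∈ range κ, cos (π * (n : ℕ) / N (k + 1)) ^ 2 =
      ∏ k ∈ range κ, cos (π * ((n % N κ : ℕ) : ℝ) / N (k + 1)) ^ 2 := by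
  apply prod_congr rfl
  intro k hk
  rw [mem_range] at hk
  obtain ⟨w, hw⟩ := hdvd (k + 1) κ hk
  have hne : (N (k + 1) : ℝ) ≠ 0 := by
    have := hpos (k + 1); positivity
  have h1 : (n : ℝ) = (n % N κ : ℕ) + (N κ : ℝ) * (n / N κ : ℕ) := by
    exact_mod_cast (Nat.mod_add_div n (N κ)).symm
  have : π * (n : ℝ) / N (k + 1) =
      π * ((n % N κ : ℕ) : ℝ) / N (k + 1) + ((w * (n / N κ) : ℕ) : ℝ) * π := by
    rw [h1, hw]; push_cast; field_simp
  rw [this, cos_add_nat_mul_pi, mul_pow, ← pow_mul, mul_comm (w * (n / N κ)) 2, pow_mul]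
  norm_num

theorem abs_cos_add_le (x y : ℝ) : |cos (x + y)| ≤ |cos x| + |y| := by
  have h1 : |cos (x + y) - cos x| ≤ |y| := by
    have := abs_cos_sub_cos_le (x + y) x
    simpa using this
  have h2 : |cos (x + y)| ≤ |cos (x + y) - cos x| + |cos x| := by
    have := abs_add_le (cos (x + y) - cos x) (cos x)
    simpa using this
  linarith

end Pool.Agent.H58.Cat
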