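import Mathlib
import Pool.Agent.H58.Cat.Dich

namespace Pool.Agent.H58.Cat

open Finset Real

theorem window_sum {p q m κ e₀ D Q : ℕ} (h : Pair p q) (hm : 1 ≤ m) (hκ : 2 ≤ κ) (he : 1 ≤ e₀)
    (hQ : ¬ p ∣ Q) (hD : D ≤ p ^ (e₀ + m * (κ - 1) - 2)) :
    ∑ d ∈ range D, (∏ k ∈ range κ, |cos (π * ((q ^ d * Q : ℕ) : ℝ) / (p ^ (e₀ + m * k) : ℕ))|) ^ 2 ≤
      (p ^ (e₀ + m * (κ - 1)) : ℕ) / 2 ^ κ := by
  have hp2 : 2 ≤ p := by rcases h with ⟨rfl, rfl⟩ | ⟨rfl, rfl⟩ <;> norm_num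
  have hp0 : 0 < p := by omega
  set g : ℕ → ℕ := fun k => if k = 0 then p ^ e₀ else p ^ m with hg
  set N : ℕ → ℕ := fun k => if k = 0 then 1 else p ^ (e₀ + m * (k - 1)) with hN
  have hN0 : N 0 = 1 := by simp [hN]
  have hNs : ∀ k, N (k + 1) = p ^ (e₀ + m * k) := by
    intro k; simp [hN]
  have hNg : ∀ k, N (k + 1) = N k * g k := by
    intro k
    rw [hNs]
    rcases Nat.eq_zero_or_pos k with rfl | hk
    · simp [hN0, hg]
    · obtain ⟨k', rfl⟩ : ∃ k', k = k' + 1 := ⟨k - 1, by omega⟩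
      rw [hNs]
      simp only [hg]
      rw [if_neg (by omega), ← pow_add]
      congr 1; ring
  have hg2 : ∀ k, 2 ≤ g k := by
    intro k
    simp only [hg]
    split_ifs
    · calc 2 ≤ p ^ 1 := by simpa using hp2
        _ ≤ p ^ e₀ := Nat.pow_le_pow_right hp0 he
    · calc 2 ≤ p ^ 1 := by simpa using hp2
        _ ≤ p ^ m := Nat.pow_le_pow_right hp0 hm
  have hpos : ∀ k, 0 < N k := by
    intro k
    rcases Nat.eq_zero_or_pos k with rfl | hk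
    · rw [hN0]; norm_num
    · obtain ⟨k', rfl⟩ : ∃ k', k = k' + 1 := ⟨k - 1, by omega⟩
      rw [hNs]; positivity
  have hdvd : ∀ k l, k ≤ l → N k ∣ N l := by
    intro k l hkl
    induction l, hkl using Nat.le_induction with
    | base => exact dvd_rfl
    | succ l _ ih => rw [hNg]; exact Dvd.dvd.mul_right ih _
  have hNκ : N κ = p ^ (e₀ + m * (κ - 1)) := by
    obtain ⟨k', rfl⟩ : ∃ k', κ = k' + 1 := ⟨κ - 1, by omega⟩
    rw [hNs]; rfl
  have main := sum_prod_cos_sq hN0 hNg hg2 κ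
  rw [← hNκ]
  rw [← main]
  have step : ∀ d ∈ range D,
      (∏ k ∈ range κ, |cos (π * ((q ^ d * Q : ℕ) : ℝ) / (p ^ (e₀ + m * k) : ℕ))|) ^ 2 =
        ∏ k ∈ range κ, cos (π * ((q ^ d * Q % N κ : ℕ) : ℝ) / N (k + 1)) ^ 2 := by
    intro d _
    rw [← prod_pow, ← prod_cos_periodic hpos hdvd κ (q ^ d * Q)]
    apply prod_congr rfl
    intro k _
    rw [sq_abs, hNs]
  rw [sum_congr rfl step]
  have hinj : Set.InjOn (fun d => q ^ d * Q % N κ) (range D : Set ℕ) := by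
    intro a ha b hb hab
    rw [coe_range, Set.mem_Iio] at ha hb
    have hE : 2 ≤ e₀ + m * (κ - 1) := by
      have : 1 * 1 ≤ m * (κ - 1) := Nat.mul_le_mul hm (by omega)
      omega
    apply pow_mul_inj h hE (D := D) _ hQ ha hb
    · rw [← hNκ]; exact hab
    · exact hD
  rw [← sum_image (f := fun u => ∏ k ∈ range κ, cos (π * ((u : ℕ) : ℝ) / N (k + 1)) ^ 2) hinj]
  apply sum_le_sum_of_subset_of_nonneg
  · intro u hu
    rw [mem_image] at hu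
    obtain ⟨d, _, rfl⟩ := hu
    rw [mem_range]
    exact Nat.mod_lt _ (hpos κ)
  · intro u _ _
    exact prod_nonneg fun _ _ => sq_nonneg _

/-- the average over the window is small -/
theorem window_avg {p q m κ e₀ D Q : ℕ} {δ : ℝ} (h : Pair p q) (hm : 1 ≤ m) (hκ : 2 ≤ κ)
    (he : 1 ≤ e₀) (hQ : ¬ p ∣ Q) (hD : D ≤ p ^ (e₀ + m * (κ - 1) - 2)) (hδ : 0 ≤ δ)
    (hE : ((p ^ (e₀ + m * (κ - 1)) : ℕ) : ℝ) / 2 ^ κ ≤ D * δ ^ 2) :
    ∑ d ∈ range D, ∏ k ∈ range κ, |cos (π * ((q ^ d * Q : ℕ) : ℝ) / (p ^ (e₀ + m * k) : ℕ))| ≤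
      D * δ := by
  have h1 := window_sum h hm hκ he hQ hD
  have h2 := sq_sum_le_card_mul_sum_sq (s := range D)
    (f := fun d => ∏ k ∈ range κ, |cos (π * ((q ^ d * Q : ℕ) : ℝ) / (p ^ (e₀ + m * k) : ℕ))|)
  rw [card_range] at h2
  have h3 : (∑ d ∈ range D, ∏ k ∈ range κ,
      |cos (π * ((q ^ d * Q : ℕ) : ℝ) / (p ^ (e₀ + m * k) : ℕ))|) ^ 2 ≤ (D * δ) ^ 2 := by
    refine h2.trans ?_
    calc (D : ℝ) * _ ≤ D * (D * δ ^ 2) := by
          apply mul_le_mul_of_nonneg_left (h1.trans hE) (by positivity)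
      _ = (D * δ) ^ 2 := by ring
  exact le_of_sq_le_sq h3 (by positivity)

end Pool.Agent.H58.Cat
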