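import Mathlib
import Pool.Agent.H58.Cat.Dich2

namespace Pool.Agent.H58.Cat

open Finset Real

/-- once a multiple of `θ` is very close to an integer, the average over the powers of `q` is small -/
theorem window_main {p q m κ D R I₁ I₂ i₁ : ℕ} {δ θ : ℝ} (h : Pair p q) (hm : 1 ≤ m) (hκ : 2 ≤ κ)
    (_hθ : 0 < θ) (hD : D = p ^ (m * (κ - 1) - 1)) (hδ : 0 < δ)
    (hE : (p : ℝ) * p ^ m / 2 ^ κ ≤ (δ / 2) ^ 2)
    (hR : κ * (π * (q : ℝ) ^ D) ≤ ((p : ℝ) ^ m) ^ R * (δ / 2))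
    (h1 : 2 * θ * ((p : ℝ) ^ m) ^ (I₁ + (κ + 1)) ≤ 1)
    (h2 : 1 ≤ ((p : ℝ) ^ m) ^ i₁ * θ) (hi : i₁ < I₂)
    (hQ : ∃ Q : ℤ, |((p : ℝ) ^ m) ^ i₁ * θ - Q| * ((p : ℝ) ^ m) ^ R < 1 / (4 * (p : ℝ) ^ m)) :
    ∑ d ∈ range D, Phi ((p : ℝ) ^ m) I₁ I₂ ((q : ℝ) ^ d * θ) ≤ D * δ := by
  have hp2 : 2 ≤ p := by rcases h with ⟨rfl, rfl⟩ | ⟨rfl, rfl⟩ <;> norm_num
  have hq1 : 1 ≤ q := by rcases h with ⟨rfl, rfl⟩ | ⟨rfl, rfl⟩ <;> norm_num
  have hp0 : 0 < p := by omega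
  have hpR : (2 : ℝ) ≤ p := by exact_mod_cast hp2
  have hqR : (1 : ℝ) ≤ q := by exact_mod_cast hq1
  have hP2 : (2 : ℝ) ≤ (p : ℝ) ^ m := by
    calc (2 : ℝ) ≤ p := hpR
      _ = (p : ℝ) ^ 1 := (pow_one _).symm
      _ ≤ (p : ℝ) ^ m := pow_le_pow_right₀ (by linarith) hm
  set P : ℝ := (p : ℝ) ^ m with hP
  have hP0 : 0 < P := by linarith
  obtain ⟨Q, hQ⟩ := hQ
  set err := P ^ i₁ * θ - Q with herr
  have hPR1 : 1 ≤ P ^ R := one_le_pow₀ (by linarith)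
  have herr1 : |err| < 1 / 8 := by
    calc |err| = |err| * 1 := (mul_one _).symm
      _ ≤ |err| * P ^ R := mul_le_mul_of_nonneg_left hPR1 (abs_nonneg _)
      _ < 1 / (4 * P) := hQ
      _ ≤ 1 / 8 := by rw [div_le_div_iff₀ (by positivity) (by norm_num)]; linarith
  have herr2 : |err| * P ^ R ≤ 1 := by
    refine hQ.le.trans ?_
    rw [div_le_one (by positivity)]; linarith
  -- `Q` is a positive natural number
  have hQpos : (0 : ℝ) < Q := by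
    have := abs_lt.1 herr1
    have e : (Q : ℝ) = P ^ i₁ * θ - err := by rw [herr]; ring
    rw [e]; linarith [this.2]
  have hQpos' : 0 < Q := by exact_mod_cast hQpos
  obtain ⟨Qn, rfl⟩ : ∃ n : ℕ, Q = n := ⟨Q.toNat, (Int.toNat_of_nonneg hQpos'.le).symm⟩
  have hQn : Qn ≠ 0 := by rintro rfl; simp at hQpos'
  obtain ⟨w, Q', hQ', hQeq⟩ := Nat.exists_eq_pow_mul_and_not_dvd hQn p (by omega)
  have hQle : (Qn : ℝ) ≤ 2 * (P ^ i₁ * θ) := by
    have := abs_lt.1 herr1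
    have e : (Qn : ℝ) = P ^ i₁ * θ - err := by rw [herr]; push_cast; ring
    rw [e]; linarith [this.1]
  -- the position of the lowest digit
  have hw : w + m * (I₁ + (κ + 1)) ≤ m * i₁ := by
    have hpw : (p : ℝ) ^ w ≤ Qn := by
      have : p ^ w ≤ Qn := by
        rw [hQeq]
        have hQ'0 : 0 < Q' := by
          rcases Nat.eq_zero_or_pos Q' with h0 | h0
          · rw [h0] at hQ'; simp at hQ'
          · exact h0
        exact Nat.le_mul_of_pos_right _ hQ'0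
      exact_mod_cast this
    have e1 : (p : ℝ) ^ (w + m * (I₁ + (κ + 1))) ≤ (p : ℝ) ^ (m * i₁) := by
      calc (p : ℝ) ^ (w + m * (I₁ + (κ + 1))) = p ^ w * P ^ (I₁ + (κ + 1)) := by
            rw [pow_add, hP, ← pow_mul]
        _ ≤ 2 * (P ^ i₁ * θ) * P ^ (I₁ + (κ + 1)) := by
            apply mul_le_mul_of_nonneg_right (hpw.trans hQle) (by positivity)
        _ = P ^ i₁ * (2 * θ * P ^ (I₁ + (κ + 1))) := by ring
        _ ≤ P ^ i₁ * 1 := mul_le_mul_of_nonneg_left h1 (by positivity)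
        _ = (p : ℝ) ^ (m * i₁) := by rw [mul_one, hP, ← pow_mul]
    exact (pow_le_pow_iff_right₀ (by linarith : (1 : ℝ) < p)).1 e1
  obtain ⟨t, ht⟩ : ∃ t, m * i₁ = w + t := Nat.exists_eq_add_of_le (by omega)
  have ht1 : m * (I₁ + (κ + 1)) ≤ t := by omega
  set a₀ := (t - 1) / m with ha₀
  have hmul : m * a₀ ≤ t - 1 := Nat.mul_div_le _ _
  have hlt : t - 1 < m * (a₀ + 1) := Nat.lt_mul_div_succ _ (by omega)
  have hexp1 : m * (a₀ + 1) = m * a₀ + m := by ring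
  have hexp2 : m * (I₁ + (κ + 1)) = m * (I₁ + κ) + m := by ring
  obtain ⟨e₀, he₀⟩ : ∃ e₀, t = m * a₀ + e₀ := Nat.exists_eq_add_of_le (by omega)
  have he1 : 1 ≤ e₀ := by omega
  have he2 : e₀ ≤ m := by omega
  have ha1 : I₁ + κ ≤ a₀ := by
    have : m * (I₁ + κ) ≤ m * a₀ := by omega
    exact Nat.le_of_mul_le_mul_left this (by omega)
  have ha2 : a₀ ≤ i₁ := by
    have : m * a₀ ≤ m * i₁ := by omega
    exact Nat.le_of_mul_le_mul_left this (by omega)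
  -- the values of the phases
  have hphase : ∀ d k : ℕ, k < κ → P ^ (a₀ - k) * ((q : ℝ) ^ d * θ) =
      ((q ^ d * Q' : ℕ) : ℝ) / (p ^ (e₀ + m * k) : ℕ) + (q : ℝ) ^ d * err / P ^ (i₁ - (a₀ - k)) := by
    intro d k hk
    have e1 : P ^ i₁ = P ^ (a₀ - k) * P ^ (i₁ - (a₀ - k)) := by
      rw [← pow_add]; congr 1; omega
    have e2 : P ^ i₁ * θ = Qn + err := by rw [herr]; push_cast; ring
    have e3 : P ^ (a₀ - k) * θ = (Qn + err) / P ^ (i₁ - (a₀ - k)) := by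
      rw [eq_div_iff (by positivity), ← e2, e1]; ring
    have e4 : P ^ (i₁ - (a₀ - k)) = (p : ℝ) ^ w * (p : ℝ) ^ (e₀ + m * k) := by
      rw [hP, ← pow_mul, ← pow_add]
      congr 1
      have : m * (i₁ - (a₀ - k)) = m * i₁ - (m * a₀ - m * k) := by
        rw [Nat.mul_sub, Nat.mul_sub]
      have h5 : m * k ≤ m * a₀ := Nat.mul_le_mul_left _ (by omega)
      omega
    have e5 : (Qn : ℝ) = (p : ℝ) ^ w * Q' := by rw [hQeq]; push_cast; ring
    calc P ^ (a₀ - k) * ((q : ℝ) ^ d * θ) = (q : ℝ) ^ d * (P ^ (a₀ - k) * θ) := by ring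
      _ = (q : ℝ) ^ d * ((Qn + err) / P ^ (i₁ - (a₀ - k))) := by rw [e3]
      _ = (q : ℝ) ^ d * Qn / P ^ (i₁ - (a₀ - k)) + (q : ℝ) ^ d * err / P ^ (i₁ - (a₀ - k)) := by
          ring
      _ = _ := by
          congr 1
          rw [e4, e5]
          push_cast
          have : (p : ℝ) ^ w ≠ 0 := by positivity
          field_simp
  set ε := π * ((q : ℝ) ^ D * |err|) with hε
  have hε0 : 0 ≤ ε := by positivity
  have hκε : κ * ε ≤ δ / 2 := by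
    have e1 : κ * ε * P ^ R ≤ δ / 2 * P ^ R := by
      calc κ * ε * P ^ R = κ * (π * (q : ℝ) ^ D) * (|err| * P ^ R) := by rw [hε]; ring
        _ ≤ κ * (π * (q : ℝ) ^ D) * 1 := mul_le_mul_of_nonneg_left herr2 (by positivity)
        _ ≤ P ^ R * (δ / 2) := by rw [mul_one]; exact hR
        _ = δ / 2 * P ^ R := by ring
    exact le_of_mul_le_mul_right e1 (by positivity)
  have hPhi : ∀ d ∈ range D, Phi P I₁ I₂ ((q : ℝ) ^ d * θ) ≤
      ∏ k ∈ range κ, |cos (π * ((q ^ d * Q' : ℕ) : ℝ) / (p ^ (e₀ + m * k) : ℕ))| + κ * ε := by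
    intro d hd
    rw [mem_range] at hd
    have s1 : Phi P I₁ I₂ ((q : ℝ) ^ d * θ) ≤
        ∏ i ∈ (range κ).image (fun k => a₀ - k), |cos (π * (P ^ i * ((q : ℝ) ^ d * θ)))| := by
      unfold Phi
      apply prod_le_subset (fun _ => abs_nonneg _) (fun _ => abs_cos_le_one _)
      intro i hi'
      rw [mem_image] at hi'
      obtain ⟨k, hk, rfl⟩ := hi'
      rw [mem_range] at hk
      rw [mem_Ico]
      omega
    refine s1.trans ?_
    rw [prod_image]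
    · apply prod_perturb hε0 (fun _ => abs_nonneg _) (fun _ => abs_cos_le_one _)
        (fun _ => abs_nonneg _) (fun _ => abs_cos_le_one _)
      intro k hk
      rw [hphase d k hk, mul_add, ← mul_div_assoc]
      refine (abs_cos_add_le _ _).trans ?_
      apply add_le_add le_rfl
      rw [hε, abs_mul, abs_of_pos pi_pos]
      apply mul_le_mul_of_nonneg_left _ pi_pos.le
      rw [abs_div, abs_mul, abs_of_nonneg (by positivity : (0 : ℝ) ≤ (q : ℝ) ^ d),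
        abs_of_pos (by positivity : (0 : ℝ) < P ^ (i₁ - (a₀ - k)))]
      have g1 : (1 : ℝ) ≤ P ^ (i₁ - (a₀ - k)) := one_le_pow₀ (by linarith)
      have g2 : (q : ℝ) ^ d ≤ (q : ℝ) ^ D := pow_le_pow_right₀ hqR hd.le
      calc (q : ℝ) ^ d * |err| / P ^ (i₁ - (a₀ - k)) ≤ (q : ℝ) ^ d * |err| :=
            div_le_self (by positivity) g1
        _ ≤ (q : ℝ) ^ D * |err| := mul_le_mul_of_nonneg_right g2 (abs_nonneg _)
    · intro a ha b hb hab
      rw [coe_range, Set.mem_Iio] at ha hb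
      have hab' : a₀ - a = a₀ - b := hab
      omega
  have havg := window_avg (δ := δ / 2) (D := D) h hm hκ he1 hQ' (by
    rw [hD]; exact Nat.pow_le_pow_right hp0 (by omega)) (by positivity) (by
    -- `p ^ (e₀ + m (κ - 1)) / 2 ^ κ ≤ D (δ / 2) ^ 2`
    have e1 : p ^ (e₀ + m * (κ - 1)) ≤ p * p ^ m * D := by
      rw [hD]
      calc p ^ (e₀ + m * (κ - 1)) ≤ p ^ (1 + m + (m * (κ - 1) - 1)) :=
            Nat.pow_le_pow_right hp0 (by
              have : 1 * 1 ≤ m * (κ - 1) := Nat.mul_le_mul hm (by omega)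
              omega)
        _ = p * p ^ m * p ^ (m * (κ - 1) - 1) := by rw [pow_add, pow_add, pow_one]
    have e2 : ((p ^ (e₀ + m * (κ - 1)) : ℕ) : ℝ) ≤ p * p ^ m * D := by exact_mod_cast e1
    calc ((p ^ (e₀ + m * (κ - 1)) : ℕ) : ℝ) / 2 ^ κ ≤ (p * p ^ m * D) / 2 ^ κ := by
          apply div_le_div_of_nonneg_right e2 (by positivity)
      _ = D * ((p : ℝ) * p ^ m / 2 ^ κ) := by ring
      _ ≤ D * (δ / 2) ^ 2 := mul_le_mul_of_nonneg_left hE (by positivity))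
  calc ∑ d ∈ range D, Phi P I₁ I₂ ((q : ℝ) ^ d * θ)
      ≤ ∑ d ∈ range D, (∏ k ∈ range κ,
          |cos (π * ((q ^ d * Q' : ℕ) : ℝ) / (p ^ (e₀ + m * k) : ℕ))| + κ * ε) :=
        sum_le_sum hPhi
    _ ≤ D * (δ / 2) + D * (δ / 2) := by
        rw [sum_add_distrib, sum_const, card_range, nsmul_eq_mul]
        apply add_le_add havg
        exact mul_le_mul_of_nonneg_left hκε (by positivity)
    _ = D * δ := by ring

/-- **The dichotomy.** -/
theorem dich {p q m : ℕ} (h : Pair p q) (hm : 1 ≤ m) {δ : ℝ} (hδ : 0 < δ) :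
    ∃ c₁ c₂ D : ℕ, 0 < D ∧ ∀ (I₁ I₂ : ℕ) (θ : ℝ), 0 < θ →
      2 * θ * ((p : ℝ) ^ m) ^ (I₁ + c₁) ≤ 1 → ((p : ℝ) ^ m) ^ c₂ ≤ ((p : ℝ) ^ m) ^ I₂ * θ →
      (Phi ((p : ℝ) ^ m) I₁ I₂ θ ≤ δ ∨
        ∑ d ∈ range D, Phi ((p : ℝ) ^ m) I₁ I₂ ((q : ℝ) ^ d * θ) ≤ D * δ) := by
  have hp2 : 2 ≤ p := by rcases h with ⟨rfl, rfl⟩ | ⟨rfl, rfl⟩ <;> norm_num
  have hp0 : 0 < p := by omega
  have hpR : (2 : ℝ) ≤ p := by exact_mod_cast hp2
  have hP2 : (2 : ℝ) ≤ (p : ℝ) ^ m := by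
    calc (2 : ℝ) ≤ p := hpR
      _ = (p : ℝ) ^ 1 := (pow_one _).symm
      _ ≤ (p : ℝ) ^ m := pow_le_pow_right₀ (by linarith) hm
  -- choice of `κ`
  obtain ⟨κ, hκ2, hκ⟩ : ∃ κ : ℕ, 2 ≤ κ ∧ (p : ℝ) * p ^ m / 2 ^ κ ≤ (δ / 2) ^ 2 := by
    obtain ⟨k, hk⟩ := pow_unbounded_of_one_lt ((p : ℝ) * p ^ m / (δ / 2) ^ 2)
      (by norm_num : (1 : ℝ) < 2)
    refine ⟨k + 2, by omega, ?_⟩
    rw [div_le_iff₀ (by positivity)]
    rw [div_lt_iff₀ (by positivity)] at hk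
    have : (2 : ℝ) ^ k ≤ 2 ^ (k + 2) := pow_le_pow_right₀ (by norm_num) (by omega)
    nlinarith [sq_nonneg (δ / 2)]
  set D := p ^ (m * (κ - 1) - 1) with hD
  -- choice of `R`
  obtain ⟨R, hR⟩ : ∃ R : ℕ, κ * (π * (q : ℝ) ^ D) ≤ ((p : ℝ) ^ m) ^ R * (δ / 2) := by
    obtain ⟨k, hk⟩ := pow_unbounded_of_one_lt (κ * (π * (q : ℝ) ^ D) / (δ / 2))
      (by linarith : (1 : ℝ) < (p : ℝ) ^ m)
    refine ⟨k, ?_⟩
    rw [div_lt_iff₀ (by positivity)] at hk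
    exact hk.le
  -- choice of `B`
  set η : ℝ := 1 / (4 * (p : ℝ) ^ m) with hη
  have hη0 : 0 < η := by positivity
  have hη1 : η ≤ 1 / 2 := by
    rw [hη, div_le_div_iff₀ (by positivity) (by norm_num)]; linarith
  obtain ⟨B, hB⟩ : ∃ B : ℕ, cos (π * η) ^ B ≤ δ := by
    have hc0 : 0 ≤ cos (π * η) := by
      apply cos_nonneg_of_neg_pi_div_two_le_of_le
      · have : 0 ≤ π * η := by positivity
        linarith [pi_pos]
      · nlinarith [pi_pos]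
    obtain ⟨k, hk⟩ := exists_pow_lt_of_lt_one hδ (cos_lt_one' hη0 hη1)
    exact ⟨k, hk.le⟩
  refine ⟨κ + 1, B * (R + 1), D, by positivity, ?_⟩
  intro I₁ I₂ θ hθ h1 h2
  set P : ℝ := (p : ℝ) ^ m with hP
  have hP1 : 1 < P := by linarith
  have hI : I₁ + B * (R + 1) ≤ I₂ := by
    have e1 : P ^ (B * (R + 1) + (I₁ + (κ + 1))) ≤ P ^ I₂ := by
      calc P ^ (B * (R + 1) + (I₁ + (κ + 1))) = P ^ (B * (R + 1)) * P ^ (I₁ + (κ + 1)) :=
            pow_add _ _ _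
        _ ≤ P ^ I₂ * θ * P ^ (I₁ + (κ + 1)) := mul_le_mul_of_nonneg_right h2 (by positivity)
        _ = P ^ I₂ * (2 * θ * P ^ (I₁ + (κ + 1))) / 2 := by ring
        _ ≤ P ^ I₂ * 1 / 2 := by
            apply div_le_div_of_nonneg_right _ (by norm_num)
            exact mul_le_mul_of_nonneg_left h1 (by positivity)
        _ ≤ P ^ I₂ := by have : 0 ≤ P ^ I₂ := by positivity
                         linarith
    have := (pow_le_pow_iff_right₀ hP1).1 e1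
    omega
  by_cases hbad : ∀ t, t < B → ∃ i, I₂ - (t + 1) * (R + 1) ≤ i ∧ i < I₂ - t * (R + 1) ∧
      ∀ n : ℤ, η ≤ |P ^ i * θ - n|
  · left
    exact (Phi_le_pow hη0.le hη1 B I₂ hI hbad).trans hB
  · right
    push Not at hbad
    obtain ⟨t, ht, hrun⟩ := hbad
    set i₁ := I₂ - (t + 1) * (R + 1) with hi₁
    have hle : (t + 1) * (R + 1) ≤ B * (R + 1) := Nat.mul_le_mul_right _ ht
    have hsplit : (t + 1) * (R + 1) = t * (R + 1) + (R + 1) := by ring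
    have hlt : i₁ < I₂ := by omega
    apply window_main h hm hκ2 hθ hD hδ hκ hR h1 _ hlt
    · have hex := run (P := P) (θ := θ) (i₁ := i₁) (R := R) ⟨p ^ m, by rw [hP]; push_cast; rfl⟩ hP2 (by
        intro l hl
        obtain ⟨n, hn⟩ := hrun (i₁ + l) (by omega) (by omega)
        exact ⟨n, hn⟩)
      exact hex
    · -- `1 ≤ P ^ i₁ * θ`
      have e1 : P ^ (B * (R + 1)) * P ^ i₁ ≥ P ^ I₂ := by
        rw [← pow_add]
        exact pow_le_pow_right₀ hP1.le (by omega)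
      have e2 : P ^ (B * (R + 1)) * 1 ≤ P ^ (B * (R + 1)) * (P ^ i₁ * θ) := by
        calc P ^ (B * (R + 1)) * 1 = P ^ (B * (R + 1)) := mul_one _
          _ ≤ P ^ I₂ * θ := h2
          _ ≤ P ^ (B * (R + 1)) * P ^ i₁ * θ := mul_le_mul_of_nonneg_right e1 hθ.le
          _ = _ := by ring
      exact le_of_mul_le_mul_left e2 (by positivity)

end Pool.Agent.H58.Cat
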