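import Mathlib
import Pool.Agent.H58.Cat.Dich3

namespace Pool.Agent.H58.Cat

open Finset Real

theorem greedy {ψ : ℕ → ℝ} {δ : ℝ} {D K : ℕ} (_h0 : ∀ k, 0 ≤ ψ k) (h1 : ∀ k, ψ k ≤ 1) (hδ : 0 ≤ δ)
    (hD : 0 < D) (h : ∀ k, k < K → ψ k ≤ δ ∨ ∑ d ∈ range D, ψ (k + d) ≤ D * δ) :
    ∑ k ∈ range K, ψ k ≤ δ * K + D := by
  have key : ∀ j k, k + j = K → ∑ i ∈ range j, ψ (k + i) ≤ δ * j + D := by
    intro j
    induction j using Nat.strong_induction_on with
    | _ j ih =>
      intro k hk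
      rcases Nat.eq_zero_or_pos j with rfl | hj
      · simp
      rcases h k (by omega) with hc | hc
      · obtain ⟨j', rfl⟩ : ∃ j', j = j' + 1 := ⟨j - 1, by omega⟩
        rw [sum_range_succ']
        have := ih j' (by omega) (k + 1) (by omega)
        have e : ∑ i ∈ range j', ψ (k + (i + 1)) = ∑ i ∈ range j', ψ (k + 1 + i) := by
          apply sum_congr rfl
          intro i _
          congr 1; ring
        rw [e, add_zero]
        push_cast
        linarith
      · by_cases hjD : D ≤ j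
        · obtain ⟨j', rfl⟩ := Nat.exists_eq_add_of_le hjD
          rw [sum_range_add]
          have := ih j' (by omega) (k + D) (by omega)
          have e : ∑ i ∈ range j', ψ (k + (D + i)) = ∑ i ∈ range j', ψ (k + D + i) := by
            apply sum_congr rfl
            intro i _
            congr 1; ring
          rw [e]
          push_cast
          linarith
        · have e1 : ∑ i ∈ range j, ψ (k + i) ≤ ∑ i ∈ range j, (1 : ℝ) :=
            sum_le_sum fun i _ => h1 _
          rw [sum_const, card_range, nsmul_eq_mul, mul_one] at e1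
          have e2 : (j : ℝ) ≤ D := by exact_mod_cast (by omega : j ≤ D)
          have e3 : 0 ≤ δ * j := by positivity
          linarith
  have := key K 0 (by omega)
  simpa using this

theorem sum_union_le' {s t : Finset ℕ} {f : ℕ → ℝ} (hf : ∀ i, 0 ≤ f i) :
    ∑ i ∈ s ∪ t, f i ≤ ∑ i ∈ s, f i + ∑ i ∈ t, f i := by
  have := sum_union_inter (s₁ := s) (s₂ := t) (f := f)
  have h2 : 0 ≤ ∑ i ∈ s ∩ t, f i := sum_nonneg fun i _ => hf i
  linarith

/-- the phase for the pair `(y, y + Δ)` -/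
noncomputable def th (q h Δ y : ℕ) : ℝ := h * ((q : ℝ) ^ Δ - 1) / (q : ℝ) ^ (y + Δ)

/-- the sum over the pairs with a fixed difference -/
theorem fixed_diff {p q m h : ℕ} (hpq : Pair p q) (hm : 1 ≤ m) (hh : 1 ≤ h) {δ : ℝ} (hδ : 0 < δ)
    (Cy : ℝ) (hCy : 0 < Cy) :
    ∃ C : ℕ, ∀ I₁ I₂ y₀ Y Δ : ℕ, 1 ≤ Δ → y₀ ≤ Y → ((p : ℝ) ^ m) ^ I₁ ≤ (q : ℝ) ^ y₀ →
      (q : ℝ) ^ Y ≤ Cy * ((p : ℝ) ^ m) ^ I₂ →
      ∑ y ∈ Ioc y₀ (Y - Δ), Phi ((p : ℝ) ^ m) I₁ I₂ (th q h Δ y) ≤ δ * ((Y : ℝ) - y₀) + C := by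
  obtain ⟨c₁, c₂, D, hD, hdich⟩ := dich hpq hm hδ
  have hq2 : 2 ≤ q := by rcases hpq with ⟨rfl, rfl⟩ | ⟨rfl, rfl⟩ <;> norm_num
  have hp2 : 2 ≤ p := by rcases hpq with ⟨rfl, rfl⟩ | ⟨rfl, rfl⟩ <;> norm_num
  have hqR : (2 : ℝ) ≤ q := by exact_mod_cast hq2
  have hpR : (2 : ℝ) ≤ p := by exact_mod_cast hp2
  have hhR : (1 : ℝ) ≤ h := by exact_mod_cast hh
  set P : ℝ := (p : ℝ) ^ m with hP
  have hP0 : 0 < P := by positivity
  obtain ⟨a, ha⟩ := pow_unbounded_of_one_lt (2 * h * P ^ c₁) (by linarith : (1 : ℝ) < q)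
  obtain ⟨b, hb⟩ := pow_unbounded_of_one_lt (2 * Cy * P ^ c₂) (by linarith : (1 : ℝ) < q)
  refine ⟨a + b + D, ?_⟩
  intro I₁ I₂ y₀ Y Δ hΔ hyY hI1 hI2
  set f : ℕ → ℝ := fun y => Phi P I₁ I₂ (th q h Δ y) with hf
  have hf0 : ∀ y, 0 ≤ f y := fun y => Phi_nonneg _ _ _ _
  have hf1 : ∀ y, f y ≤ 1 := fun y => Phi_le_one _ _ _ _
  set T := min (Y - Δ) (Y - b) with hT
  set A := y₀ + a with hA
  have hsub : Ioc y₀ (Y - Δ) ⊆ Ioc y₀ A ∪ (Ioc A T ∪ Ioc T (Y - Δ)) := by
    intro y hy
    rw [mem_Ioc] at hy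
    rw [mem_union, mem_union, mem_Ioc, mem_Ioc, mem_Ioc]
    omega
  have hcard : ∀ u v : ℕ, ∑ y ∈ Ioc u v, f y ≤ ((v - u : ℕ) : ℝ) := by
    intro u v
    calc ∑ y ∈ Ioc u v, f y ≤ ∑ y ∈ Ioc u v, (1 : ℝ) := sum_le_sum fun y _ => hf1 y
      _ = ((v - u : ℕ) : ℝ) := by simp
  have s1 : ∑ y ∈ Ioc y₀ A, f y ≤ a := by
    refine (hcard _ _).trans ?_
    exact_mod_cast (by omega : A - y₀ ≤ a)
  have s3 : ∑ y ∈ Ioc T (Y - Δ), f y ≤ b := by
    refine (hcard _ _).trans ?_
    exact_mod_cast (by omega : Y - Δ - T ≤ b)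
  have s2 : ∑ y ∈ Ioc A T, f y ≤ δ * ((Y : ℝ) - y₀) + D := by
    rcases Nat.lt_or_ge A T with hAT | hAT
    · -- reindex
      have hYT : T ≤ Y - Δ := min_le_left _ _
      have hYb : T ≤ Y - b := min_le_right _ _
      have hre : ∑ y ∈ Ioc A T, f y = ∑ k ∈ range (T - A), f (T - k) := by
        apply sum_nbij' (fun y => T - y) (fun k => T - k)
        · intro y hy; rw [mem_Ioc] at hy; rw [mem_range]; omega
        · intro k hk; rw [mem_range] at hk; rw [mem_Ioc]; omega
        · intro y hy; rw [mem_Ioc] at hy; omega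
        · intro k hk; rw [mem_range] at hk; omega
        · intro y hy
          rw [mem_Ioc] at hy
          congr 1; omega
      have hθk : ∀ k, k ≤ T → th q h Δ (T - k) = (q : ℝ) ^ k * th q h Δ T := by
        intro k hk
        unfold th
        have : (q : ℝ) ^ (T + Δ) = (q : ℝ) ^ k * (q : ℝ) ^ (T - k + Δ) := by
          rw [← pow_add]; congr 1; omega
        rw [this]
        have hq0 : (q : ℝ) ^ k ≠ 0 := by positivity
        have hq1 : (q : ℝ) ^ (T - k + Δ) ≠ 0 := by positivity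
        field_simp
      have hre2 : ∑ k ∈ range (T - A), f (T - k) =
          ∑ k ∈ range (T - A), Phi P I₁ I₂ ((q : ℝ) ^ k * th q h Δ T) := by
        apply sum_congr rfl
        intro k hk
        rw [mem_range] at hk
        simp only [hf]
        rw [hθk k (by omega)]
      rw [hre, hre2]
      have hqΔ : (2 : ℝ) ≤ (q : ℝ) ^ Δ := by
        calc (2 : ℝ) ≤ q := hqR
          _ = (q : ℝ) ^ 1 := (pow_one _).symm
          _ ≤ (q : ℝ) ^ Δ := pow_le_pow_right₀ (by linarith) hΔ
      have g := greedy (ψ := fun k => Phi P I₁ I₂ ((q : ℝ) ^ k * th q h Δ T)) (K := T - A)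
        (fun k => Phi_nonneg _ _ _ _) (fun k => Phi_le_one _ _ _ _) hδ.le hD (by
          intro k hk
          have hyk : th q h Δ (T - k) = (q : ℝ) ^ k * th q h Δ T := hθk k (by omega)
          set y := T - k with hy
          have hqy : (0 : ℝ) < (q : ℝ) ^ y := by positivity
          have hup : th q h Δ y * (q : ℝ) ^ y ≤ h := by
            unfold th
            rw [pow_add]
            have hq0 : (0 : ℝ) < (q : ℝ) ^ Δ := by positivity
            rw [div_mul_eq_mul_div, div_le_iff₀ (by positivity)]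
            nlinarith [mul_pos hqy hq0, mul_pos hqy (by linarith : (0 : ℝ) < h)]
          have hlow : 1 / 2 ≤ th q h Δ y * (q : ℝ) ^ y := by
            unfold th
            rw [pow_add]
            have hq0 : (0 : ℝ) < (q : ℝ) ^ Δ := by positivity
            rw [div_mul_eq_mul_div, le_div_iff₀ (by positivity)]
            have e1 : (1 / 2 : ℝ) * (q : ℝ) ^ Δ ≤ h * ((q : ℝ) ^ Δ - 1) := by nlinarith
            nlinarith [mul_le_mul_of_nonneg_right e1 hqy.le]
          have hpos : 0 < th q h Δ y := by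
            by_contra hneg
            push Not at hneg
            nlinarith
          have res := hdich I₁ I₂ (th q h Δ y) hpos (by
            -- upper bound for the phase
            have e1 : (q : ℝ) ^ y₀ * (q : ℝ) ^ a ≤ (q : ℝ) ^ y := by
              rw [← pow_add]; exact pow_le_pow_right₀ (by linarith) (by omega)
            have e2 : 2 * h * P ^ (I₁ + c₁) ≤ (q : ℝ) ^ y := by
              calc 2 * h * P ^ (I₁ + c₁) = P ^ I₁ * (2 * h * P ^ c₁) := by rw [pow_add]; ring
                _ ≤ (q : ℝ) ^ y₀ * (q : ℝ) ^ a := by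
                    apply mul_le_mul hI1 ha.le (by positivity) (by positivity)
                _ ≤ _ := e1
            have e3 : 2 * th q h Δ y * P ^ (I₁ + c₁) * (q : ℝ) ^ y ≤ 1 * (q : ℝ) ^ y := by
              calc 2 * th q h Δ y * P ^ (I₁ + c₁) * (q : ℝ) ^ y
                  = (th q h Δ y * (q : ℝ) ^ y) * (2 * P ^ (I₁ + c₁)) := by ring
                _ ≤ h * (2 * P ^ (I₁ + c₁)) := mul_le_mul_of_nonneg_right hup (by positivity)
                _ = 2 * h * P ^ (I₁ + c₁) := by ring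
                _ ≤ 1 * (q : ℝ) ^ y := by rw [one_mul]; exact e2
            exact le_of_mul_le_mul_right e3 hqy) (by
            -- lower bound for the phase
            have hby : b + y ≤ Y := by
              have : 0 < T := by omega
              omega
            have e1 : (q : ℝ) ^ b * (q : ℝ) ^ y ≤ (q : ℝ) ^ Y := by
              rw [← pow_add]; exact pow_le_pow_right₀ (by linarith) hby
            have e2 : 2 * Cy * P ^ c₂ * (q : ℝ) ^ y ≤ Cy * P ^ I₂ := by
              calc 2 * Cy * P ^ c₂ * (q : ℝ) ^ y ≤ (q : ℝ) ^ b * (q : ℝ) ^ y :=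
                    mul_le_mul_of_nonneg_right hb.le hqy.le
                _ ≤ (q : ℝ) ^ Y := e1
                _ ≤ Cy * P ^ I₂ := hI2
            have e3 : 2 * P ^ c₂ * (q : ℝ) ^ y ≤ P ^ I₂ := by
              have : Cy * (2 * P ^ c₂ * (q : ℝ) ^ y) ≤ Cy * P ^ I₂ := by linarith
              exact le_of_mul_le_mul_left this hCy
            have e4 : P ^ c₂ * (q : ℝ) ^ y ≤ P ^ I₂ * th q h Δ y * (q : ℝ) ^ y := by
              have : P ^ I₂ * (1 / 2) ≤ P ^ I₂ * (th q h Δ y * (q : ℝ) ^ y) :=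
                mul_le_mul_of_nonneg_left hlow (by positivity)
              linarith
            exact le_of_mul_le_mul_right e4 hqy)
          rw [hyk] at res
          rcases res with r | r
          · exact Or.inl r
          · right
            refine le_trans (le_of_eq ?_) r
            apply sum_congr rfl
            intro d _
            congr 1
            rw [pow_add]; ring)
      refine g.trans ?_
      apply add_le_add _ le_rfl
      apply mul_le_mul_of_nonneg_left _ hδ.le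
      have : T - A ≤ Y - y₀ := by omega
      have h2 : ((T - A : ℕ) : ℝ) ≤ ((Y - y₀ : ℕ) : ℝ) := by exact_mod_cast this
      rwa [Nat.cast_sub hyY] at h2
    · rw [Ioc_eq_empty (by omega), sum_empty]
      have : (0 : ℝ) ≤ (Y : ℝ) - y₀ := by
        have : (y₀ : ℝ) ≤ Y := by exact_mod_cast hyY
        linarith
      positivity
  calc ∑ y ∈ Ioc y₀ (Y - Δ), f y
      ≤ ∑ y ∈ Ioc y₀ A ∪ (Ioc A T ∪ Ioc T (Y - Δ)), f y :=
        sum_le_sum_of_subset_of_nonneg hsub fun y _ _ => hf0 y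
    _ ≤ ∑ y ∈ Ioc y₀ A, f y + (∑ y ∈ Ioc A T, f y + ∑ y ∈ Ioc T (Y - Δ), f y) := by
        refine (sum_union_le' hf0).trans ?_
        exact add_le_add le_rfl (sum_union_le' hf0)
    _ ≤ _ := by push_cast; linarith

end Pool.Agent.H58.Cat
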