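import Mathlib
import Pool.Agent.H58.Cat.Greedy

namespace Pool.Agent.H58.Cat

open Finset Real

theorem pair_sum {g : ℕ → ℕ → ℝ} (hs : ∀ y y', g y y' = g y' y) (y₀ Y : ℕ) :
    ∑ y ∈ Ioc y₀ Y, ∑ y' ∈ Ioc y₀ Y, g y y' =
      ∑ y ∈ Ioc y₀ Y, g y y + 2 * ∑ Δ ∈ Ioc 0 (Y - y₀), ∑ y ∈ Ioc y₀ (Y - Δ), g y (y + Δ) := by
  have h1 : ∀ y ∈ Ioc y₀ Y, ∑ y' ∈ Ioc y₀ Y, g y y' =
      ∑ y' ∈ Ioo y₀ y, g y y' + (g y y + ∑ y' ∈ Ioc y Y, g y y') := by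
    intro y hy
    rw [mem_Ioc] at hy
    have e : Ioc y₀ Y = Ioo y₀ y ∪ ({y} ∪ Ioc y Y) := by
      ext z
      simp only [mem_union, mem_Ioc, mem_Ioo, mem_singleton]
      omega
    rw [e, sum_union, sum_union, sum_singleton]
    · rw [disjoint_left]
      intro z hz hz'
      simp only [mem_Ioc, mem_singleton] at hz hz'
      omega
    · rw [disjoint_left]
      intro z hz hz'
      simp only [mem_union, mem_Ioc, mem_Ioo, mem_singleton] at hz hz'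
      omega
  rw [sum_congr rfl h1, sum_add_distrib, sum_add_distrib]
  have h2 : ∑ y ∈ Ioc y₀ Y, ∑ y' ∈ Ioo y₀ y, g y y' = ∑ y ∈ Ioc y₀ Y, ∑ y' ∈ Ioc y Y, g y y' := by
    rw [sum_comm' (t' := Ioc y₀ Y) (s' := fun y' => Ioc y' Y)]
    · apply sum_congr rfl
      intro y _
      apply sum_congr rfl
      intro y' _
      exact hs _ _
    · intro x y
      simp only [mem_Ioc, mem_Ioo]
      omega
  have h3 : ∑ y ∈ Ioc y₀ Y, ∑ y' ∈ Ioc y Y, g y y' =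
      ∑ Δ ∈ Ioc 0 (Y - y₀), ∑ y ∈ Ioc y₀ (Y - Δ), g y (y + Δ) := by
    have h4 : ∀ y ∈ Ioc y₀ Y, ∑ y' ∈ Ioc y Y, g y y' = ∑ Δ ∈ Ioc 0 (Y - y), g y (y + Δ) := by
      intro y _
      apply sum_nbij' (fun y' => y' - y) (fun Δ => y + Δ)
      · intro a ha; rw [mem_Ioc] at ha ⊢; omega
      · intro a ha; rw [mem_Ioc] at ha ⊢; omega
      · intro a ha; rw [mem_Ioc] at ha; omega
      · intro a ha; rw [mem_Ioc] at ha; omega
      · intro a ha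
        rw [mem_Ioc] at ha
        congr 1; omega
    rw [sum_congr rfl h4]
    apply sum_comm'
    intro x y
    simp only [mem_Ioc]
    omega
  rw [h2, h3]
  ring

/-- the additive character -/
noncomputable def ee (x : ℝ) : ℂ := Complex.exp (2 * π * x * Complex.I)

theorem ee_zero : ee 0 = 1 := by simp [ee]

theorem ee_add (x y : ℝ) : ee (x + y) = ee x * ee y := by
  unfold ee
  rw [← Complex.exp_add]
  congr 1
  push_cast; ring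

theorem norm_ee (x : ℝ) : ‖ee x‖ = 1 := by
  unfold ee
  have : 2 * (π : ℂ) * x * Complex.I = ((2 * π * x : ℝ) : ℂ) * Complex.I := by push_cast; ring
  rw [this, Complex.norm_exp_ofReal_mul_I]

theorem ee_sum {ι : Type*} (s : Finset ι) (f : ι → ℝ) : ee (∑ i ∈ s, f i) = ∏ i ∈ s, ee (f i) := by
  classical
  induction s using Finset.induction_on with
  | empty => simp [ee_zero]
  | insert a s ha ih => rw [sum_insert ha, prod_insert ha, ee_add, ih]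

theorem conj_ee (x : ℝ) : (starRingEnd ℂ) (ee x) = ee (-x) := by
  unfold ee
  rw [← Complex.exp_conj]
  congr 1
  simp only [map_mul, Complex.conj_ofReal, Complex.conj_I, map_ofNat]
  push_cast
  ring

theorem norm_one_add_ee (x : ℝ) : ‖1 + ee x‖ = 2 * |cos (π * x)| := by
  have h1 : 1 + ee x = ee (x / 2) * (2 * cos (π * x) : ℝ) := by
    have h2 : ee x = ee (x / 2) * ee (x / 2) := by rw [← ee_add]; congr 1; ring
    have h3 : (1 : ℂ) = ee (x / 2) * ee (-(x / 2)) := by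
      rw [← ee_add]; simp [ee_zero]
    have h4 : ee (-(x / 2)) + ee (x / 2) = (2 * cos (π * x) : ℝ) := by
      unfold ee
      push_cast
      rw [Complex.two_cos]
      rw [add_comm]
      congr 1 <;> congr 1 <;> ring
    rw [← h4, mul_add, ← h3, ← h2]
  rw [h1, norm_mul, norm_ee, one_mul, Complex.norm_real, norm_eq_abs, abs_mul]
  simp

/-- the sparse numbers -/
def XX (c P I₁ I₂ : ℕ) (S : Finset ℕ) : ℕ := c * ∑ i ∈ Ico I₁ I₂, P ^ i + ∑ i ∈ S, P ^ i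

theorem char_fun (c P I₁ I₂ : ℕ) (β : ℝ) :
    ‖∑ S ∈ (Ico I₁ I₂).powerset, ee ((XX c P I₁ I₂ S : ℝ) * β)‖ =
      2 ^ (I₂ - I₁) * Phi P I₁ I₂ β := by
  have h1 : ∀ S ∈ (Ico I₁ I₂).powerset, ee ((XX c P I₁ I₂ S : ℝ) * β) =
      ee ((c * ∑ i ∈ Ico I₁ I₂, (P : ℝ) ^ i) * β) * ∏ i ∈ S, ee ((P : ℝ) ^ i * β) := by
    intro S _
    rw [← ee_sum, ← ee_add, ← sum_mul, ← add_mul]
    unfold XX
    push_cast
    rfl
  rw [sum_congr rfl h1, ← mul_sum, ← prod_one_add, norm_mul, norm_ee, one_mul, norm_prod]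
  simp_rw [norm_one_add_ee]
  rw [prod_mul_distrib, prod_const, Nat.card_Ico]
  rfl

/-- the Weyl sum -/
noncomputable def UU (h q y₀ Y X : ℕ) : ℂ := ∑ y ∈ Ioc y₀ Y, ee ((X : ℝ) * (h / (q : ℝ) ^ y))

theorem norm_sq_UU (h q y₀ Y X : ℕ) : ‖UU h q y₀ Y X‖ ^ 2 =
    (∑ y ∈ Ioc y₀ Y, ∑ y' ∈ Ioc y₀ Y, ee ((X : ℝ) * (h / (q : ℝ) ^ y - h / (q : ℝ) ^ y'))).re := by
  have h1 : ((‖UU h q y₀ Y X‖ ^ 2 : ℝ) : ℂ) =
      ∑ y ∈ Ioc y₀ Y, ∑ y' ∈ Ioc y₀ Y, ee ((X : ℝ) * (h / (q : ℝ) ^ y - h / (q : ℝ) ^ y')) := by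
    push_cast
    rw [← Complex.mul_conj']
    unfold UU
    rw [map_sum, sum_mul_sum]
    apply sum_congr rfl
    intro y _
    apply sum_congr rfl
    intro y' _
    rw [conj_ee, ← ee_add]
    congr 1; ring
  rw [← h1, Complex.ofReal_re]

/-- the second moment in terms of the characteristic function -/
theorem second_moment (c P I₁ I₂ h q y₀ Y : ℕ) :
    ∑ S ∈ (Ico I₁ I₂).powerset, ‖UU h q y₀ Y (XX c P I₁ I₂ S)‖ ^ 2 ≤
      2 ^ (I₂ - I₁) * ∑ y ∈ Ioc y₀ Y, ∑ y' ∈ Ioc y₀ Y,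
        Phi P I₁ I₂ (h / (q : ℝ) ^ y - h / (q : ℝ) ^ y') := by
  simp_rw [norm_sq_UU]
  rw [← Complex.re_sum]
  refine (Complex.re_le_norm _).trans ?_
  rw [sum_comm]
  refine (norm_sum_le _ _).trans ?_
  rw [mul_sum]
  apply sum_le_sum
  intro y _
  rw [sum_comm]
  refine (norm_sum_le _ _).trans ?_
  rw [mul_sum]
  apply sum_le_sum
  intro y' _
  exact (char_fun _ _ _ _ _).le

theorem Phi_neg (P : ℝ) (I₁ I₂ : ℕ) (θ : ℝ) : Phi P I₁ I₂ (-θ) = Phi P I₁ I₂ θ := by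
  unfold Phi
  apply prod_congr rfl
  intro i _
  rw [← cos_neg]
  congr 2; ring

/-- **Equidistribution on average of sparse numbers.** -/
theorem weyl {p q m h : ℕ} (hpq : Pair p q) (hm : 1 ≤ m) (hh : 1 ≤ h) {δ : ℝ} (hδ : 0 < δ)
    (Cy : ℝ) (hCy : 0 < Cy) :
    ∃ C : ℕ, ∀ c I₁ I₂ y₀ Y : ℕ, y₀ ≤ Y → (p ^ m) ^ I₁ ≤ q ^ y₀ →
      (q : ℝ) ^ Y ≤ Cy * ((p ^ m : ℕ) : ℝ) ^ I₂ →
      ∑ S ∈ (Ico I₁ I₂).powerset, ‖UU h q y₀ Y (XX c (p ^ m) I₁ I₂ S)‖ ^ 2 ≤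
        2 ^ (I₂ - I₁) * (δ * ((Y : ℝ) - y₀) ^ 2 + C * ((Y : ℝ) - y₀)) := by
  obtain ⟨C, hC⟩ := fixed_diff hpq hm hh (show 0 < δ / 2 by positivity) Cy hCy
  refine ⟨1 + 2 * C, ?_⟩
  intro c I₁ I₂ y₀ Y hyY hI1 hI2
  have hq2 : 2 ≤ q := by rcases hpq with ⟨rfl, rfl⟩ | ⟨rfl, rfl⟩ <;> norm_num
  have hqR : (2 : ℝ) ≤ q := by exact_mod_cast hq2
  refine (second_moment _ _ _ _ _ _ _ _).trans ?_
  apply mul_le_mul_of_nonneg_left _ (by positivity)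
  rw [pair_sum (g := fun y y' => Phi ((p ^ m : ℕ) : ℝ) I₁ I₂ (h / (q : ℝ) ^ y - h / (q : ℝ) ^ y'))
    (by intro y y'; rw [← Phi_neg]; congr 1; ring)]
  have hW : (((Y - y₀ : ℕ) : ℝ)) = (Y : ℝ) - y₀ := by rw [Nat.cast_sub hyY]
  have hW0 : 0 ≤ (Y : ℝ) - y₀ := by rw [← hW]; positivity
  have s1 : ∑ y ∈ Ioc y₀ Y, Phi ((p ^ m : ℕ) : ℝ) I₁ I₂ (h / (q : ℝ) ^ y - h / (q : ℝ) ^ y) ≤
      (Y : ℝ) - y₀ := by
    refine (sum_le_sum fun y _ => Phi_le_one _ _ _ _).trans ?_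
    rw [sum_const, Nat.card_Ioc, nsmul_eq_mul, mul_one, hW]
  have s2 : ∀ Δ ∈ Ioc 0 (Y - y₀), ∑ y ∈ Ioc y₀ (Y - Δ),
      Phi ((p ^ m : ℕ) : ℝ) I₁ I₂ (h / (q : ℝ) ^ y - h / (q : ℝ) ^ (y + Δ)) ≤
        δ / 2 * ((Y : ℝ) - y₀) + C := by
    intro Δ hΔ
    rw [mem_Ioc] at hΔ
    have := hC I₁ I₂ y₀ Y Δ (by omega) hyY (by exact_mod_cast hI1) (by exact_mod_cast hI2)
    refine le_trans (le_of_eq ?_) this
    apply sum_congr rfl
    intro y _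
    rw [show ((p ^ m : ℕ) : ℝ) = (p : ℝ) ^ m by push_cast; rfl]
    congr 1
    unfold th
    rw [pow_add]
    have hq0 : (q : ℝ) ^ y ≠ 0 := by positivity
    have hq1 : (q : ℝ) ^ Δ ≠ 0 := by positivity
    field_simp
  have s3 := sum_le_sum s2
  rw [sum_const, Nat.card_Ioc, nsmul_eq_mul, Nat.sub_zero, hW] at s3
  rw [show ((1 + 2 * C : ℕ) : ℝ) = 1 + 2 * C by push_cast; ring]
  have e : δ * ((Y : ℝ) - y₀) ^ 2 + (1 + 2 * C) * ((Y : ℝ) - y₀) =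
      ((Y : ℝ) - y₀) + 2 * (((Y : ℝ) - y₀) * (δ / 2 * ((Y : ℝ) - y₀) + C)) := by ring
  rw [e]
  linarith

end Pool.Agent.H58.Cat
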