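import Mathlib
import Pool.Agent.H58.Cat.Weyl

namespace Pool.Agent.H58.Cat

open Finset Real MeasureTheory AddCircle

/-- the circle of length one -/
abbrev Ci := AddCircle (1 : ℝ)

/-- the property used for the approximation argument -/
def Good (f : C(Ci, ℂ)) : Prop := ∃ H : ℕ, ∃ C : ℝ, 0 ≤ C ∧ ∀ (s : Finset ℕ) (x : ℕ → ℝ),
  ‖∑ i ∈ s, f (x i) - s.card * ∫ t, f t ∂haarAddCircle‖ ≤
    C * ∑ h ∈ Ioc 0 H, ‖∑ i ∈ s, ee (h * x i)‖

theorem integrable_cont (f : C(Ci, ℂ)) : Integrable (fun t => f t) (haarAddCircle (T := (1 : ℝ))) :=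
  f.continuous.integrable_of_hasCompactSupport (HasCompactSupport.of_compactSpace _)

theorem fourier_coe_ee (n : ℤ) (x : ℝ) : (fourier n : C(Ci, ℂ)) (x : Ci) = ee (n * x) := by
  rw [fourier_coe_apply]
  unfold ee
  congr 1
  push_cast
  ring

theorem integral_fourier (n : ℤ) : ∫ t, (fourier n : C(Ci, ℂ)) t ∂haarAddCircle =
    if n = 0 then 1 else 0 := by
  have h := congrFun (fourierCoeff_fourier (T := (1 : ℝ)) n) 0
  have h2 : fourierCoeff (T := (1 : ℝ)) (fourier n) 0 =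
      ∫ t, (fourier n : C(Ci, ℂ)) t ∂haarAddCircle := by
    unfold fourierCoeff
    apply integral_congr_ae
    apply Filter.Eventually.of_forall
    intro t
    simp only [neg_zero, smul_eq_mul]
    rw [fourier_zero, one_mul]
  rw [← h2, h]
  by_cases hn : n = 0
  · subst hn; simp
  · rw [if_neg hn, Pi.single_eq_of_ne (Ne.symm hn)]

theorem good_fourier (n : ℤ) : Good (fourier n) := by
  rcases eq_or_ne n 0 with rfl | hn
  · refine ⟨0, 0, le_rfl, ?_⟩
    intro s x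
    rw [integral_fourier]
    simp only [if_true, fourier_zero]
    simp
  · refine ⟨n.natAbs, 1, zero_le_one, ?_⟩
    intro s x
    rw [integral_fourier, if_neg hn, mul_zero, sub_zero, one_mul]
    have h1 : ‖∑ i ∈ s, (fourier n : C(Ci, ℂ)) (x i)‖ = ‖∑ i ∈ s, ee ((n.natAbs : ℝ) * x i)‖ := by
      rcases le_total 0 n with h0 | h0
      · have e : ((n.natAbs : ℕ) : ℝ) = (n : ℝ) := by
          rw [Nat.cast_natAbs, abs_of_nonneg h0]
        simp_rw [fourier_coe_ee, e]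
      · have e : ((n.natAbs : ℕ) : ℝ) = -(n : ℝ) := by
          rw [Nat.cast_natAbs, abs_of_nonpos h0, Int.cast_neg]
        simp_rw [fourier_coe_ee, e]
        have h2 : ∑ i ∈ s, ee (-(n : ℝ) * x i) = (starRingEnd ℂ) (∑ i ∈ s, ee (n * x i)) := by
          rw [map_sum]
          apply sum_congr rfl
          intro i _
          rw [conj_ee]; congr 1; ring
        rw [h2, RCLike.norm_conj]
    rw [h1]
    exact single_le_sum (f := fun h : ℕ => ‖∑ i ∈ s, ee ((h : ℝ) * x i)‖)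
      (fun h _ => norm_nonneg _) (by rw [mem_Ioc]; omega)

theorem good_span {f : C(Ci, ℂ)} (hf : f ∈ Submodule.span ℂ (Set.range (@fourier (1 : ℝ)))) :
    Good f := by
  induction hf using Submodule.span_induction with
  | mem f hf =>
    obtain ⟨n, rfl⟩ := hf
    exact good_fourier n
  | zero =>
    refine ⟨0, 0, le_rfl, ?_⟩
    intro s x
    simp
  | add f g _ _ hf hg =>
    obtain ⟨H₁, C₁, hC₁, h₁⟩ := hf
    obtain ⟨H₂, C₂, hC₂, h₂⟩ := hg
    refine ⟨max H₁ H₂, C₁ + C₂, by positivity, ?_⟩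
    intro s x
    have e : ∑ i ∈ s, (f + g) (x i) - s.card * ∫ t, (f + g) t ∂haarAddCircle =
        (∑ i ∈ s, f (x i) - s.card * ∫ t, f t ∂haarAddCircle) +
          (∑ i ∈ s, g (x i) - s.card * ∫ t, g t ∂haarAddCircle) := by
      simp only [ContinuousMap.add_apply]
      rw [integral_add (integrable_cont f) (integrable_cont g), sum_add_distrib]
      ring
    rw [e]
    have m1 : ∑ h ∈ Ioc 0 H₁, ‖∑ i ∈ s, ee (h * x i)‖ ≤
        ∑ h ∈ Ioc 0 (max H₁ H₂), ‖∑ i ∈ s, ee (h * x i)‖ :=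
      sum_le_sum_of_subset_of_nonneg (Ioc_subset_Ioc_right (le_max_left _ _))
        fun _ _ _ => norm_nonneg _
    have m2 : ∑ h ∈ Ioc 0 H₂, ‖∑ i ∈ s, ee (h * x i)‖ ≤
        ∑ h ∈ Ioc 0 (max H₁ H₂), ‖∑ i ∈ s, ee (h * x i)‖ :=
      sum_le_sum_of_subset_of_nonneg (Ioc_subset_Ioc_right (le_max_right _ _))
        fun _ _ _ => norm_nonneg _
    refine (norm_add_le _ _).trans ?_
    have a1 := (h₁ s x).trans (mul_le_mul_of_nonneg_left m1 hC₁)
    have a2 := (h₂ s x).trans (mul_le_mul_of_nonneg_left m2 hC₂)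
    linarith
  | smul a f _ hf =>
    obtain ⟨H, C, hC, h⟩ := hf
    refine ⟨H, ‖a‖ * C, by positivity, ?_⟩
    intro s x
    have e : ∑ i ∈ s, (a • f) (x i) - s.card * ∫ t, (a • f) t ∂haarAddCircle =
        a * (∑ i ∈ s, f (x i) - s.card * ∫ t, f t ∂haarAddCircle) := by
      simp only [ContinuousMap.smul_apply, smul_eq_mul]
      rw [integral_const_mul, ← mul_sum]
      ring
    rw [e, norm_mul, mul_assoc]
    exact mul_le_mul_of_nonneg_left (h s x) (norm_nonneg _)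

theorem good_cont (f : C(Ci, ℂ)) {δ : ℝ} (hδ : 0 < δ) : ∃ H : ℕ, ∃ C : ℝ, 0 ≤ C ∧
    ∀ (s : Finset ℕ) (x : ℕ → ℝ),
      ‖∑ i ∈ s, f (x i) - s.card * ∫ t, f t ∂haarAddCircle‖ ≤
        δ * s.card + C * ∑ h ∈ Ioc 0 H, ‖∑ i ∈ s, ee (h * x i)‖ := by
  have hmem : f ∈ closure ((Submodule.span ℂ (Set.range (@fourier (1 : ℝ)))) : Set C(Ci, ℂ)) := by
    rw [← Submodule.topologicalClosure_coe, span_fourier_closure_eq_top]
    simp
  rw [Metric.mem_closure_iff] at hmem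
  obtain ⟨g, hg, hfg⟩ := hmem (δ / 2) (by positivity)
  obtain ⟨H, C, hC, h⟩ := good_span hg
  refine ⟨H, C, hC, ?_⟩
  intro s x
  rw [dist_eq_norm] at hfg
  have hpt : ∀ t : Ci, ‖f t - g t‖ ≤ δ / 2 := by
    intro t
    have := ContinuousMap.norm_coe_le_norm (f - g) t
    rw [ContinuousMap.sub_apply] at this
    linarith
  have e : ∑ i ∈ s, f (x i) - s.card * ∫ t, f t ∂haarAddCircle =
      ∑ i ∈ s, (f (x i) - g (x i)) + (∑ i ∈ s, g (x i) - s.card * ∫ t, g t ∂haarAddCircle) -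
        s.card * ∫ t, (f t - g t) ∂haarAddCircle := by
    rw [integral_sub (integrable_cont f) (integrable_cont g), sum_sub_distrib]
    ring
  have b1 : ‖∑ i ∈ s, (f (x i) - g (x i))‖ ≤ δ / 2 * s.card := by
    refine (norm_sum_le _ _).trans ?_
    refine (sum_le_sum fun i _ => hpt _).trans ?_
    rw [sum_const, nsmul_eq_mul, mul_comm]
  have b2 : ‖∫ t, (f t - g t) ∂(haarAddCircle (T := (1 : ℝ)))‖ ≤ δ / 2 := by
    have := norm_integral_le_of_norm_le_const (μ := (haarAddCircle (T := (1 : ℝ))))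
      (f := fun t => f t - g t) (C := δ / 2) (Filter.Eventually.of_forall hpt)
    simpa using this
  rw [e]
  refine (norm_sub_le _ _).trans ?_
  have b3 : ‖(s.card : ℂ) * ∫ t, (f t - g t) ∂(haarAddCircle (T := (1 : ℝ)))‖ ≤ s.card * (δ / 2) := by
    rw [norm_mul]
    simp only [Complex.norm_natCast]
    exact mul_le_mul_of_nonneg_left b2 (by positivity)
  have b4 := (norm_add_le (∑ i ∈ s, (f (x i) - g (x i)))
    (∑ i ∈ s, g (x i) - s.card * ∫ t, g t ∂(haarAddCircle (T := (1 : ℝ)))))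
  have b5 := h s x
  linarith

/-- a continuous function which is one on the arc of radius `1/4` around `c` and lives on a slightly
larger arc -/
noncomputable def bump (c : Ci) (η : ℝ) : C(Ci, ℝ) where
  toFun t := max 0 (min 1 (1 + (1 / 4 - dist t c) / η))
  continuous_toFun := by fun_prop

theorem bump_nonneg (c : Ci) (η : ℝ) (t : Ci) : 0 ≤ bump c η t := le_max_left _ _

theorem bump_le_one (c : Ci) (η : ℝ) (t : Ci) : bump c η t ≤ 1 :=
  max_le zero_le_one (min_le_left _ _)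

theorem bump_eq_one {c : Ci} {η : ℝ} (hη : 0 < η) {t : Ci} (h : dist t c ≤ 1 / 4) :
    bump c η t = 1 := by
  have h1 : 0 ≤ (1 / 4 - dist t c) / η := div_nonneg (by linarith) hη.le
  show max 0 (min 1 (1 + (1 / 4 - dist t c) / η)) = 1
  rw [min_eq_left (by linarith), max_eq_right (by norm_num)]

theorem integral_bump {c : Ci} {η : ℝ} (hη : 0 < η) :
    ∫ t, bump c η t ∂(haarAddCircle (T := (1 : ℝ))) ≤ 1 / 2 + 2 * η := by
  have hvol : (volume : Measure Ci) = haarAddCircle := by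
    rw [volume_eq_smul_haarAddCircle]; simp
  rw [← hvol]
  have h1 : ∫ t, bump c η t ≤ ∫ t, (Metric.closedBall c (1 / 4 + η)).indicator (fun _ => (1 : ℝ)) t := by
    apply integral_mono
    · exact (bump c η).continuous.integrable_of_hasCompactSupport (HasCompactSupport.of_compactSpace _)
    · exact (integrable_const (1 : ℝ)).indicator Metric.isClosed_closedBall.measurableSet
    · intro t
      by_cases ht : t ∈ Metric.closedBall c (1 / 4 + η)
      · simp only [Set.indicator_of_mem ht]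
        exact bump_le_one c η t
      · simp only [Set.indicator_of_notMem ht]
        rw [Metric.mem_closedBall, not_le] at ht
        have h2 : (1 / 4 - dist t c) / η ≤ -1 := by
          rw [div_le_iff₀ hη]; linarith
        show max 0 (min 1 (1 + (1 / 4 - dist t c) / η)) ≤ 0
        rw [max_le_iff]
        exact ⟨le_rfl, (min_le_right _ _).trans (by linarith)⟩
  refine h1.trans ?_
  rw [integral_indicator Metric.isClosed_closedBall.measurableSet, setIntegral_const,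
    Measure.real, AddCircle.volume_closedBall, smul_eq_mul, mul_one]
  have h2 : (0 : ℝ) ≤ min 1 (2 * (1 / 4 + η)) := by positivity
  rw [ENNReal.toReal_ofReal h2]
  refine (min_le_right _ _).trans (le_of_eq (by ring))

/-- the indicator of the upper half -/
noncomputable def gg (x : ℝ) : ℝ := if 1 / 2 ≤ Int.fract x then 1 else 0

theorem gg_le (x η : ℝ) (hη : 0 < η) : gg x ≤ bump ((3 / 4 : ℝ) : Ci) η (x : Ci) := by
  unfold gg
  split_ifs with h
  · rw [bump_eq_one hη]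
    rw [dist_eq_norm, ← AddCircle.coe_sub, UnitAddCircle.norm_eq]
    refine (round_le (x - 3 / 4) ⌊x⌋).trans ?_
    have h1 : x - ⌊x⌋ = Int.fract x := rfl
    have h2 := Int.fract_lt_one x
    rw [abs_le]
    constructor <;> linarith
  · exact bump_nonneg _ _ _

theorem le_gg (x η : ℝ) (hη : 0 < η) : 1 - bump ((1 / 4 : ℝ) : Ci) η (x : Ci) ≤ gg x := by
  unfold gg
  split_ifs with h
  · have := bump_nonneg ((1 / 4 : ℝ) : Ci) η (x : Ci)
    linarith
  · rw [bump_eq_one hη]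
    · norm_num
    · rw [dist_eq_norm, ← AddCircle.coe_sub, UnitAddCircle.norm_eq]
      refine (round_le (x - 1 / 4) ⌊x⌋).trans ?_
      have h1 : x - ⌊x⌋ = Int.fract x := rfl
      have h2 := Int.fract_nonneg x
      rw [abs_le]
      constructor <;> linarith

/-- the complexification of the bump function -/
noncomputable def bumpC (c : Ci) (η : ℝ) : C(Ci, ℂ) where
  toFun t := (bump c η t : ℂ)
  continuous_toFun := Complex.continuous_ofReal.comp (bump c η).continuous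

theorem bump_upper (c : Ci) {δ : ℝ} (hδ : 0 < δ) : ∃ H : ℕ, ∃ C : ℝ, 0 ≤ C ∧
    ∀ (s : Finset ℕ) (x : ℕ → ℝ),
      ∑ i ∈ s, bump c (δ / 4) (x i) ≤
        (1 / 2 + δ) * s.card + C * ∑ h ∈ Ioc 0 H, ‖∑ i ∈ s, ee (h * x i)‖ := by
  obtain ⟨H, C, hC, h⟩ := good_cont (bumpC c (δ / 4)) (show 0 < δ / 2 by positivity)
  refine ⟨H, C, hC, ?_⟩
  intro s x
  have h1 := h s x
  have h2 : ∑ i ∈ s, bumpC c (δ / 4) (x i) = ((∑ i ∈ s, bump c (δ / 4) (x i) : ℝ) : ℂ) := by
    push_cast; rfl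
  have h3 : ∫ t, bumpC c (δ / 4) t ∂(haarAddCircle (T := (1 : ℝ))) =
      ((∫ t, bump c (δ / 4) t ∂(haarAddCircle (T := (1 : ℝ))) : ℝ) : ℂ) := integral_ofReal
  rw [h2, h3] at h1
  have h4 := integral_bump (c := c) (η := δ / 4) (by positivity)
  set I := ∫ t, bump c (δ / 4) t ∂(haarAddCircle (T := (1 : ℝ)))
  have h5 : ((∑ i ∈ s, bump c (δ / 4) (x i) : ℝ) : ℂ) - s.card * (I : ℂ) =
      ((∑ i ∈ s, bump c (δ / 4) (x i) - s.card * I : ℝ) : ℂ) := by push_cast; ring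
  rw [h5, Complex.norm_real, norm_eq_abs] at h1
  have h6 := (abs_le.1 h1).2
  have h7 : (s.card : ℝ) * I ≤ s.card * (1 / 2 + 2 * (δ / 4)) :=
    mul_le_mul_of_nonneg_left h4 (by positivity)
  linarith

/-- **The Weyl criterion in quantitative form** for the number of points in the upper half. -/
theorem weyl_criterion {δ : ℝ} (hδ : 0 < δ) : ∃ H : ℕ, ∃ C : ℝ, 0 ≤ C ∧
    ∀ (s : Finset ℕ) (x : ℕ → ℝ),
      |∑ i ∈ s, gg (x i) - s.card / 2| ≤
        δ * s.card + C * ∑ h ∈ Ioc 0 H, ‖∑ i ∈ s, ee (h * x i)‖ := by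
  obtain ⟨H₁, C₁, hC₁, h₁⟩ := bump_upper ((3 / 4 : ℝ) : Ci) hδ
  obtain ⟨H₂, C₂, hC₂, h₂⟩ := bump_upper ((1 / 4 : ℝ) : Ci) hδ
  refine ⟨max H₁ H₂, max C₁ C₂, le_max_of_le_left hC₁, ?_⟩
  intro s x
  have m1 : ∑ h ∈ Ioc 0 H₁, ‖∑ i ∈ s, ee (h * x i)‖ ≤
      ∑ h ∈ Ioc 0 (max H₁ H₂), ‖∑ i ∈ s, ee (h * x i)‖ :=
    sum_le_sum_of_subset_of_nonneg (Ioc_subset_Ioc_right (le_max_left _ _))
      fun _ _ _ => norm_nonneg _
  have m2 : ∑ h ∈ Ioc 0 H₂, ‖∑ i ∈ s, ee (h * x i)‖ ≤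
      ∑ h ∈ Ioc 0 (max H₁ H₂), ‖∑ i ∈ s, ee (h * x i)‖ :=
    sum_le_sum_of_subset_of_nonneg (Ioc_subset_Ioc_right (le_max_right _ _))
      fun _ _ _ => norm_nonneg _
  set W := ∑ h ∈ Ioc 0 (max H₁ H₂), ‖∑ i ∈ s, ee (h * x i)‖ with hW
  have hW0 : 0 ≤ W := sum_nonneg fun _ _ => norm_nonneg _
  have u1 : C₁ * ∑ h ∈ Ioc 0 H₁, ‖∑ i ∈ s, ee (h * x i)‖ ≤ max C₁ C₂ * W :=
    mul_le_mul (le_max_left _ _) m1 (sum_nonneg fun _ _ => norm_nonneg _) (le_max_of_le_left hC₁)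
  have u2 : C₂ * ∑ h ∈ Ioc 0 H₂, ‖∑ i ∈ s, ee (h * x i)‖ ≤ max C₁ C₂ * W :=
    mul_le_mul (le_max_right _ _) m2 (sum_nonneg fun _ _ => norm_nonneg _) (le_max_of_le_left hC₁)
  have g1 : ∑ i ∈ s, gg (x i) ≤ ∑ i ∈ s, bump ((3 / 4 : ℝ) : Ci) (δ / 4) (x i) :=
    sum_le_sum fun i _ => gg_le _ _ (by positivity)
  have g2 : ∑ i ∈ s, (1 - bump ((1 / 4 : ℝ) : Ci) (δ / 4) (x i)) ≤ ∑ i ∈ s, gg (x i) :=
    sum_le_sum fun i _ => le_gg _ _ (by positivity)
  rw [sum_sub_distrib, sum_const, nsmul_eq_mul, mul_one] at g2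
  have a1 := h₁ s x
  have a2 := h₂ s x
  rw [abs_le]
  constructor <;> linarith

end Pool.Agent.H58.Cat
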