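import Mathlib
import Pool.Agent.H58.Cat.Sandwich
import Pool.Agent.H58.Cat.Box

namespace Pool.Agent.H58.Cat

open Finset Real

theorem gg_div {b x y : ℕ} (hb : 0 < b) :
    gg ((x : ℝ) / (b : ℝ) ^ y) = if b ^ y ≤ 2 * (x % b ^ y) + 0 then 1 else 0 := by
  have hpos : 0 < b ^ y := pow_pos hb _
  have hposR : (0 : ℝ) < (b : ℝ) ^ y := by exact_mod_cast hpos
  have hfr : Int.fract ((x : ℝ) / (b : ℝ) ^ y) = ((x % b ^ y : ℕ) : ℝ) / (b : ℝ) ^ y := by
    rw [Int.fract_eq_iff]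
    refine ⟨by positivity, ?_, ((x / b ^ y : ℕ) : ℤ), ?_⟩
    · rw [div_lt_one hposR]
      exact_mod_cast Nat.mod_lt x hpos
    · have h := Nat.div_add_mod x (b ^ y)
      have hR : (x : ℝ) = (b : ℝ) ^ y * ((x / b ^ y : ℕ) : ℝ) + ((x % b ^ y : ℕ) : ℝ) := by
        exact_mod_cast h.symm
      rw [div_sub_div_same, div_eq_iff hposR.ne', Int.cast_natCast]
      linarith
  unfold gg
  rw [hfr]
  apply if_congr _ rfl rfl
  rw [add_zero, le_div_iff₀ hposR]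
  constructor
  · intro h
    have : ((b ^ y : ℕ) : ℝ) ≤ ((2 * (x % b ^ y) : ℕ) : ℝ) := by push_cast; linarith
    exact_mod_cast this
  · intro h
    have : ((b ^ y : ℕ) : ℝ) ≤ ((2 * (x % b ^ y) : ℕ) : ℝ) := by exact_mod_cast h
    push_cast at this
    linarith

theorem cnt_gg {b : ℕ} (hb : 0 < b) {y₀ Y : ℕ} (h : y₀ ≤ Y) (x : ℕ) :
    (cnt b 0 Y x : ℝ) = cnt b 0 y₀ x + ∑ y ∈ Ioc y₀ Y, gg ((x : ℝ) / (b : ℝ) ^ y) := by
  have e : ∑ y ∈ Ioc y₀ Y, gg ((x : ℝ) / (b : ℝ) ^ y) =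
      ∑ y ∈ Ico y₀ Y, (if b ^ (y + 1) ≤ 2 * (x % b ^ (y + 1)) + 0 then (1 : ℝ) else 0) := by
    apply sum_nbij' (fun y => y - 1) (fun y => y + 1)
    · intro a ha; rw [mem_Ioc] at ha; rw [mem_Ico]; omega
    · intro a ha; rw [mem_Ico] at ha; rw [mem_Ioc]; omega
    · intro a ha; rw [mem_Ioc] at ha; omega
    · intro a ha; omega
    · intro a ha
      rw [mem_Ioc] at ha
      rw [gg_div hb, show a - 1 + 1 = a by omega]
  rw [e]
  unfold cnt
  push_cast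
  rw [range_eq_Ico, range_eq_Ico, sum_Ico_consecutive _ (Nat.zero_le _) h]

theorem norm_ee_sub_one (x : ℝ) : ‖ee x - 1‖ ≤ 2 * π * |x| := by
  unfold ee
  have h1 : 2 * (π : ℂ) * x * Complex.I = Complex.I * ((2 * π * x : ℝ) : ℂ) := by push_cast; ring
  rw [h1]
  refine (Real.norm_exp_I_mul_ofReal_sub_one_le).trans ?_
  rw [norm_eq_abs, abs_mul, abs_of_pos (by positivity : (0 : ℝ) < 2 * π)]

theorem sum_geom_Ioc {q : ℝ} (hq : 2 ≤ q) {y₀ Y : ℕ} :
    ∑ y ∈ Ioc y₀ Y, 1 / q ^ y ≤ 1 / q ^ y₀ := by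
  have hq0 : 0 < q := by linarith
  rcases Nat.lt_or_ge Y y₀ with h | h
  · rw [Ioc_eq_empty (by omega), sum_empty]; positivity
  · have key : ∑ y ∈ Ioc y₀ Y, 1 / q ^ y ≤ 1 / q ^ y₀ - 1 / q ^ Y := by
      induction Y, h using Nat.le_induction with
      | base => simp
      | succ Y hY ih =>
        rw [sum_Ioc_succ_top hY]
        have : 1 / q ^ (Y + 1) ≤ 1 / q ^ Y - 1 / q ^ (Y + 1) := by
          rw [pow_succ]
          have hY0 : 0 < q ^ Y := by positivity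
          rw [le_sub_iff_add_le, ← add_div, div_le_div_iff₀ (by positivity) hY0]
          nlinarith
        linarith
    have : 0 ≤ 1 / q ^ Y := by positivity
    linarith

/-- adding a small number does not change the Weyl sums much -/
theorem UU_perturb {q h y₀ Y X w : ℕ} (hq : 2 ≤ q) (hw : w ≤ q ^ y₀) :
    ‖∑ y ∈ Ioc y₀ Y, ee (h * (((X + w : ℕ) : ℝ) / (q : ℝ) ^ y))‖ ≤ ‖UU h q y₀ Y X‖ + 2 * π * h := by
  have hqR : (2 : ℝ) ≤ q := by exact_mod_cast hq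
  have hq0 : (0 : ℝ) < q := by linarith
  have e : ∑ y ∈ Ioc y₀ Y, ee (h * (((X + w : ℕ) : ℝ) / (q : ℝ) ^ y)) =
      UU h q y₀ Y X + ∑ y ∈ Ioc y₀ Y,
        ee ((X : ℝ) * (h / (q : ℝ) ^ y)) * (ee (h * w / (q : ℝ) ^ y) - 1) := by
    unfold UU
    rw [← sum_add_distrib]
    apply sum_congr rfl
    intro y _
    have : (h : ℝ) * (((X + w : ℕ) : ℝ) / (q : ℝ) ^ y) =
        (X : ℝ) * (h / (q : ℝ) ^ y) + h * w / (q : ℝ) ^ y := by push_cast; ring
    rw [this, ee_add]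
    ring
  rw [e]
  refine (norm_add_le _ _).trans ?_
  apply add_le_add le_rfl
  refine (norm_sum_le _ _).trans ?_
  have h1 : ∀ y ∈ Ioc y₀ Y,
      ‖ee ((X : ℝ) * (h / (q : ℝ) ^ y)) * (ee (h * w / (q : ℝ) ^ y) - 1)‖ ≤
        2 * π * h * w * (1 / (q : ℝ) ^ y) := by
    intro y _
    rw [norm_mul, norm_ee, one_mul]
    refine (norm_ee_sub_one _).trans (le_of_eq ?_)
    rw [abs_of_nonneg (by positivity)]
    ring
  refine (sum_le_sum h1).trans ?_
  rw [← mul_sum]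
  have h2 := sum_geom_Ioc hqR (y₀ := y₀) (Y := Y)
  have h3 : (w : ℝ) * (1 / (q : ℝ) ^ y₀) ≤ 1 := by
    rw [mul_one_div, div_le_one (by positivity)]
    exact_mod_cast hw
  calc 2 * π * h * w * ∑ y ∈ Ioc y₀ Y, 1 / (q : ℝ) ^ y ≤ 2 * π * h * w * (1 / (q : ℝ) ^ y₀) :=
        mul_le_mul_of_nonneg_left h2 (by positivity)
    _ = 2 * π * h * (w * (1 / (q : ℝ) ^ y₀)) := by ring
    _ ≤ 2 * π * h * 1 := mul_le_mul_of_nonneg_left h3 (by positivity)
    _ = 2 * π * h := mul_one _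

theorem geom_bound {P : ℕ} (hP : 9 ≤ P) (I₁ I₂ : ℕ) : 8 * ∑ i ∈ Ico I₁ I₂, P ^ i ≤ P ^ I₂ := by
  induction I₂ with
  | zero => simp
  | succ n ih =>
    rcases Nat.lt_or_ge n I₁ with h | h
    · rw [Ico_eq_empty (by omega)]; simp
    · rw [sum_Ico_succ_top h, mul_add, pow_succ]
      have : P ^ n * 9 ≤ P ^ n * P := Nat.mul_le_mul_left _ hP
      omega

theorem XX_bound {P c : ℕ} (hP : 9 ≤ P) (hc : c ≤ 1) {I₁ I₂ : ℕ} {S : Finset ℕ}
    (hS : S ⊆ Ico I₁ I₂) : 4 * XX c P I₁ I₂ S ≤ P ^ I₂ := by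
  unfold XX
  have h1 := geom_bound hP I₁ I₂
  have h2 : ∑ i ∈ S, P ^ i ≤ ∑ i ∈ Ico I₁ I₂, P ^ i := sum_le_sum_of_subset hS
  have h3 : c * ∑ i ∈ Ico I₁ I₂, P ^ i ≤ 1 * ∑ i ∈ Ico I₁ I₂, P ^ i := Nat.mul_le_mul_right _ hc
  omega

theorem pow_dvd_XX {P c I₁ I₂ : ℕ} {S : Finset ℕ} (hS : S ⊆ Ico I₁ I₂) :
    P ^ I₁ ∣ XX c P I₁ I₂ S := by
  unfold XX
  apply dvd_add
  · apply Dvd.dvd.mul_left
    apply dvd_sum
    intro i hi
    rw [mem_Ico] at hi
    exact pow_dvd_pow P hi.1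
  · apply dvd_sum
    intro i hi
    have := hS hi
    rw [mem_Ico] at this
    exact pow_dvd_pow P this.1

theorem F_small : F 2 1 = 1 ∧ F 2 2 = 1 ∧ F 3 0 = 0 ∧ F 3 1 = 0 := by
  refine ⟨?_, ?_, ?_, ?_⟩
  · rw [F_eq_cnt Nat.prime_two (K := 2) (by norm_num)]; decide
  · rw [F_eq_cnt Nat.prime_two (K := 2) (by norm_num)]; decide
  · rw [F_eq_cnt Nat.prime_three (K := 2) (by norm_num)]; decide
  · rw [F_eq_cnt Nat.prime_three (K := 2) (by norm_num)]; decide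

/-- the count of the sparse numbers in their own base -/
theorem F_XX {p c m : ℕ} (hpc : (p = 2 ∧ c = 1) ∨ (p = 3 ∧ c = 0)) (hm : 9 ≤ p ^ m) (I₁ n : ℕ)
    (S : Finset ℕ) (hS : S ⊆ Ico I₁ (I₁ + n)) : F p (XX c (p ^ m) I₁ (I₁ + n) S) = c * n := by
  have hp : p.Prime := by rcases hpc with ⟨rfl, rfl⟩ | ⟨rfl, rfl⟩ <;> norm_num
  have hc : c ≤ 1 := by rcases hpc with ⟨rfl, rfl⟩ | ⟨rfl, rfl⟩ <;> norm_num
  have hd : ∀ d, d = c ∨ d = c + 1 → F p d = c := by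
    obtain ⟨f1, f2, f3, f4⟩ := F_small
    intro d hd
    rcases hpc with ⟨rfl, rfl⟩ | ⟨rfl, rfl⟩ <;> rcases hd with rfl | rfl
    · exact f1
    · exact f2
    · exact f3
    · exact f4
  have F0 : F p 0 = 0 := by
    rw [F_eq_cnt hp (K := 0) (by have := hp.two_le; simp; omega)]; rfl
  induction n generalizing S with
  | zero =>
    have : S = ∅ := by
      rw [← subset_empty]
      refine hS.trans ?_
      simp
    subst this
    simp [XX, F0]
  | succ n ih =>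
    set S' := S.filter (fun i => i < I₁ + n) with hS'
    have hS'sub : S' ⊆ Ico I₁ (I₁ + n) := by
      intro i hi
      rw [hS', mem_filter] at hi
      have := hS hi.1
      rw [mem_Ico] at this ⊢
      omega
    set d := c + (if I₁ + n ∈ S then 1 else 0) with hdd
    have hd' : d = c ∨ d = c + 1 := by
      rw [hdd]; split_ifs
      · right; rfl
      · left; rfl
    have hsum : ∑ i ∈ S, (p ^ m) ^ i =
        ∑ i ∈ S', (p ^ m) ^ i + (if I₁ + n ∈ S then 1 else 0) * (p ^ m) ^ (I₁ + n) := by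
      rw [hS', ← sum_filter_add_sum_filter_not S (fun i => i < I₁ + n)]
      congr 1
      split_ifs with h
      · have : filter (fun i => ¬ i < I₁ + n) S = {I₁ + n} := by
          ext i
          rw [mem_filter, mem_singleton]
          constructor
          · rintro ⟨h1, h2⟩
            have := hS h1
            rw [mem_Ico] at this
            omega
          · rintro rfl
            exact ⟨h, by omega⟩
        rw [this, sum_singleton, one_mul]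
      · have : filter (fun i => ¬ i < I₁ + n) S = ∅ := by
          rw [filter_eq_empty_iff]
          intro i hi hcon
          have h2 := hS hi
          rw [mem_Ico] at h2
          have : i = I₁ + n := by omega
          exact h (this ▸ hi)
        rw [this, sum_empty, zero_mul]
    have e : XX c (p ^ m) I₁ (I₁ + (n + 1)) S =
        p ^ (m * (I₁ + n)) * d + XX c (p ^ m) I₁ (I₁ + n) S' := by
      unfold XX
      rw [← add_assoc, sum_Ico_succ_top (by omega), hsum, hdd, pow_mul]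
      ring
    rw [e, F_add hp (i := m * (I₁ + n)) (Nat.dvd_mul_right _ _), F_pow_mul hp, hd d hd',
      ih S' hS'sub]
    · ring
    · have := XX_bound hm hc hS'sub
      rw [pow_mul]
      have hpos : 0 < (p ^ m) ^ (I₁ + n) := by positivity
      omega

/-- affine concentration -/
theorem affine {b : ℕ} (hb : b = 2 ∨ b = 3) {A B Z κ n T C₀ : ℕ} (hB : Nat.Coprime B b)
    (hB0 : 0 < B) (hBκ : B ≤ b ^ κ) (hκZ : b ^ κ ≤ Z) (h1 : B * Z ≤ b ^ (κ + n))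
    (h2 : b ^ (κ + n) ≤ C₀ * (B * Z)) (hC₀ : 1 ≤ C₀) :
    #{z ∈ range Z | 2 * (T : ℤ) < |dev b 0 (κ + n) (A + B * z)|} * T ^ 2 ≤
      16 * C₀ * (κ + n) * Z := by
  have hb0 : 0 < b := by rcases hb with rfl | rfl <;> norm_num
  have hpκ : 0 < b ^ κ := pow_pos hb0 _
  have c := conc hb (range Z) (fun z => A + B * z) κ n ((Z - 1) / b ^ κ + 1)
    (2 * (b ^ κ / B + 1)) T
    (fun v _ => mult_low hpκ (Nat.Coprime.pow_right _ hB))
    (fun v _ => mult_high hpκ hB0 (pow_pos hb0 _) (by rw [← pow_add]; exact h1))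
  have e1 : ((Z - 1) / b ^ κ + 1) * b ^ κ ≤ 2 * Z := by
    have := Nat.div_mul_le_self (Z - 1) (b ^ κ)
    rw [add_mul, one_mul]; omega
  have e2 : 2 * (b ^ κ / B + 1) * b ^ n ≤ 4 * C₀ * Z := by
    have f1 : (b ^ κ / B + 1) * B ≤ 2 * b ^ κ := by
      have := Nat.div_mul_le_self (b ^ κ) B
      rw [add_mul, one_mul]; omega
    have f2 : 2 * (b ^ κ / B + 1) * b ^ n * B ≤ 4 * C₀ * Z * B := by
      calc 2 * (b ^ κ / B + 1) * b ^ n * B = 2 * ((b ^ κ / B + 1) * B) * b ^ n := by ring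
        _ ≤ 2 * (2 * b ^ κ) * b ^ n := by gcongr
        _ = 4 * b ^ (κ + n) := by rw [pow_add]; ring
        _ ≤ 4 * (C₀ * (B * Z)) := Nat.mul_le_mul_left _ h2
        _ = 4 * C₀ * Z * B := by ring
    exact Nat.le_of_mul_le_mul_right f2 hB0
  have hb1 : ((b - 1 : ℕ) : ℤ) ≤ 2 := by rcases hb with rfl | rfl <;> norm_num
  have hb1' : (0 : ℤ) ≤ ((b - 1 : ℕ) : ℤ) := by positivity
  have e1' : (((Z - 1) / b ^ κ + 1 : ℕ) : ℤ) * b ^ κ ≤ 2 * Z := by exact_mod_cast e1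
  have e2' : ((2 * (b ^ κ / B + 1) : ℕ) : ℤ) * b ^ n ≤ 4 * C₀ * Z := by exact_mod_cast e2
  have g1 : (((Z - 1) / b ^ κ + 1 : ℕ) : ℤ) * (((b - 1 : ℕ) : ℤ) * κ * b ^ κ) ≤ 4 * κ * Z := by
    calc (((Z - 1) / b ^ κ + 1 : ℕ) : ℤ) * (((b - 1 : ℕ) : ℤ) * κ * b ^ κ)
        = ((b - 1 : ℕ) : ℤ) * (κ * ((((Z - 1) / b ^ κ + 1 : ℕ) : ℤ) * b ^ κ)) := by ring
      _ ≤ 2 * (κ * (2 * Z)) := by
          apply mul_le_mul hb1 _ (by positivity) (by norm_num)
          exact mul_le_mul_of_nonneg_left e1' (by positivity)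
      _ = 4 * κ * Z := by ring
  have g2 : ((2 * (b ^ κ / B + 1) : ℕ) : ℤ) * (((b - 1 : ℕ) : ℤ) * n * b ^ n) ≤
      8 * C₀ * n * Z := by
    calc ((2 * (b ^ κ / B + 1) : ℕ) : ℤ) * (((b - 1 : ℕ) : ℤ) * n * b ^ n)
        = ((b - 1 : ℕ) : ℤ) * (n * (((2 * (b ^ κ / B + 1) : ℕ) : ℤ) * b ^ n)) := by ring
      _ ≤ 2 * (n * (4 * C₀ * Z)) := by
          apply mul_le_mul hb1 _ (by positivity) (by norm_num)
          exact mul_le_mul_of_nonneg_left e2' (by positivity)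
      _ = 8 * C₀ * n * Z := by ring
  have hC₀' : (1 : ℤ) ≤ C₀ := by exact_mod_cast hC₀
  have fin : (#{z ∈ range Z | 2 * (T : ℤ) < |dev b 0 (κ + n) (A + B * z)|} : ℤ) * T ^ 2 ≤
      16 * C₀ * (κ + n) * Z := by
    refine c.trans ?_
    have h3 : (4 : ℤ) * κ * Z ≤ 16 * C₀ * κ * Z := by
      have : (0 : ℤ) ≤ κ * Z := by positivity
      nlinarith
    linarith
  exact_mod_cast fin

end Pool.Agent.H58.Cat
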