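import Mathlib
import Pool.Agent.H58.Cat.Pieces

namespace Pool.Agent.H58.Cat

open Finset Real

theorem cnt_pow_mul {b : ℕ} (hb0 : 0 < b) (v K x : ℕ) :
    cnt b 0 (v + K) (b ^ v * x) = cnt b 0 K x := by
  have hpos : 0 < b ^ v := pow_pos hb0 _
  rw [cnt_add hb0]
  have h4 : (b ^ v * x) % b ^ v = 0 := Nat.mul_mod_right _ _
  have h3 : (b ^ v * x) / b ^ v = x := Nat.mul_div_cancel_left _ hpos
  have h6 : cnt b 0 v (b ^ v * x) = 0 := by
    unfold cnt
    apply sum_eq_zero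
    intro k hk
    rw [if_neg]
    have hk' : k + 1 ≤ v := by simpa [Nat.succ_le_iff] using hk
    have : b ^ v * x % b ^ (k + 1) = 0 := by
      apply Nat.mod_eq_zero_of_dvd
      exact Dvd.dvd.mul_right (pow_dvd_pow b hk') _
    rw [this]
    have := pow_pos hb0 (k + 1)
    omega
  rw [h4, h3, h6]
  simp

/-- the exponent of the modulus in base `b` -/
def vv (L j b : ℕ) : ℕ := if b = 2 then L + 1 else j

/-- the modulus -/
def MM (L j : ℕ) : ℕ := 2 ^ (L + 1) * 3 ^ j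

/-- the number of choices for the free part -/
def ZZ (L : ℕ) : ℕ := 2 ^ (2 * L + 8)

theorem MM_pos (L j : ℕ) : 0 < MM L j := by unfold MM; positivity

theorem ZZ_pos (L : ℕ) : 0 < ZZ L := by unfold ZZ; positivity

theorem low_part {b : ℕ} (hb : b = 2 ∨ b = 3) {L j K A T C₀ : ℕ} (hj2 : 3 ^ j ≤ 2 ^ (L + 3))
    (hA : b ^ vv L j b ∣ A) (hK1 : MM L j * ZZ L ≤ b ^ K) (hK2 : b ^ K ≤ C₀ * (MM L j * ZZ L))
    (hC₀ : 1 ≤ C₀) :
    vv L j b ≤ K ∧
    #{z ∈ range (ZZ L) | 2 * (T : ℤ) < |2 * (cnt b 0 K (A + MM L j * z) : ℤ) - (K - vv L j b : ℕ)|}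
      * T ^ 2 ≤ 16 * C₀ * K * ZZ L := by
  have hb2 : 2 ≤ b := by rcases hb with rfl | rfl <;> norm_num
  have hb0 : 0 < b := by omega
  obtain ⟨B, hBM, hB0, hBc, hBL⟩ : ∃ B, MM L j = b ^ vv L j b * B ∧ 0 < B ∧ Nat.Coprime B b ∧
      B ≤ 2 ^ (L + 3) := by
    rcases hb with rfl | rfl
    · refine ⟨3 ^ j, ?_, by positivity, ?_, hj2⟩
      · unfold MM vv; simp
      · apply Nat.Coprime.pow_left; norm_num
    · refine ⟨2 ^ (L + 1), ?_, by positivity, ?_, Nat.pow_le_pow_right (by norm_num) (by omega)⟩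
      · unfold MM vv; simp; ring
      · apply Nat.Coprime.pow_left; norm_num
  have hZ0 := ZZ_pos L
  have hvK : vv L j b ≤ K := by
    have : b ^ vv L j b ≤ b ^ K := by
      refine le_trans ?_ hK1
      rw [hBM, mul_assoc]
      exact Nat.le_mul_of_pos_right _ (Nat.mul_pos hB0 hZ0)
    exact (Nat.pow_le_pow_iff_right (by omega)).1 this
  refine ⟨hvK, ?_⟩
  obtain ⟨K', hK'⟩ := Nat.exists_eq_add_of_le hvK
  obtain ⟨A', rfl⟩ := hA
  have hpv : 0 < b ^ vv L j b := pow_pos hb0 _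
  have hK1' : B * ZZ L ≤ b ^ K' := by
    rw [hBM, hK', pow_add, mul_assoc] at hK1
    exact Nat.le_of_mul_le_mul_left hK1 hpv
  have hK2' : b ^ K' ≤ C₀ * (B * ZZ L) := by
    rw [hBM, hK', pow_add] at hK2
    have : b ^ vv L j b * b ^ K' ≤ b ^ vv L j b * (C₀ * (B * ZZ L)) := by
      refine hK2.trans (le_of_eq ?_)
      ring
    exact Nat.le_of_mul_le_mul_left this hpv
  set κ := Nat.log b (ZZ L) with hκ
  have hκ1 : b ^ κ ≤ ZZ L := Nat.pow_log_le_self b hZ0.ne'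
  have hκ2 : ZZ L < b ^ (κ + 1) := Nat.lt_pow_succ_log_self (by omega) _
  have hκK : κ ≤ K' := by
    have : b ^ κ ≤ b ^ K' := hκ1.trans ((Nat.le_mul_of_pos_left _ hB0).trans hK1')
    exact (Nat.pow_le_pow_iff_right (by omega)).1 this
  obtain ⟨n, hn⟩ := Nat.exists_eq_add_of_le hκK
  have hBκ : B ≤ b ^ κ := by
    have h4 : ZZ L < b ^ κ * 4 := by
      calc ZZ L < b ^ (κ + 1) := hκ2
        _ = b ^ κ * b := pow_succ _ _
        _ ≤ b ^ κ * 4 := Nat.mul_le_mul_left _ (by rcases hb with rfl | rfl <;> norm_num)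
    have h5 : 4 * 2 ^ (L + 3) ≤ ZZ L := by
      unfold ZZ
      calc 4 * 2 ^ (L + 3) = 2 ^ (L + 5) := by rw [pow_add, pow_add]; ring
        _ ≤ _ := Nat.pow_le_pow_right (by norm_num) (by omega)
    omega
  have main := affine hb (A := A') (B := B) (Z := ZZ L) (κ := κ) (n := n) (T := T) (C₀ := C₀) hBc
    hB0 hBκ hκ1 (by rw [← hn]; exact hK1') (by rw [← hn]; exact hK2') hC₀
  rw [← hn] at main
  have e : ∀ z, 2 * (cnt b 0 K (b ^ vv L j b * A' + MM L j * z) : ℤ) - (K - vv L j b : ℕ) =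
      dev b 0 K' (A' + B * z) := by
    intro z
    have h1 : b ^ vv L j b * A' + MM L j * z = b ^ vv L j b * (A' + B * z) := by rw [hBM]; ring
    rw [h1]
    unfold dev
    have h2 : K - vv L j b = K' := by omega
    rw [h2]
    conv_lhs => rw [hK']
    rw [cnt_pow_mul hb0]
  simp_rw [e]
  refine main.trans ?_
  have h3 : K' ≤ K := by omega
  gcongr

end Pool.Agent.H58.Cat
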