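import Mathlib
import Pool.Agent.H58.Cat.LowPart

namespace Pool.Agent.H58.Cat

open Finset Real

/-- start of the sparse part -/
def I1f (p m L j : ℕ) : ℕ := Nat.clog (p ^ m) (4 * (MM L j * ZZ L))

/-- the number of positions in the other base -/
def Yf (p q m L j n : ℕ) : ℕ := Nat.clog q (4 * (p ^ m) ^ (I1f p m L j + n))

/-- the good sparse part -/
theorem exists_sparse {p q m : ℕ} (hpq : Pair p q) (hm : 1 ≤ m) (H : ℕ) {δ : ℝ} (hδ : 0 < δ)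
    (A₁ : ℕ) :
    ∃ L₀ : ℕ, ∀ L ≥ L₀, ∀ c I₁ n y₀ Y : ℕ, y₀ ≤ Y → Y ≤ y₀ + A₁ * L → (p ^ m) ^ I₁ ≤ q ^ y₀ →
      (q : ℝ) ^ Y ≤ (4 * q : ℕ) * ((p ^ m : ℕ) : ℝ) ^ (I₁ + n) →
      ∃ S ⊆ Ico I₁ (I₁ + n), ∀ h ∈ Ioc 0 H,
        ‖UU h q y₀ Y (XX c (p ^ m) I₁ (I₁ + n) S)‖ ≤ δ * L := by
  have hq2 : 2 ≤ q := by rcases hpq with ⟨rfl, rfl⟩ | ⟨rfl, rfl⟩ <;> norm_num
  set δ₂ : ℝ := δ ^ 2 / (2 * (H + 1) * (A₁ + 1) ^ 2) with hδ₂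
  have hδ₂0 : 0 < δ₂ := by positivity
  have hex : ∀ h : ℕ, ∃ C : ℕ, 1 ≤ h → ∀ c I₁ I₂ y₀ Y : ℕ, y₀ ≤ Y → (p ^ m) ^ I₁ ≤ q ^ y₀ →
      (q : ℝ) ^ Y ≤ ((4 * q : ℕ) : ℝ) * ((p ^ m : ℕ) : ℝ) ^ I₂ →
      ∑ S ∈ (Ico I₁ I₂).powerset, ‖UU h q y₀ Y (XX c (p ^ m) I₁ I₂ S)‖ ^ 2 ≤
        2 ^ (I₂ - I₁) * (δ₂ * ((Y : ℝ) - y₀) ^ 2 + C * ((Y : ℝ) - y₀)) := by
    intro h
    rcases Nat.eq_zero_or_pos h with h0 | h0
    · exact ⟨0, fun hh => by omega⟩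
    · obtain ⟨C, hC⟩ := weyl hpq hm h0 hδ₂0 ((4 * q : ℕ) : ℝ) (by positivity)
      exact ⟨C, fun _ => hC⟩
  choose C hC using hex
  set Ct := ∑ h ∈ Ioc 0 H, C h with hCt
  obtain ⟨L₀, hL₀⟩ := exists_nat_gt (2 * (Ct : ℝ) * A₁ / δ ^ 2)
  refine ⟨L₀, ?_⟩
  intro L hL c I₁ n y₀ Y hyY hYL hI1 hI2
  have hLR : 2 * (Ct : ℝ) * A₁ ≤ δ ^ 2 * L := by
    have h1 : (L₀ : ℝ) ≤ L := by exact_mod_cast hL
    have h2 : 2 * (Ct : ℝ) * A₁ / δ ^ 2 < L := lt_of_lt_of_le hL₀ h1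
    rw [div_lt_iff₀ (by positivity)] at h2
    linarith
  set W : ℝ := (Y : ℝ) - y₀ with hW
  have hW0 : 0 ≤ W := by
    have : (y₀ : ℝ) ≤ Y := by exact_mod_cast hyY
    rw [hW]; linarith
  have hW1 : W ≤ A₁ * L := by
    have : (Y : ℝ) ≤ y₀ + A₁ * L := by exact_mod_cast hYL
    rw [hW]; linarith
  have hsum : ∑ S ∈ (Ico I₁ (I₁ + n)).powerset, ∑ h ∈ Ioc 0 H,
      ‖UU h q y₀ Y (XX c (p ^ m) I₁ (I₁ + n) S)‖ ^ 2 ≤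
      ∑ S ∈ (Ico I₁ (I₁ + n)).powerset, (δ * L) ^ 2 := by
    rw [sum_comm]
    have h1 : ∀ h ∈ Ioc 0 H, ∑ S ∈ (Ico I₁ (I₁ + n)).powerset,
        ‖UU h q y₀ Y (XX c (p ^ m) I₁ (I₁ + n) S)‖ ^ 2 ≤ 2 ^ n * (δ₂ * W ^ 2 + C h * W) := by
      intro h hh
      rw [mem_Ioc] at hh
      have := hC h (by omega) c I₁ (I₁ + n) y₀ Y hyY hI1 hI2
      rwa [Nat.add_sub_cancel_left] at this
    refine (sum_le_sum h1).trans ?_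
    rw [← mul_sum, sum_add_distrib, sum_const, Nat.card_Ioc, Nat.sub_zero, nsmul_eq_mul,
      ← sum_mul, sum_const, card_powerset, Nat.card_Ico, Nat.add_sub_cancel_left, nsmul_eq_mul]
    have hCt' : ∑ h ∈ Ioc 0 H, (C h : ℝ) = Ct := by rw [hCt]; push_cast; rfl
    rw [hCt']
    push_cast
    apply mul_le_mul_of_nonneg_left _ (by positivity)
    have e1 : (H : ℝ) * (δ₂ * W ^ 2) ≤ δ ^ 2 * L ^ 2 / 2 := by
      have f1 : W ^ 2 ≤ (A₁ + 1) ^ 2 * L ^ 2 := by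
        have : W ≤ (A₁ + 1) * L := by
          have : (0 : ℝ) ≤ L := by positivity
          linarith
        calc W ^ 2 ≤ ((A₁ + 1) * L) ^ 2 := pow_le_pow_left₀ hW0 this 2
          _ = _ := by ring
      have f2 : (H : ℝ) * δ₂ * (A₁ + 1) ^ 2 ≤ δ ^ 2 / 2 := by
        rw [hδ₂]
        have : (H : ℝ) * (δ ^ 2 / (2 * (H + 1) * (A₁ + 1) ^ 2)) * (A₁ + 1) ^ 2 =
            (H / (H + 1)) * (δ ^ 2 / 2) := by
          field_simp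
        rw [this]
        have g : (H : ℝ) / (H + 1) ≤ 1 := by rw [div_le_one (by positivity)]; linarith
        have g2 : 0 ≤ δ ^ 2 / 2 := by positivity
        nlinarith
      calc (H : ℝ) * (δ₂ * W ^ 2) = H * δ₂ * W ^ 2 := by ring
        _ ≤ H * δ₂ * ((A₁ + 1) ^ 2 * L ^ 2) := mul_le_mul_of_nonneg_left f1 (by positivity)
        _ = (H * δ₂ * (A₁ + 1) ^ 2) * L ^ 2 := by ring
        _ ≤ (δ ^ 2 / 2) * L ^ 2 := mul_le_mul_of_nonneg_right f2 (by positivity)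
        _ = _ := by ring
    have e2 : (Ct : ℝ) * W ≤ δ ^ 2 * L ^ 2 / 2 := by
      calc (Ct : ℝ) * W ≤ Ct * (A₁ * L) := mul_le_mul_of_nonneg_left hW1 (by positivity)
        _ = (2 * Ct * A₁) * L / 2 := by ring
        _ ≤ (δ ^ 2 * L) * L / 2 := by
            apply div_le_div_of_nonneg_right _ (by norm_num)
            exact mul_le_mul_of_nonneg_right hLR (by positivity)
        _ = _ := by ring
    calc (H : ℝ) * (δ₂ * W ^ 2) + Ct * W ≤ δ ^ 2 * L ^ 2 / 2 + δ ^ 2 * L ^ 2 / 2 := by linarith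
      _ = (δ * L) ^ 2 := by ring
  obtain ⟨S, hS, hS2⟩ := exists_le_of_sum_le (by
    exact ⟨∅, by simp⟩) hsum
  refine ⟨S, by simpa using hS, ?_⟩
  intro h hh
  have h1 : ‖UU h q y₀ Y (XX c (p ^ m) I₁ (I₁ + n) S)‖ ^ 2 ≤ (δ * L) ^ 2 := by
    refine le_trans ?_ hS2
    exact single_le_sum (f := fun h => ‖UU h q y₀ Y (XX c (p ^ m) I₁ (I₁ + n) S)‖ ^ 2)
      (fun _ _ => sq_nonneg _) hh
  exact le_of_sq_le_sq h1 (by positivity)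

end Pool.Agent.H58.Cat
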