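import Mathlib
import Pool.Agent.H58.Cat.Assemble

namespace Pool.Agent.H58.Cat

open Finset Real

theorem clog_bounds {b x : ℕ} (hb : 2 ≤ b) (hx : 2 ≤ x) :
    x ≤ b ^ Nat.clog b x ∧ b ^ Nat.clog b x ≤ b * x := by
  refine ⟨Nat.le_pow_clog (by omega) _, ?_⟩
  have h1 : b ^ (Nat.clog b x).pred < x := Nat.pow_pred_clog_lt_self (by omega) (by omega)
  have h2 : 0 < Nat.clog b x := Nat.clog_pos (by omega) hx
  have h3 : b ^ Nat.clog b x = b * b ^ (Nat.clog b x).pred := by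
    conv_lhs => rw [← Nat.succ_pred_eq_of_pos h2]
    rw [pow_succ, mul_comm]
  rw [h3]
  exact Nat.mul_le_mul_left _ h1.le

/-- the data of the three cases -/
def Trip (p q c : ℕ) : Prop := (p = 2 ∧ q = 3 ∧ c = 1) ∨ (p = 3 ∧ q = 2 ∧ c = 0)

/-- existence of the main part with prescribed counts up to a small error -/
theorem assemble {p q c m : ℕ} (ht : Trip p q c) (hP9 : 9 ≤ p ^ m) {δ : ℝ} (hδ : 0 < δ)
    (A₀ : ℕ) : ∃ L₀ : ℕ, ∀ L ≥ L₀, ∀ j, 2 ^ (L + 1) ≤ 3 ^ j → 3 ^ j ≤ 2 ^ (L + 3) → ∀ n ≤ A₀ * L,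
      ∃ w, 0 < w ∧
        |2 * (F p (MM L j * w) : ℝ) - ((m * I1f p m L j : ℕ) - vv L j p + 2 * c * n)| ≤ δ * L ∧
        |2 * (F q (MM L j * w) : ℝ) - (Yf p q m L j n - vv L j q)| ≤ δ * L := by
  have hpq : Pair p q := by
    rcases ht with ⟨rfl, rfl, rfl⟩ | ⟨rfl, rfl, rfl⟩
    · exact Or.inl ⟨rfl, rfl⟩
    · exact Or.inr ⟨rfl, rfl⟩
  have hpc : (p = 2 ∧ c = 1) ∨ (p = 3 ∧ c = 0) := by
    rcases ht with ⟨rfl, rfl, rfl⟩ | ⟨rfl, rfl, rfl⟩
    · exact Or.inl ⟨rfl, rfl⟩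
    · exact Or.inr ⟨rfl, rfl⟩
  have hc : c ≤ 1 := by rcases ht with ⟨rfl, rfl, rfl⟩ | ⟨rfl, rfl, rfl⟩ <;> norm_num
  have hpb : p = 2 ∨ p = 3 := by rcases ht with ⟨rfl, rfl, rfl⟩ | ⟨rfl, rfl, rfl⟩ <;> norm_num
  have hqb : q = 2 ∨ q = 3 := by rcases ht with ⟨rfl, rfl, rfl⟩ | ⟨rfl, rfl, rfl⟩ <;> norm_num
  have hpp : p.Prime := by rcases hpb with rfl | rfl <;> norm_num
  have hqp : q.Prime := by rcases hqb with rfl | rfl <;> norm_num
  have hp2 := hpp.two_le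
  have hq2 := hqp.two_le
  have hp3 : p ≤ 3 := by omega
  have hq3 : q ≤ 3 := by omega
  have hm : 1 ≤ m := by
    rcases Nat.eq_zero_or_pos m with rfl | h
    · simp at hP9
    · exact h
  have hpq2 : p ≤ q ^ 2 := by
    calc p ≤ 4 := by omega
      _ = 2 ^ 2 := by norm_num
      _ ≤ q ^ 2 := Nat.pow_le_pow_left hq2 2
  set A₁ := 3 + 2 * m * A₀ with hA₁
  -- the Weyl criterion
  obtain ⟨H, C, hC, hweyl⟩ := weyl_criterion (show 0 < δ / (8 * A₁) by positivity)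
  obtain ⟨L₁, hL₁⟩ := exists_sparse hpq hm H (show 0 < δ / (8 * (C + 1) * (H + 1)) by positivity) A₁
  -- the size of `L`
  set C₀ := 12 * p ^ m with hC₀
  set A₂ := 2 * m + 19 with hA₂
  obtain ⟨L₂, hL₂⟩ := exists_nat_gt (64 * C * (H * (2 * π * H)) / δ + 32 / δ +
    32 * C₀ * A₂ * 256 / δ ^ 2)
  refine ⟨max L₁ (max L₂ 1), ?_⟩
  intro L hL j hj1 hj2 n hn
  have hLL₁ : L₁ ≤ L := (le_max_left _ _).trans hL
  have hLL₂ : L₂ ≤ L := ((le_max_left _ _).trans (le_max_right _ _)).trans hL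
  have hL1 : 1 ≤ L := ((le_max_right _ _).trans (le_max_right _ _)).trans hL
  have hLR2 : 64 * C * (H * (2 * π * H)) / δ + 32 / δ + 32 * C₀ * A₂ * 256 / δ ^ 2 < (L : ℝ) :=
    lt_of_lt_of_le hL₂ (by exact_mod_cast hLL₂)
  have hLpos : (0 : ℝ) < L := by exact_mod_cast hL1
  have hb1 : 64 * C * (H * (2 * π * H)) ≤ δ * L := by
    have h1 : 0 ≤ 32 / δ := by positivity
    have h2 : 0 ≤ 32 * (C₀ : ℝ) * A₂ * 256 / δ ^ 2 := by positivity
    have h3 : 64 * C * (H * (2 * π * H)) / δ ≤ L := by linarith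
    rw [div_le_iff₀ hδ] at h3
    linarith
  have hb2 : 32 ≤ δ * L := by
    have h1 : 0 ≤ 64 * C * (H * (2 * π * H)) / δ := by positivity
    have h2 : 0 ≤ 32 * (C₀ : ℝ) * A₂ * 256 / δ ^ 2 := by positivity
    have h3 : 32 / δ ≤ L := by linarith
    rw [div_le_iff₀ hδ] at h3
    linarith
  have hb3 : 32 * (C₀ : ℝ) * A₂ * 256 < δ ^ 2 * L := by
    have h1 : 0 ≤ 64 * C * (H * (2 * π * H)) / δ := by positivity
    have h2 : 0 ≤ 32 / δ := by positivity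
    have h3 : 32 * (C₀ : ℝ) * A₂ * 256 / δ ^ 2 < L := by linarith
    rw [div_lt_iff₀ (by positivity)] at h3
    linarith
  -- the integer parameters
  have hM0 := MM_pos L j
  have hZ0 := ZZ_pos L
  set MZ := MM L j * ZZ L with hMZ
  have hMZ0 : 0 < MZ := Nat.mul_pos hM0 hZ0
  set P := p ^ m with hP
  set I₁ := I1f p m L j with hI₁
  obtain ⟨hI1a, hI1b⟩ : 4 * MZ ≤ P ^ I₁ ∧ P ^ I₁ ≤ P * (4 * MZ) :=
    clog_bounds (by omega) (by omega)
  have hPpos : 0 < P ^ I₁ := by omega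
  set y₀ := Nat.clog q (P ^ I₁) with hy₀
  obtain ⟨hy0a, hy0b⟩ : P ^ I₁ ≤ q ^ y₀ ∧ q ^ y₀ ≤ q * P ^ I₁ := clog_bounds hq2 (by omega)
  set Y := Yf p q m L j n with hY
  have hPI : P ^ I₁ ≤ P ^ (I₁ + n) := Nat.pow_le_pow_right (by omega) (by omega)
  obtain ⟨hYa, hYb⟩ : 4 * P ^ (I₁ + n) ≤ q ^ Y ∧ q ^ Y ≤ q * (4 * P ^ (I₁ + n)) :=
    clog_bounds hq2 (by omega)
  have hyY : y₀ ≤ Y := by
    apply Nat.clog_mono_right
    show P ^ I₁ ≤ 4 * P ^ (I₁ + n)
    omega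
  have hYA : Y ≤ y₀ + A₁ * L := by
    have e1 : q ^ Y ≤ q ^ (y₀ + (3 + 2 * (m * n))) := by
      calc q ^ Y ≤ q * (4 * P ^ (I₁ + n)) := hYb
        _ = (4 * q) * (P ^ I₁ * P ^ n) := by rw [pow_add]; ring
        _ ≤ (q ^ 2 * q) * (q ^ y₀ * (q ^ 2) ^ (m * n)) := by
            apply Nat.mul_le_mul
            · apply Nat.mul_le_mul_right
              calc 4 = 2 ^ 2 := by norm_num
                _ ≤ q ^ 2 := Nat.pow_le_pow_left hq2 2
            · apply Nat.mul_le_mul hy0a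
              rw [hP, ← pow_mul]
              exact Nat.pow_le_pow_left hpq2 _
        _ = q ^ (y₀ + (3 + 2 * (m * n))) := by
            rw [← pow_mul, ← pow_succ, ← pow_add, ← pow_add]
            congr 1; ring
    have e2 := (Nat.pow_le_pow_iff_right (by omega : 1 < q)).1 e1
    have e3 : m * n ≤ m * (A₀ * L) := Nat.mul_le_mul_left _ hn
    have e4 : A₁ * L = 3 * L + 2 * (m * (A₀ * L)) := by rw [hA₁]; ring
    omega
  have hMZle : 4 * MZ ≤ 2 ^ (4 * L + 14) := by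
    have : MM L j ≤ 2 ^ (L + 1) * 2 ^ (L + 3) := Nat.mul_le_mul_left _ hj2
    calc 4 * MZ ≤ 4 * (2 ^ (L + 1) * 2 ^ (L + 3) * 2 ^ (2 * L + 8)) :=
          Nat.mul_le_mul_left _ (Nat.mul_le_mul_right _ this)
      _ = 2 ^ 2 * (2 ^ (L + 1) * 2 ^ (L + 3) * 2 ^ (2 * L + 8)) := by norm_num
      _ = 2 ^ (4 * L + 14) := by rw [← pow_add, ← pow_add, ← pow_add]; congr 1; ring
  have hmI : m * I₁ ≤ A₂ * L := by
    have e1 : p ^ (m * I₁) ≤ p ^ (m + (4 * L + 14)) := by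
      calc p ^ (m * I₁) = P ^ I₁ := by rw [hP, ← pow_mul]
        _ ≤ P * (4 * MZ) := hI1b
        _ ≤ P * p ^ (4 * L + 14) :=
            Nat.mul_le_mul_left _ (hMZle.trans (Nat.pow_le_pow_left hp2 _))
        _ = p ^ (m + (4 * L + 14)) := by rw [hP, ← pow_add]
    have e2 := (Nat.pow_le_pow_iff_right (by omega : 1 < p)).1 e1
    have e3 : m ≤ m * L := Nat.le_mul_of_pos_right _ (by omega)
    have e4 : A₂ * L = 2 * (m * L) + 19 * L := by rw [hA₂]; ring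
    omega
  have hy0A : y₀ ≤ A₂ * L := by
    have e1 : q ^ y₀ ≤ q ^ (1 + (2 * m + (4 * L + 14))) := by
      calc q ^ y₀ ≤ q * P ^ I₁ := hy0b
        _ ≤ q * (P * (4 * MZ)) := Nat.mul_le_mul_left _ hI1b
        _ ≤ q * ((q ^ 2) ^ m * q ^ (4 * L + 14)) := by
            apply Nat.mul_le_mul_left
            apply Nat.mul_le_mul
            · rw [hP]; exact Nat.pow_le_pow_left hpq2 _
            · exact hMZle.trans (Nat.pow_le_pow_left hq2 _)
        _ = q ^ (1 + (2 * m + (4 * L + 14))) := by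
            rw [← pow_mul, ← pow_add]
            rw [show 1 + (2 * m + (4 * L + 14)) = (2 * m + (4 * L + 14)) + 1 by ring, pow_succ]
            ring
    have e2 := (Nat.pow_le_pow_iff_right (by omega : 1 < q)).1 e1
    have e3 : m ≤ m * L := Nat.le_mul_of_pos_right _ (by omega)
    have e4 : A₂ * L = 2 * (m * L) + 19 * L := by rw [hA₂]; ring
    omega
  -- the sparse part
  obtain ⟨S, hS, hUU⟩ := hL₁ L hLL₁ c I₁ n y₀ Y hyY hYA hy0a (by
    have : ((q ^ Y : ℕ) : ℝ) ≤ ((q * (4 * P ^ (I₁ + n)) : ℕ) : ℝ) := by exact_mod_cast hYb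
    push_cast at this ⊢
    linarith)
  set X := XX c P I₁ (I₁ + n) S with hX
  have hX4 : 4 * X ≤ P ^ (I₁ + n) := XX_bound hP9 hc hS
  have hXdvd : P ^ I₁ ∣ X := pow_dvd_XX hS
  have hFX : F p X = c * n := F_XX hpc hP9 I₁ n S hS
  -- the residue
  set m₀ := MM L j - X % MM L j with hm₀
  have hmod : X % MM L j < MM L j := Nat.mod_lt _ hM0
  have hm₀1 : 1 ≤ m₀ := by omega
  have hm₀2 : m₀ ≤ MM L j := by omega
  have hMdvd : MM L j ∣ X + m₀ := by
    have h1 := Nat.div_add_mod X (MM L j)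
    refine ⟨X / MM L j + 1, ?_⟩
    rw [mul_add, mul_one]
    omega
  -- divisibility of `m₀` in base `p`
  have hvM : ∀ b, b = 2 ∨ b = 3 → b ^ vv L j b ∣ MM L j := by
    intro b hb
    rcases hb with rfl | rfl
    · unfold MM vv; simp
    · unfold MM vv; simp
  have hvp : p ^ vv L j p ∣ m₀ := by
    have h1 : p ^ vv L j p ∣ X + m₀ := (hvM p hpb).trans hMdvd
    have h2 : p ^ vv L j p ∣ X := by
      refine dvd_trans ?_ hXdvd
      have hle : p ^ vv L j p ≤ P ^ I₁ := by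
        have := Nat.le_of_dvd hM0 (hvM p hpb)
        have h4 : MM L j ≤ MZ := Nat.le_mul_of_pos_right _ hZ0
        omega
      rw [hP, ← pow_mul] at hle ⊢
      exact pow_dvd_pow _ ((Nat.pow_le_pow_iff_right (by omega : 1 < p)).1 hle)
    exact (Nat.dvd_add_right h2).1 h1
  have hvq : q ^ vv L j q ∣ X + m₀ := (hvM q hqb).trans hMdvd
  -- the parameter `T`
  set T := ⌊δ * L / 8⌋₊ with hT
  have hT1 : (T : ℝ) ≤ δ * L / 8 := Nat.floor_le (by positivity)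
  have hT2 : δ * L / 16 ≤ T := by
    have := Nat.lt_floor_add_one (δ * L / 8)
    rw [← hT] at this
    linarith
  -- the two concentration bounds
  obtain ⟨hvp', hc1⟩ := low_part hpb (j := j) (K := m * I₁) (A := m₀) (T := T) (C₀ := C₀) hj2 hvp
    (by rw [pow_mul, ← hP]; omega)
    (by
      rw [pow_mul, ← hP]
      refine hI1b.trans ?_
      rw [hC₀]
      calc P * (4 * MZ) = 4 * P * MZ := by ring
        _ ≤ 12 * P * MZ := by gcongr; norm_num)
    (by rw [hC₀]; omega)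
  obtain ⟨hvq', hc2⟩ := low_part hqb (j := j) (K := y₀) (A := X + m₀) (T := T) (C₀ := C₀) hj2 hvq
    (by omega)
    (by
      refine hy0b.trans ?_
      calc q * P ^ I₁ ≤ 3 * (P * (4 * MZ)) := Nat.mul_le_mul hq3 hI1b
        _ = C₀ * (MM L j * ZZ L) := by rw [hC₀, hMZ]; ring)
    (by rw [hC₀]; omega)
  -- existence of a good `z`
  have hTT : 32 * C₀ * A₂ * L < T ^ 2 := by
    have h1 : (δ * L / 16) ^ 2 ≤ (T : ℝ) ^ 2 := pow_le_pow_left₀ (by positivity) hT2 2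
    have h2 : (32 : ℝ) * C₀ * A₂ * L < (T : ℝ) ^ 2 := by
      have h3 : 32 * (C₀ : ℝ) * A₂ * 256 * L < δ ^ 2 * L * L := mul_lt_mul_of_pos_right hb3 hLpos
      nlinarith
    exact_mod_cast h2
  set bad1 := filter (fun z => 2 * (T : ℤ) <
    |2 * (cnt p 0 (m * I₁) (m₀ + MM L j * z) : ℤ) - (m * I₁ - vv L j p : ℕ)|) (range (ZZ L))
  set bad2 := filter (fun z => 2 * (T : ℤ) <
    |2 * (cnt q 0 y₀ (X + m₀ + MM L j * z) : ℤ) - (y₀ - vv L j q : ℕ)|) (range (ZZ L))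
  have hT0 : 0 < T ^ 2 := by omega
  have hbad : bad1.card + bad2.card < ZZ L := by
    have h1 : bad1.card * T ^ 2 ≤ 16 * C₀ * (A₂ * L) * ZZ L := by
      refine hc1.trans ?_
      gcongr
    have h2 : bad2.card * T ^ 2 ≤ 16 * C₀ * (A₂ * L) * ZZ L := by
      refine hc2.trans ?_
      gcongr
    have h3 : (bad1.card + bad2.card) * T ^ 2 < ZZ L * T ^ 2 := by
      calc (bad1.card + bad2.card) * T ^ 2 ≤ 16 * C₀ * (A₂ * L) * ZZ L + 16 * C₀ * (A₂ * L) * ZZ L := by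
            rw [add_mul]; exact Nat.add_le_add h1 h2
        _ = (32 * C₀ * A₂ * L) * ZZ L := by ring
        _ < T ^ 2 * ZZ L := Nat.mul_lt_mul_of_pos_right hTT hZ0
        _ = ZZ L * T ^ 2 := mul_comm _ _
    exact Nat.lt_of_mul_lt_mul_right h3
  obtain ⟨z, hz, hz1, hz2⟩ : ∃ z ∈ range (ZZ L), z ∉ bad1 ∧ z ∉ bad2 := by
    by_contra hcon
    push Not at hcon
    have hsub : range (ZZ L) ⊆ bad1 ∪ bad2 := by
      intro z hz
      rw [mem_union]
      by_cases h : z ∈ bad1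
      · exact Or.inl h
      · exact Or.inr (hcon z hz h)
    have := (card_le_card hsub).trans (card_union_le _ _)
    rw [card_range] at this
    omega
  have hz' := mem_range.1 hz
  have hz1' : |2 * (cnt p 0 (m * I₁) (m₀ + MM L j * z) : ℤ) - (m * I₁ - vv L j p : ℕ)| ≤
      2 * (T : ℤ) := by
    by_contra hcon
    exact hz1 (mem_filter.2 ⟨hz, not_le.1 hcon⟩)
  have hz2' : |2 * (cnt q 0 y₀ (X + m₀ + MM L j * z) : ℤ) - (y₀ - vv L j q : ℕ)| ≤
      2 * (T : ℤ) := by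
    by_contra hcon
    exact hz2 (mem_filter.2 ⟨hz, not_le.1 hcon⟩)
  -- the number
  set w₀ := m₀ + MM L j * z with hw₀
  have hw₀le : w₀ ≤ MZ := by
    have h1 : MM L j * z + MM L j ≤ MM L j * ZZ L := by
      rw [← Nat.mul_succ]; exact Nat.mul_le_mul_left _ hz'
    omega
  obtain ⟨w₁, hw₁⟩ := hMdvd
  have hN : X + w₀ = MM L j * (w₁ + z) := by rw [hw₀, ← add_assoc, hw₁]; ring
  have hw1pos : 0 < w₁ := by
    rcases Nat.eq_zero_or_pos w₁ with h0 | h0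
    · rw [h0, mul_zero] at hw₁; omega
    · exact h0
  refine ⟨w₁ + z, by omega, ?_, ?_⟩
  · -- base `p`
    rw [← hN]
    have hF : F p (X + w₀) = c * n + cnt p 0 (m * I₁) w₀ := by
      rw [F_add hpp (i := m * I₁) (by rw [pow_mul, ← hP]; exact hXdvd)
        (by rw [pow_mul, ← hP]; omega), hFX]
      congr 1
      apply F_eq_cnt hpp
      rw [pow_succ, pow_mul, ← hP]
      have : P ^ I₁ * 2 ≤ P ^ I₁ * p := Nat.mul_le_mul_left _ hp2
      omega
    rw [hF]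
    have h1 : |((2 * (cnt p 0 (m * I₁) w₀ : ℤ) - (m * I₁ - vv L j p : ℕ) : ℤ) : ℝ)| ≤
        ((2 * (T : ℤ) : ℤ) : ℝ) := by
      rw [← Int.cast_abs]; exact_mod_cast hz1'
    push_cast [Nat.cast_sub hvp'] at h1 ⊢
    have e : 2 * ((c : ℝ) * n + cnt p 0 (m * I₁) w₀) - (m * I₁ - vv L j p + 2 * c * n) =
        2 * (cnt p 0 (m * I₁) w₀ : ℝ) - (m * I₁ - vv L j p) := by ring
    rw [e]
    refine h1.trans ?_
    linarith
  · -- base `q`
    rw [← hN]
    have hF : F q (X + w₀) = cnt q 0 Y (X + w₀) := by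
      apply F_eq_cnt hqp
      rw [pow_succ]
      have : q ^ Y * 2 ≤ q ^ Y * q := Nat.mul_le_mul_left _ hq2
      omega
    rw [hF, cnt_gg (by omega) hyY]
    have h1 : |((2 * (cnt q 0 y₀ (X + m₀ + MM L j * z) : ℤ) - (y₀ - vv L j q : ℕ) : ℤ) : ℝ)| ≤
        ((2 * (T : ℤ) : ℤ) : ℝ) := by
      rw [← Int.cast_abs]; exact_mod_cast hz2'
    have hXw : X + m₀ + MM L j * z = X + w₀ := by rw [hw₀]; ring
    rw [hXw] at h1
    push_cast [Nat.cast_sub hvq'] at h1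
    have h2 := hweyl (Ioc y₀ Y) (fun y => ((X + w₀ : ℕ) : ℝ) / (q : ℝ) ^ y)
    rw [Nat.card_Ioc, Nat.cast_sub hyY] at h2
    have h3 : ∑ h ∈ Ioc 0 H, ‖∑ y ∈ Ioc y₀ Y, ee ((h : ℕ) * (((X + w₀ : ℕ) : ℝ) / (q : ℝ) ^ y))‖ ≤
        H * (δ / (8 * (C + 1) * (H + 1)) * L + 2 * π * H) := by
      have h4 : ∀ h ∈ Ioc 0 H,
          ‖∑ y ∈ Ioc y₀ Y, ee ((h : ℕ) * (((X + w₀ : ℕ) : ℝ) / (q : ℝ) ^ y))‖ ≤
            δ / (8 * (C + 1) * (H + 1)) * L + 2 * π * H := by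
        intro h hh
        refine (UU_perturb hq2 (by omega)).trans ?_
        apply add_le_add (hUU h hh)
        have : (h : ℝ) ≤ H := by exact_mod_cast (mem_Ioc.1 hh).2
        exact mul_le_mul_of_nonneg_left this (by positivity)
      refine (sum_le_sum h4).trans ?_
      rw [sum_const, Nat.card_Ioc, Nat.sub_zero, nsmul_eq_mul]
    have h5 : C * (H * (δ / (8 * (C + 1) * (H + 1)) * L + 2 * π * H)) ≤ δ * L / 8 + δ * L / 64 := by
      have e1 : C * (H * (δ / (8 * (C + 1) * (H + 1)) * L)) ≤ δ * L / 8 := by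
        have : C * (H * (δ / (8 * (C + 1) * (H + 1)) * L)) =
            (C / (C + 1)) * (H / (H + 1)) * (δ * L / 8) := by field_simp
        rw [this]
        have g1 : C / (C + 1) ≤ 1 := by rw [div_le_one (by positivity)]; linarith
        have g2 : (H : ℝ) / (H + 1) ≤ 1 := by rw [div_le_one (by positivity)]; linarith
        have g3 : 0 ≤ C / (C + 1) := by positivity
        have g4 : (0 : ℝ) ≤ (H : ℝ) / (H + 1) := by positivity
        have g5 : C / (C + 1) * (H / (H + 1)) ≤ 1 * 1 := mul_le_mul g1 g2 g4 zero_le_one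
        calc _ ≤ 1 * 1 * (δ * L / 8) := mul_le_mul_of_nonneg_right g5 (by positivity)
          _ = _ := by ring
      have e2 : C * (H * (2 * π * H)) ≤ δ * L / 64 := by linarith
      calc _ = C * (H * (δ / (8 * (C + 1) * (H + 1)) * L)) + C * (H * (2 * π * H)) := by ring
        _ ≤ _ := add_le_add e1 e2
    have h6 : δ / (8 * A₁) * ((Y : ℝ) - y₀) ≤ δ * L / 8 := by
      have hYR : (Y : ℝ) - y₀ ≤ A₁ * L := by
        have : (Y : ℝ) ≤ y₀ + A₁ * L := by exact_mod_cast hYA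
        linarith
      have hA0 : (0 : ℝ) < A₁ := by rw [hA₁]; positivity
      calc δ / (8 * A₁) * ((Y : ℝ) - y₀) ≤ δ / (8 * A₁) * (A₁ * L) :=
            mul_le_mul_of_nonneg_left hYR (by positivity)
        _ = δ * L / 8 := by field_simp
    have h7 := mul_le_mul_of_nonneg_left h3 hC
    have h8 : |∑ y ∈ Ioc y₀ Y, gg (((X + w₀ : ℕ) : ℝ) / (q : ℝ) ^ y) - ((Y : ℝ) - y₀) / 2| ≤
        δ * L / 8 + (δ * L / 8 + δ * L / 64) := by
      refine h2.trans ?_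
      exact add_le_add h6 (h7.trans h5)
    rw [abs_le] at h1 h8 ⊢
    constructor
    · linarith [h1.1, h8.1]
    · linarith [h1.2, h8.2]

end Pool.Agent.H58.Cat
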