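import Pool.Agent.H58.Cat.Fast

/-!
The explicit small boxes, up to `Box 80000 1975 1235 5000`.
-/

namespace Pool.Agent.H58.Cat

open Finset

/-- do the intervals `[a, a + r]`, for the listed `a`, cover `[lo, hi]`? -/
def cover (r : ℕ) : ℕ → List ℕ → ℕ → Bool
  | lo, [], hi => decide (hi < lo)
  | lo, a :: l, hi => decide (a ≤ lo) && cover r (max lo (a + r + 1)) l hi

theorem cover_sound {r lo hi : ℕ} {l : List ℕ} (h : cover r lo l hi = true) :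
    ∀ k, lo ≤ k → k ≤ hi → ∃ a ∈ l, a ≤ k ∧ k ≤ a + r := by
  induction l generalizing lo with
  | nil =>
    intro k h1 h2
    simp only [cover, decide_eq_true_eq] at h
    omega
  | cons a l ih =>
    intro k h1 h2
    simp only [cover, Bool.and_eq_true, decide_eq_true_eq] at h
    by_cases hk : k ≤ a + r
    · exact ⟨a, by simp, by omega, hk⟩
    · obtain ⟨b, hb, hb1, hb2⟩ := ih h.2 k (by omega) h2
      exact ⟨b, by simp [hb], hb1, hb2⟩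

theorem box_explicit {L u v r L' u' v' r' sJ : ℕ} (J I : List (ℕ × ℕ)) (h : Box L u v r)
    (hJ : ∀ p ∈ J, 2 ^ (L + 1) ≤ 3 ^ p.1 ∧ 3 ^ p.1 ≤ 2 ^ sJ ∧ F 2 (3 ^ p.1) = p.2)
    (hI : ∀ p ∈ I, L + 1 ≤ p.1 ∧ p.1 + sJ + 1 ≤ L' ∧ F 3 (2 ^ p.1) = p.2)
    (cJ : cover r u' (J.map (fun p => u + p.2)) (u' + r') = true)
    (cI : cover r v' (I.map (fun p => v + p.2)) (v' + r') = true) : Box L' u' v' r' := by
  intro k₁ k₂ h1 h1' h2 h2'
  obtain ⟨a, ha, ha1, ha2⟩ := cover_sound cJ k₁ h1 h1'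
  obtain ⟨b, hb, hb1, hb2⟩ := cover_sound cI k₂ h2 h2'
  rw [List.mem_map] at ha hb
  obtain ⟨p, hp, rfl⟩ := ha
  obtain ⟨q, hq, rfl⟩ := hb
  obtain ⟨p1, p2, p3⟩ := hJ p hp
  obtain ⟨q1, q2, q3⟩ := hI q hq
  obtain ⟨e, he, he3, he1, he2⟩ := h (k₁ - p.2) (k₂ - q.2) (by omega) (by omega) (by omega)
    (by omega)
  have hj0 : 0 < p.1 := by
    rcases Nat.eq_zero_or_pos p.1 with h0 | h0
    · rw [h0, pow_zero] at p1
      have : 1 < 2 ^ (L + 1) := Nat.one_lt_two_pow (by omega)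
      omega
    · exact h0
  obtain ⟨c1, c2, c3⟩ := combine (w := 1) q1 p1 hj0 he he3
  refine ⟨2 ^ q.1 * 3 ^ p.1 * 1 + e, ?_, c1, ?_, ?_⟩
  · have e1 : 2 ^ q.1 * 3 ^ p.1 ≤ 2 ^ (q.1 + sJ) := by
      rw [pow_add]; exact Nat.mul_le_mul_left _ p2
    have e2 : 2 ^ L ≤ 2 ^ (q.1 + sJ) := Nat.pow_le_pow_right (by norm_num) (by omega)
    have e3 : 2 ^ (q.1 + sJ + 1) ≤ 2 ^ L' := Nat.pow_le_pow_right (by norm_num) q2
    rw [pow_succ] at e3
    omega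
  · rw [c2, mul_one, p3, he1]; omega
  · rw [c3, mul_one, q3, he2]; omega

theorem box_mono {L L' u v r : ℕ} (hL : L ≤ L') (h : Box L u v r) : Box L' u v r := by
  intro k₁ k₂ h1 h1' h2 h2'
  obtain ⟨e, he, h3⟩ := h k₁ k₂ h1 h1' h2 h2'
  exact ⟨e, lt_of_lt_of_le he (Nat.pow_le_pow_right (by norm_num) hL), h3⟩

def tab : List (List ℕ) := [
  [3, 6, 24, 129, 132, 4104, 4098, 4128, 16512, 131136, 98304, 524544],
  [81, 21, 138, 42, 642, 1284, 1104, 4101, 16404, 32802, 266244, 327696],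
  [27, 54, 15, 51, 150, 393, 1122, 4290, 12300, 32775, 98322, 266784],
  [93, 87, 339, 186, 213, 618, 1095, 4119, 10824, 36906, 98385, 266532],
  [111, 63, 183, 126, 123, 366, 1131, 3282, 9924, 30336, 88584, 265731],
  [351, 747, 687, 381, 477, 375, 1374, 3399, 9870, 29769, 88656, 265749],
  [255, 495, 507, 510, 639, 447, 1455, 3291, 9843, 29616, 88602, 265758],
  [3006, 3003, 2037, 1407, 1527, 1887, 3453, 4011, 10815, 29526, 88665, 266055],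
  [2943, 1791, 1983, 1023, 2559, 3327, 3579, 4047, 9951, 29562, 88683, 265722],
  [19935, 7551, 6111, 6141, 6015, 8151, 5631, 12219, 12030, 29535, 88926, 267999],
  [20415, 7167, 8190, 8187, 8175, 14319, 4095, 12279, 31227, 31740, 88827, 272319],
  [79743, 48123, 22527, 30711, 24447, 32247, 30207, 30591, 32631, 56823, 88575, 286143]]

def tabGet (a b : ℕ) : ℕ := (tab.getD a []).getD b 0

set_option maxRecDepth 100000 in
theorem tab_check : ∀ a < 12, ∀ b < 12, tabGet a b < 2 ^ 20 ∧ tabGet a b % 3 = 0 ∧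
    fc 2 5 0 (tabGet a b) = a + 2 ∧ fc 3 4 0 (tabGet a b) = b := by
  decide +kernel

theorem box0 : Box 20 2 0 11 := by
  intro k₁ k₂ h1 h1' h2 h2'
  obtain ⟨c1, c2, c3, c4⟩ := tab_check (k₁ - 2) (by omega) k₂ (by omega)
  refine ⟨tabGet (k₁ - 2) k₂, c1, Nat.dvd_of_mod_eq_zero c2, ?_, ?_⟩
  · rw [F_eq_fc Nat.prime_two (k := 5), c3]
    · omega
    · norm_num at c1 ⊢; omega
  · rw [F_eq_fc Nat.prime_three (k := 4), c4]
    norm_num at c1 ⊢; omega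

theorem checkJ {L sJ k : ℕ} (J : List (ℕ × ℕ))
    (h : ∀ p ∈ J, 2 ^ (L + 1) ≤ 3 ^ p.1 ∧ 3 ^ p.1 ≤ 2 ^ sJ ∧ 2 * 3 ^ p.1 < 2 ^ (2 ^ k + 1) ∧
      fc 2 k 0 (3 ^ p.1) = p.2) :
    ∀ p ∈ J, 2 ^ (L + 1) ≤ 3 ^ p.1 ∧ 3 ^ p.1 ≤ 2 ^ sJ ∧ F 2 (3 ^ p.1) = p.2 := by
  intro p hp
  obtain ⟨h1, h2, h3, h4⟩ := h p hp
  exact ⟨h1, h2, by rw [F_eq_fc Nat.prime_two h3, h4]⟩

theorem checkI {L L' sJ k : ℕ} (I : List (ℕ × ℕ))
    (h : ∀ p ∈ I, L + 1 ≤ p.1 ∧ p.1 + sJ + 1 ≤ L' ∧ 2 * 2 ^ p.1 < 3 ^ (2 ^ k + 1) ∧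
      fc 3 k 0 (2 ^ p.1) = p.2) :
    ∀ p ∈ I, L + 1 ≤ p.1 ∧ p.1 + sJ + 1 ≤ L' ∧ F 3 (2 ^ p.1) = p.2 := by
  intro p hp
  obtain ⟨h1, h2, h3, h4⟩ := h p hp
  exact ⟨h1, h2, by rw [F_eq_fc Nat.prime_three h3, h4]⟩

def J1 : List (ℕ × ℕ) := [(14, 14), (31, 26), (42, 38), (62, 49), (84, 61), (91, 73), (100, 85)]
def I1 : List (ℕ × ℕ) := [(21, 10), (66, 22), (94, 34), (125, 46), (142, 57), (195, 69), (237, 81)]
def J2 : List (ℕ × ℕ) := [(252, 200), (336, 279), (446, 360), (560, 440), (635, 521), (727, 601), (822, 682), (966, 763)]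
def I2 : List (ℕ × ℕ) := [(398, 109), (540, 190), (769, 271), (1051, 352), (1336, 433), (1610, 514), (1790, 595), (2025, 676)]
def J3 : List (ℕ × ℕ) := [(2246, 1759), (2970, 2380), (3791, 3001), (4625, 3622), (5324, 4243), (6241, 4862), (6876, 5483), (7719, 6104), (8458, 6723)]
def I3 : List (ℕ × ℕ) := [(3559, 1116), (5520, 1737), (7669, 2358), (9446, 2979), (11232, 3600), (13623, 4221), (15107, 4842), (16944, 5463), (18993, 6084)]

set_option maxRecDepth 100000 in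
theorem box1 : Box 397 16 10 80 := by
  apply box_explicit (sJ := 159) J1 I1 box0
  · exact checkJ (k := 8) J1 (by decide +kernel)
  · exact checkI (k := 8) I1 (by decide +kernel)
  · decide +kernel
  · decide +kernel

set_option maxRecDepth 100000 in
theorem box2 : Box 3558 216 119 620 := by
  apply box_explicit (sJ := 1532) J2 I2 box1
  · exact checkJ (k := 11) J2 (by decide +kernel)
  · exact checkI (k := 11) I2 (by decide +kernel)
  · decide +kernel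
  · decide +kernel

set_option maxRecDepth 100000 in
theorem c3J : ∀ p ∈ J3, 2 ^ (3558 + 1) ≤ 3 ^ p.1 ∧ 3 ^ p.1 ≤ 2 ^ 13406 ∧
    2 * 3 ^ p.1 < 2 ^ (2 ^ 14 + 1) ∧ fc 2 14 0 (3 ^ p.1) = p.2 := by decide +kernel

set_option maxRecDepth 100000 in
theorem c3I : ∀ p ∈ I3, 3558 + 1 ≤ p.1 ∧ p.1 + 13406 + 1 ≤ 32400 ∧
    2 * 2 ^ p.1 < 3 ^ (2 ^ 14 + 1) ∧ fc 3 14 0 (2 ^ p.1) = p.2 := by decide +kernel

set_option maxRecDepth 100000 in
theorem box3 : Box 32400 1975 1235 5000 :=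
  box_explicit (sJ := 13406) J3 I3 box2 (checkJ (k := 14) J3 c3J) (checkI (k := 14) I3 c3I)
    (by decide +kernel) (by decide +kernel)

/-- Boxes of proportional size at arbitrarily large scales. -/
theorem box_all (m : ℕ) : ∃ u v, Box (80 * (1000 * 10 ^ m)) u v (5 * (1000 * 10 ^ m)) := by
  induction m with
  | zero => exact ⟨1975, 1235, box_mono (by norm_num) box3⟩
  | succ m ih =>
    obtain ⟨u, v, h⟩ := ih
    have h1 : 1000 ≤ 1000 * 10 ^ m := Nat.le_mul_of_pos_right _ (by positivity)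
    obtain ⟨u', v', h'⟩ := box_step h1 h
    refine ⟨u', v', ?_⟩
    rw [pow_succ]
    convert h' using 1 <;> ring

end Pool.Agent.H58.Cat
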