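import Mathlib

/-!
Carry counts in base `b` for the addition `x + x`.
-/

namespace Pool.Agent.H58.Cat

open Finset

/-- number of `k` in `1..K` with `b ^ k ≤ 2 * (x mod b ^ k) + c` -/
def cnt (b c K x : ℕ) : ℕ := ∑ k ∈ range K, if b ^ (k + 1) ≤ 2 * (x % b ^ (k + 1)) + c then 1 else 0

theorem cnt_zero (b c x : ℕ) : cnt b c 0 x = 0 := by simp [cnt]

theorem cnt_mod {b c K x y : ℕ} (h : x % b ^ K = y % b ^ K) : cnt b c K x = cnt b c K y := by
  unfold cnt
  apply sum_congr rfl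
  intro k hk
  have hk' : k + 1 ≤ K := by simpa [Nat.succ_le_iff] using hk
  have hd : b ^ (k + 1) ∣ b ^ K := pow_dvd_pow b hk'
  have : x % b ^ (k + 1) = y % b ^ (k + 1) := by
    rw [← Nat.mod_mod_of_dvd x hd, ← Nat.mod_mod_of_dvd y hd, h]
  rw [this]

theorem cnt_le (b c K x : ℕ) : cnt b c K x ≤ K := by
  unfold cnt
  calc _ ≤ ∑ k ∈ range K, 1 := by
        apply sum_le_sum; intro k _; split_ifs <;> omega
    _ = K := by simp

/-- splitting at position `K₁` -/
theorem cnt_add {b : ℕ} (hb : 0 < b) (c K₁ K₂ x : ℕ) :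
    cnt b c (K₁ + K₂) x =
      cnt b c K₁ x + cnt b ((2 * (x % b ^ K₁) + c) / b ^ K₁) K₂ (x / b ^ K₁) := by
  unfold cnt
  rw [sum_range_add]
  congr 1
  apply sum_congr rfl
  intro k _
  have hpos : 0 < b ^ K₁ := pow_pos hb _
  have h1 : x % b ^ (K₁ + k + 1) = x % b ^ K₁ + b ^ K₁ * ((x / b ^ K₁) % b ^ (k + 1)) := by
    rw [add_assoc, pow_add, Nat.mod_mul]
  have h2 : (b ^ (K₁ + k + 1) ≤ 2 * (x % b ^ (K₁ + k + 1)) + c) ↔
      (b ^ (k + 1) ≤ 2 * (x / b ^ K₁ % b ^ (k + 1)) + (2 * (x % b ^ K₁) + c) / b ^ K₁) := by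
    rw [h1]
    have h3 : 2 * (x % b ^ K₁ + b ^ K₁ * ((x / b ^ K₁) % b ^ (k + 1))) + c =
        (2 * (x % b ^ K₁) + c) + b ^ K₁ * (2 * ((x / b ^ K₁) % b ^ (k + 1))) := by ring
    rw [h3]
    have h4 : (2 * (x % b ^ K₁) + c + b ^ K₁ * (2 * (x / b ^ K₁ % b ^ (k + 1)))) / b ^ K₁ =
        (2 * (x % b ^ K₁) + c) / b ^ K₁ + 2 * (x / b ^ K₁ % b ^ (k + 1)) :=
      Nat.add_mul_div_left _ _ hpos
    rw [show b ^ (K₁ + k + 1) = b ^ (k + 1) * b ^ K₁ by rw [add_assoc, pow_add]; ring]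
    rw [← Nat.le_div_iff_mul_le hpos, h4]
    omega
  rw [if_congr h2 rfl rfl]

/-- the count for all positions, i.e. the `b`-adic valuation of the central binomial coefficient -/
theorem cnt_stable {b : ℕ} (hb : 0 < b) {K K' x : ℕ} (h : 2 * x < b ^ (K + 1)) (hK : K ≤ K') :
    cnt b 0 K' x = cnt b 0 K x := by
  obtain ⟨m, rfl⟩ := Nat.exists_eq_add_of_le hK
  unfold cnt
  rw [sum_range_add]
  simp only [Nat.add_eq_left]
  apply sum_eq_zero
  intro k _
  rw [if_neg]
  have h1 : x % b ^ (K + k + 1) ≤ x := Nat.mod_le _ _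
  have h2 : b ^ (K + 1) ≤ b ^ (K + k + 1) := Nat.pow_le_pow_right hb (by omega)
  omega

/-- The `b`-adic valuation of the central binomial coefficient of `x`. -/
def F (b x : ℕ) : ℕ := padicValNat b (Nat.centralBinom x)

theorem F_eq_cnt {b : ℕ} (hb : b.Prime) {K x : ℕ} (h : 2 * x < b ^ (K + 1)) :
    F b x = cnt b 0 K x := by
  have : Fact b.Prime := ⟨hb⟩
  unfold F
  rw [Nat.centralBinom_eq_two_mul_choose]
  rw [two_mul]
  rw [padicValNat_choose' (b := K + 1)]
  · unfold cnt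
    rw [card_filter, Finset.sum_Ico_eq_sum_range]
    apply sum_congr (by simp)
    intro k _
    rw [add_comm 1 k, two_mul, add_zero]
  · rw [← two_mul]
    rcases Nat.eq_zero_or_pos x with rfl | hx
    · simp
    · exact Nat.log_lt_of_lt_pow (by omega) h

theorem two_mul_lt_pow {b : ℕ} (hb : 2 ≤ b) (x : ℕ) : 2 * x < b ^ (2 * x + 1) := by
  calc 2 * x < 2 ^ (2 * x) := Nat.lt_two_pow_self
    _ ≤ b ^ (2 * x) := Nat.pow_le_pow_left hb _
    _ ≤ b ^ (2 * x + 1) := Nat.pow_le_pow_right (by omega) (by omega)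

/-- additivity -/
theorem F_add {b : ℕ} (hb : b.Prime) {i N e : ℕ} (hN : b ^ i ∣ N) (he : 2 * e < b ^ i) :
    F b (N + e) = F b N + F b e := by
  have hb0 : 0 < b := hb.pos
  have hpos : 0 < b ^ i := pow_pos hb0 _
  have hbig : 2 * (N + e) < b ^ (i + 2 * (N + e) + 1) := by
    calc 2 * (N + e) < b ^ (2 * (N + e) + 1) := two_mul_lt_pow hb.two_le _
      _ ≤ _ := Nat.pow_le_pow_right hb0 (by omega)
  rw [F_eq_cnt hb hbig, F_eq_cnt hb (K := i + 2 * (N + e)) (x := N) (by omega),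
    F_eq_cnt hb (K := i) (x := e) (by
      calc 2 * e < b ^ i := he
        _ ≤ _ := Nat.pow_le_pow_right hb0 (by omega))]
  rw [cnt_add hb0, cnt_add hb0]
  obtain ⟨M, rfl⟩ := hN
  have h1 : (b ^ i * M + e) % b ^ i = e % b ^ i := by simp [Nat.add_mod]
  have h2 : (b ^ i * M + e) / b ^ i = M := by
    rw [Nat.mul_add_div hpos, Nat.div_eq_of_lt (by omega)]; rfl
  have h3 : (b ^ i * M) / b ^ i = M := Nat.mul_div_cancel_left _ hpos
  have h4 : (b ^ i * M) % b ^ i = 0 := Nat.mul_mod_right _ _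
  have h5 : e % b ^ i = e := Nat.mod_eq_of_lt (by omega)
  have h6 : cnt b 0 i (b ^ i * M) = 0 := by
    unfold cnt
    apply sum_eq_zero
    intro k hk
    rw [if_neg]
    have hk' : k + 1 ≤ i := by simpa [Nat.succ_le_iff] using hk
    have : b ^ i * M % b ^ (k + 1) = 0 := by
      apply Nat.mod_eq_zero_of_dvd
      exact Dvd.dvd.mul_right (pow_dvd_pow b hk') _
    rw [this]
    have := pow_pos hb0 (k + 1)
    omega
  rw [cnt_mod (x := b ^ i * M + e) (y := e) h1, h1, h2, h3, h4, h5, h6]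
  have h7 : (2 * e + 0) / b ^ i = 0 := Nat.div_eq_of_lt (by omega)
  have h8 : (2 * 0 + 0) / b ^ i = 0 := by simp
  rw [h7, h8]
  omega

/-- multiplying by the base does not change the count -/
theorem F_pow_mul {b : ℕ} (hb : b.Prime) (v x : ℕ) : F b (b ^ v * x) = F b x := by
  have hb0 : 0 < b := hb.pos
  have hpos : 0 < b ^ v := pow_pos hb0 _
  have hK : 2 * x < b ^ (2 * x + 1) := two_mul_lt_pow hb.two_le _
  rw [F_eq_cnt hb (K := v + 2 * x) (x := b ^ v * x), F_eq_cnt hb hK, cnt_add hb0]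
  · have h4 : (b ^ v * x) % b ^ v = 0 := Nat.mul_mod_right _ _
    have h3 : (b ^ v * x) / b ^ v = x := Nat.mul_div_cancel_left _ hpos
    have h6 : cnt b 0 v (b ^ v * x) = 0 := by
      unfold cnt
      apply sum_eq_zero
      intro k hk
      rw [if_neg]
      have hk' : k + 1 ≤ v := by simpa [Nat.succ_le_iff] using hk
      have : b ^ v * x % b ^ (k + 1) = 0 := by
        apply Nat.mod_eq_zero_of_dvd
        exact Dvd.dvd.mul_right (pow_dvd_pow b hk') _
      rw [this]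
      have := pow_pos hb0 (k + 1)
      omega
    rw [h4, h3, h6]
    simp
  · rw [add_assoc, pow_add]
    calc 2 * (b ^ v * x) = b ^ v * (2 * x) := by ring
      _ < b ^ v * b ^ (2 * x + 1) := Nat.mul_lt_mul_of_pos_left hK hpos

/-- The link with the Catalan numbers. -/
theorem catalan_link {n : ℕ} (h3 : 3 ∣ n + 1) :
    padicValNat 2 (catalan n) + 1 = F 2 (n + 1) ∧ padicValNat 3 (catalan n) = F 3 (n + 1) := by
  have i2 : Fact (Nat.Prime 2) := ⟨Nat.prime_two⟩
  have i3 : Fact (Nat.Prime 3) := ⟨Nat.prime_three⟩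
  have h1 := succ_mul_catalan_eq_centralBinom n
  have h2 := Nat.succ_mul_centralBinom_succ n
  have h4 : Nat.centralBinom (n + 1) = 2 * (2 * n + 1) * catalan n := by
    have : (n + 1) * Nat.centralBinom (n + 1) = (n + 1) * (2 * (2 * n + 1) * catalan n) := by
      rw [h2, ← h1]; ring
    exact Nat.eq_of_mul_eq_mul_left (Nat.succ_pos n) this
  have hc : catalan n ≠ 0 := by
    intro h0
    rw [h0] at h4
    have := Nat.centralBinom_pos (n + 1)
    omega
  have hn : (2 * n + 1) ≠ 0 := by omega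
  unfold F
  rw [h4]
  constructor
  · rw [padicValNat.mul (by omega) hc, padicValNat.mul (by norm_num) hn, padicValNat_self,
      padicValNat.eq_zero_of_not_dvd (by omega : ¬ 2 ∣ 2 * n + 1)]
    omega
  · rw [padicValNat.mul (by omega) hc, padicValNat.mul (by norm_num) hn,
      padicValNat.eq_zero_of_not_dvd (by omega : ¬ 3 ∣ 2 * n + 1),
      padicValNat.eq_zero_of_not_dvd (by norm_num : ¬ 3 ∣ 2)]
    omega

end Pool.Agent.H58.Cat
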