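import Pool.Agent.H58.Cat.Moment

namespace Pool.Agent.H58.Cat

open Finset

theorem sum_fiber_le {S : Finset ℕ} {g : ℕ → ℕ} {N : ℕ} {C : ℕ} {f : ℕ → ℤ}
    (hg : ∀ z ∈ S, g z < N) (hC : ∀ v, v < N → #{z ∈ S | g z = v} ≤ C) (hf : ∀ v, 0 ≤ f v) :
    ∑ z ∈ S, f (g z) ≤ C * ∑ v ∈ range N, f v := by
  rw [← sum_fiberwise_of_maps_to (t := range N) (g := g) (fun z hz => mem_range.2 (hg z hz))]
  rw [mul_sum]
  apply sum_le_sum
  intro v hv
  have h1 : ∑ z ∈ S with g z = v, f (g z) = ∑ z ∈ S with g z = v, f v := by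
    apply sum_congr rfl
    intro z hz
    rw [(mem_filter.1 hz).2]
  rw [h1, sum_const, nsmul_eq_mul]
  apply mul_le_mul_of_nonneg_right _ (hf v)
  exact_mod_cast hC v (mem_range.1 hv)

theorem dev_mod (b c K x : ℕ) : dev b c K (x % b ^ K) = dev b c K x := by
  unfold dev
  rw [cnt_mod (Nat.mod_mod _ _)]

theorem dev_add {b : ℕ} (hb : 0 < b) (c K₁ K₂ x : ℕ) :
    dev b c (K₁ + K₂) x =
      dev b c K₁ x + dev b ((2 * (x % b ^ K₁) + c) / b ^ K₁) K₂ (x / b ^ K₁) := by
  unfold dev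
  rw [cnt_add hb]
  push_cast
  ring

/-- The basic concentration inequality. -/
theorem conc {b : ℕ} (hb : b = 2 ∨ b = 3) (S : Finset ℕ) (X : ℕ → ℕ) (κ n cl ch : ℕ) (T : ℕ)
    (hl : ∀ v, v < b ^ κ → #{z ∈ S | X z % b ^ κ = v} ≤ cl)
    (hh : ∀ v, v < b ^ n → #{z ∈ S | X z / b ^ κ % b ^ n = v} ≤ ch) :
    (#{z ∈ S | 2 * (T : ℤ) < |dev b 0 (κ + n) (X z)|} : ℤ) * T ^ 2 ≤
      cl * (((b - 1 : ℕ) : ℤ) * κ * b ^ κ) + 2 * (ch * (((b - 1 : ℕ) : ℤ) * n * b ^ n)) := by
  have hb0 : 0 < b := by rcases hb with rfl | rfl <;> norm_num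
  have hpκ : 0 < b ^ κ := pow_pos hb0 _
  have hpn : 0 < b ^ n := pow_pos hb0 _
  have s1 : ∑ z ∈ S, dev b 0 κ (X z % b ^ κ) ^ 2 ≤ cl * (((b - 1 : ℕ) : ℤ) * κ * b ^ κ) := by
    refine (sum_fiber_le (g := fun z => X z % b ^ κ) (f := fun v => dev b 0 κ v ^ 2)
      (fun z _ => Nat.mod_lt _ hpκ) hl (fun v => sq_nonneg _)).trans ?_
    apply mul_le_mul_of_nonneg_left (second hb (by norm_num) κ)
    positivity
  have s2 : ∀ c, c ≤ 1 → ∑ z ∈ S, dev b c n (X z / b ^ κ % b ^ n) ^ 2 ≤
      ch * (((b - 1 : ℕ) : ℤ) * n * b ^ n) := by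
    intro c hc
    refine (sum_fiber_le (g := fun z => X z / b ^ κ % b ^ n) (f := fun v => dev b c n v ^ 2)
      (fun z _ => Nat.mod_lt _ hpn) hh (fun v => sq_nonneg _)).trans ?_
    apply mul_le_mul_of_nonneg_left (second hb hc n)
    positivity
  have key : ∀ z ∈ S, (if 2 * (T : ℤ) < |dev b 0 (κ + n) (X z)| then (T : ℤ) ^ 2 else 0) ≤
      dev b 0 κ (X z % b ^ κ) ^ 2 + dev b 0 n (X z / b ^ κ % b ^ n) ^ 2 +
        dev b 1 n (X z / b ^ κ % b ^ n) ^ 2 := by
    intro z _
    split_ifs with h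
    · rw [dev_mod, dev_mod, dev_mod]
      rw [dev_add hb0] at h
      set c' := (2 * (X z % b ^ κ) + 0) / b ^ κ with hc'
      have hc1 : c' ≤ 1 := by
        have : X z % b ^ κ < b ^ κ := Nat.mod_lt _ hpκ
        have : c' < 2 := by
          rw [hc']
          apply Nat.div_lt_of_lt_mul
          omega
        omega
      have habs : 2 * (T : ℤ) < |dev b 0 κ (X z)| + |dev b c' n (X z / b ^ κ)| :=
        lt_of_lt_of_le h (abs_add_le _ _)
      have hcase : (T : ℤ) ≤ |dev b 0 κ (X z)| ∨ (T : ℤ) ≤ |dev b c' n (X z / b ^ κ)| := by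
        by_contra hcon
        rw [not_or, not_le, not_le] at hcon
        linarith [hcon.1, hcon.2]
      have hT : (0 : ℤ) ≤ T := by positivity
      rcases hcase with h1 | h1
      · have : (T : ℤ) ^ 2 ≤ dev b 0 κ (X z) ^ 2 := by
          rw [← sq_abs (dev b 0 κ (X z))]
          exact pow_le_pow_left₀ hT h1 2
        nlinarith [sq_nonneg (dev b 0 n (X z / b ^ κ)), sq_nonneg (dev b 1 n (X z / b ^ κ))]
      · have h2 : (T : ℤ) ^ 2 ≤ dev b c' n (X z / b ^ κ) ^ 2 := by
          rw [← sq_abs (dev b c' n (X z / b ^ κ))]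
          exact pow_le_pow_left₀ hT h1 2
        have hc01 : c' = 0 ∨ c' = 1 := Nat.le_one_iff_eq_zero_or_eq_one.1 hc1
        rcases hc01 with h0 | h0 <;> rw [h0] at h2 <;>
        nlinarith [sq_nonneg (dev b 0 n (X z / b ^ κ)), sq_nonneg (dev b 1 n (X z / b ^ κ)),
          sq_nonneg (dev b 0 κ (X z))]
    · positivity
  calc (#{z ∈ S | 2 * (T : ℤ) < |dev b 0 (κ + n) (X z)|} : ℤ) * T ^ 2
      = ∑ z ∈ S, (if 2 * (T : ℤ) < |dev b 0 (κ + n) (X z)| then (T : ℤ) ^ 2 else 0) := by
        rw [← sum_filter, sum_const, nsmul_eq_mul]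
    _ ≤ ∑ z ∈ S, (dev b 0 κ (X z % b ^ κ) ^ 2 + dev b 0 n (X z / b ^ κ % b ^ n) ^ 2 +
        dev b 1 n (X z / b ^ κ % b ^ n) ^ 2) := sum_le_sum key
    _ ≤ _ := by
        rw [sum_add_distrib, sum_add_distrib]
        have := s2 0 (by norm_num)
        have := s2 1 (by norm_num)
        linarith

/-- a set of pairwise congruent numbers below `Z` -/
theorem card_congr_le {Z N : ℕ} (P : ℕ → Prop) [DecidablePred P]
    (h : ∀ z w, P z → P w → z % N = w % N) :
    #{z ∈ range Z | P z} ≤ (Z - 1) / N + 1 := by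
  rw [← card_range ((Z - 1) / N + 1)]
  apply card_le_card_of_injOn (fun z => z / N)
  · intro z hz
    simp only [coe_filter, mem_range, Set.mem_ofPred_eq] at hz
    simp only [coe_range, Set.mem_Iio]
    have : z / N ≤ (Z - 1) / N := Nat.div_le_div_right (by omega)
    omega
  · intro z hz w hw hzw
    simp only [coe_filter, mem_range, Set.mem_ofPred_eq] at hz hw
    have := h z w hz.2 hw.2
    have hzw' : z / N = w / N := hzw
    rw [← Nat.div_add_mod z N, ← Nat.div_add_mod w N, hzw', this]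

theorem mult_low {A B N Z v : ℕ} (_hN : 0 < N) (hB : Nat.Coprime B N) :
    #{z ∈ range Z | (A + B * z) % N = v} ≤ (Z - 1) / N + 1 := by
  apply card_congr_le
  intro z w hz hw
  have h1 : A + B * z ≡ A + B * w [MOD N] := by
    unfold Nat.ModEq; rw [hz, hw]
  have h2 : B * z ≡ B * w [MOD N] := Nat.ModEq.add_left_cancel' A h1
  exact Nat.ModEq.cancel_left_of_coprime (by rw [Nat.gcd_comm]; exact hB) h2

theorem mult_fix {A B N Z u : ℕ} (hN : 0 < N) (hB : 0 < B) :
    #{z ∈ range Z | (A + B * z) / N = u} ≤ N / B + 1 := by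
  by_cases hne : (filter (fun z => (A + B * z) / N = u) (range Z)).Nonempty
  · set S := filter (fun z => (A + B * z) / N = u) (range Z) with hS
    set z0 := S.min' hne with hz0
    rw [← card_range (N / B + 1)]
    have hz0m : (A + B * z0) / N = u := (mem_filter.1 (S.min'_mem hne)).2
    apply card_le_card_of_injOn (fun z => z - z0)
    · intro z hz
      have hz' : (A + B * z) / N = u := (mem_filter.1 (Finset.mem_coe.1 hz)).2
      have hle : z0 ≤ z := S.min'_le z (Finset.mem_coe.1 hz)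
      simp only [coe_range, Set.mem_Iio]
      have h1 : A + B * z < N * u + N := by
        have := Nat.lt_mul_div_succ (A + B * z) hN
        rw [hz'] at this
        linarith [this, Nat.mul_succ N u]
      have h2 : N * u ≤ A + B * z0 := by
        have := Nat.mul_div_le (A + B * z0) N
        rwa [hz0m] at this
      have h3 : B * (z - z0) < N := by
        have : B * (z - z0) = B * z - B * z0 := Nat.mul_sub B z z0
        have : B * z0 ≤ B * z := Nat.mul_le_mul_left B hle
        omega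
      have h4 : z - z0 ≤ N / B := by
        rw [Nat.le_div_iff_mul_le hB, mul_comm]
        exact h3.le
      omega
    · intro z hz w hw hzw
      have hz' : z0 ≤ z := S.min'_le z (Finset.mem_coe.1 hz)
      have hw' : z0 ≤ w := S.min'_le w (Finset.mem_coe.1 hw)
      have : z - z0 = w - z0 := hzw
      omega
  · rw [not_nonempty_iff_eq_empty] at hne
    rw [hne]
    simp

theorem mult_high {A B N R Z v : ℕ} (hN : 0 < N) (hB : 0 < B) (hR : 0 < R) (hZ : B * Z ≤ N * R) :
    #{z ∈ range Z | (A + B * z) / N % R = v} ≤ 2 * (N / B + 1) := by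
  set t := A / (N * R) with ht
  have hsub : filter (fun z => (A + B * z) / N % R = v) (range Z) ⊆
      filter (fun z => (A + B * z) / N = v + R * t) (range Z) ∪
        filter (fun z => (A + B * z) / N = v + R * (t + 1)) (range Z) := by
    intro z hz
    rw [mem_filter, mem_range] at hz
    rw [mem_union, mem_filter, mem_filter, mem_range]
    have hNR : 0 < N * R := Nat.mul_pos hN hR
    have h1 : (A + B * z) / N / R = (A + B * z) / (N * R) := Nat.div_div_eq_div_mul _ _ _
    have h2 : t ≤ (A + B * z) / (N * R) := Nat.div_le_div_right (by omega)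
    have h3 : (A + B * z) / (N * R) ≤ t + 1 := by
      have : A + B * z ≤ A + N * R := by
        have : B * z ≤ B * Z := Nat.mul_le_mul_left B hz.1.le
        omega
      calc (A + B * z) / (N * R) ≤ (A + N * R) / (N * R) := Nat.div_le_div_right this
        _ = t + 1 := by rw [Nat.add_div_right _ hNR]
    have h4 := Nat.div_add_mod ((A + B * z) / N) R
    rw [hz.2, h1] at h4
    rcases (by omega : (A + B * z) / (N * R) = t ∨ (A + B * z) / (N * R) = t + 1) with h | h
    · left; refine ⟨hz.1, ?_⟩; rw [h] at h4; omega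
    · right; refine ⟨hz.1, ?_⟩; rw [h] at h4; omega
  calc _ ≤ _ := card_le_card hsub
    _ ≤ _ := card_union_le _ _
    _ ≤ (N / B + 1) + (N / B + 1) := Nat.add_le_add (mult_fix hN hB) (mult_fix hN hB)
    _ = _ := by ring

theorem mult_high0 {B N R Z v : ℕ} (hN : 0 < N) (hB : 0 < B) (hZ : B * Z ≤ N * R) :
    #{z ∈ range Z | (B * z) / N % R = v} ≤ N / B + 1 := by
  have hsub : filter (fun z => (B * z) / N % R = v) (range Z) ⊆
      filter (fun z => (0 + B * z) / N = v) (range Z) := by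
    intro z hz
    rw [mem_filter, mem_range] at hz
    rw [mem_filter, mem_range]
    refine ⟨hz.1, ?_⟩
    rw [zero_add]
    rw [← hz.2, Nat.mod_eq_of_lt]
    apply Nat.div_lt_of_lt_mul
    calc B * z < B * Z := Nat.mul_lt_mul_of_pos_left hz.1 hB
      _ ≤ N * R := hZ
  exact (card_le_card hsub).trans (mult_fix hN hB)

end Pool.Agent.H58.Cat
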