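import Pool.Agent.H58.Cat.Box

namespace Pool.Agent.H58.Cat

open Finset

/-- fast evaluation of `cnt b c (2 ^ k) x` -/
def fc (b : ℕ) : ℕ → ℕ → ℕ → ℕ
  | 0, c, x => if b ≤ 2 * (x % b) + c then 1 else 0
  | k + 1, c, x =>
    fc b k c (x % b ^ (2 ^ k)) +
      fc b k ((2 * (x % b ^ (2 ^ k)) + c) / b ^ (2 ^ k)) (x / b ^ (2 ^ k))

theorem fc_eq {b : ℕ} (hb : 0 < b) (k c x : ℕ) : fc b k c x = cnt b c (2 ^ k) x := by
  induction k generalizing c x with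
  | zero =>
    unfold cnt fc
    rw [pow_zero, sum_range_one, zero_add, pow_one]
  | succ k ih =>
    rw [fc, ih, ih, pow_succ, mul_two, cnt_add hb]
    rw [cnt_mod (Nat.mod_mod _ _)]

theorem F_eq_fc {b : ℕ} (hb : b.Prime) {k x : ℕ} (h : 2 * x < b ^ (2 ^ k + 1)) :
    F b x = fc b k 0 x := by
  rw [fc_eq hb.pos, F_eq_cnt hb h]

end Pool.Agent.H58.Cat
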