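import Mathlib
import Pool.Agent.H58.Cat.Assemble2
import Pool.Agent.H58.Cat.Base

namespace Pool.Agent.H58.Cat

open Finset

theorem ivt {f : ℕ → ℤ} {C : ℤ} {N : ℕ} (h0 : -C ≤ f 0) (hstep : ∀ n, f n - C ≤ f (n + 1))
    (hN : f N ≤ C) : ∃ n ≤ N, |f n| ≤ C := by
  classical
  have hex : ∃ n, f n ≤ C := ⟨N, hN⟩
  refine ⟨Nat.find hex, Nat.find_min' hex hN, ?_⟩
  have h1 := Nat.find_spec hex
  rw [abs_le]
  refine ⟨?_, h1⟩
  rcases Nat.eq_zero_or_pos (Nat.find hex) with h | h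
  · rw [h]; exact h0
  · obtain ⟨k, hk⟩ : ∃ k, Nat.find hex = k + 1 := ⟨Nat.find hex - 1, by omega⟩
    have h2 : ¬ f k ≤ C := Nat.find_min hex (by omega)
    have h3 := hstep k
    have h4 : -C ≤ f 0 := h0
    rw [hk]
    by_cases hC : 0 ≤ C
    · linarith
    · -- `C < 0`: impossible
      rw [hk] at h1
      omega

/-- the numbers in a box are small -/
theorem box_bound {L u v r : ℕ} (h : Box L u v r) : u + r ≤ L ∧ v + r ≤ L := by
  obtain ⟨e, he, _, h2, _⟩ := h (u + r) (v + r) (by omega) le_rfl (by omega) le_rfl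
  obtain ⟨e', he', _, _, h3⟩ := h (u + r) (v + r) (by omega) le_rfl (by omega) le_rfl
  constructor
  · rw [← h2, F_eq_cnt Nat.prime_two (K := L) (by rw [pow_succ]; omega)]
    exact cnt_le _ _ _ _
  · rw [← h3, F_eq_cnt Nat.prime_three (K := L)]
    · exact cnt_le _ _ _ _
    · calc 2 * e' < 2 ^ (L + 1) := by rw [pow_succ]; omega
        _ ≤ 3 ^ (L + 1) := Nat.pow_le_pow_left (by norm_num) _

theorem I1_bounds {p m L j : ℕ} (hP : 2 ≤ p ^ m) :
    4 * (MM L j * ZZ L) ≤ (p ^ m) ^ I1f p m L j ∧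
      (p ^ m) ^ I1f p m L j ≤ p ^ m * (4 * (MM L j * ZZ L)) := by
  have h : 0 < MM L j * ZZ L := Nat.mul_pos (MM_pos L j) (ZZ_pos L)
  exact clog_bounds hP (by omega)

theorem mI1_le {p m L j : ℕ} (hp : 2 ≤ p) (hm : 1 ≤ m) (hL : 1 ≤ L) (hj2 : 3 ^ j ≤ 2 ^ (L + 3)) :
    m * I1f p m L j ≤ (2 * m + 19) * L := by
  have hP : 2 ≤ p ^ m := by
    calc 2 ≤ p ^ 1 := by simpa using hp
      _ ≤ p ^ m := Nat.pow_le_pow_right (by omega) hm
  obtain ⟨_, hI1b⟩ := I1_bounds (p := p) (m := m) (L := L) (j := j) hP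
  have hMZle : 4 * (MM L j * ZZ L) ≤ 2 ^ (4 * L + 14) := by
    have : MM L j ≤ 2 ^ (L + 1) * 2 ^ (L + 3) := Nat.mul_le_mul_left _ hj2
    calc 4 * (MM L j * ZZ L) ≤ 4 * (2 ^ (L + 1) * 2 ^ (L + 3) * 2 ^ (2 * L + 8)) :=
          Nat.mul_le_mul_left _ (Nat.mul_le_mul_right _ this)
      _ = 2 ^ 2 * (2 ^ (L + 1) * 2 ^ (L + 3) * 2 ^ (2 * L + 8)) := by norm_num
      _ = 2 ^ (4 * L + 14) := by rw [← pow_add, ← pow_add, ← pow_add]; congr 1; ring
  have e1 : p ^ (m * I1f p m L j) ≤ p ^ (m + (4 * L + 14)) := by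
    calc p ^ (m * I1f p m L j) = (p ^ m) ^ I1f p m L j := by rw [← pow_mul]
      _ ≤ p ^ m * (4 * (MM L j * ZZ L)) := hI1b
      _ ≤ p ^ m * p ^ (4 * L + 14) :=
          Nat.mul_le_mul_left _ (hMZle.trans (Nat.pow_le_pow_left hp _))
      _ = p ^ (m + (4 * L + 14)) := by rw [← pow_add]
  have e2 := (Nat.pow_le_pow_iff_right (by omega : 1 < p)).1 e1
  have e3 : m ≤ m * L := Nat.le_mul_of_pos_right _ (by omega)
  have e4 : (2 * m + 19) * L = 2 * (m * L) + 19 * L := by ring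
  omega

theorem Y_bounds {p q m L j n : ℕ} (hq : 2 ≤ q) (hP : 1 ≤ p ^ m) :
    4 * (p ^ m) ^ (I1f p m L j + n) ≤ q ^ Yf p q m L j n ∧
      q ^ Yf p q m L j n ≤ q * (4 * (p ^ m) ^ (I1f p m L j + n)) := by
  have h : 0 < (p ^ m) ^ (I1f p m L j + n) := by positivity
  exact clog_bounds hq (by omega)

/-- increments of `Y` -/
theorem Y_step {p q m L j n : ℕ} (hq : 2 ≤ q) (hP : 1 ≤ p ^ m) (hpq : p ≤ q ^ 2) :
    Yf p q m L j (n + 1) ≤ Yf p q m L j n + (2 * m + 1) := by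
  obtain ⟨h1, _⟩ := Y_bounds (p := p) (q := q) (m := m) (L := L) (j := j) (n := n) hq hP
  obtain ⟨_, h2⟩ := Y_bounds (p := p) (q := q) (m := m) (L := L) (j := j) (n := n + 1) hq hP
  have e : q ^ Yf p q m L j (n + 1) ≤ q ^ (Yf p q m L j n + (2 * m + 1)) := by
    calc q ^ Yf p q m L j (n + 1) ≤ q * (4 * (p ^ m) ^ (I1f p m L j + (n + 1))) := h2
      _ = q * (p ^ m) * (4 * (p ^ m) ^ (I1f p m L j + n)) := by
          rw [← add_assoc, pow_succ]; ring
      _ ≤ q * (q ^ 2) ^ m * q ^ Yf p q m L j n := by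
          apply Nat.mul_le_mul _ h1
          exact Nat.mul_le_mul_left _ (Nat.pow_le_pow_left hpq _)
      _ = q ^ (Yf p q m L j n + (2 * m + 1)) := by
          rw [← pow_mul, ← pow_succ', ← pow_add]; congr 1; ring
  exact (Nat.pow_le_pow_iff_right (by omega : 1 < q)).1 e

/-- comparison of the two families at `n = 0` -/
theorem compare {m L j : ℕ} (hm : 4 ≤ m) :
    Yf 3 2 m L j 0 ≤ m * I1f 2 m L j + (2 * m + 3) ∧
      Yf 2 3 m L j 0 ≤ m * I1f 3 m L j + (2 * m + 3) := by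
  have hP2 : 2 ≤ 2 ^ m := by
    calc 2 = 2 ^ 1 := by norm_num
      _ ≤ 2 ^ m := Nat.pow_le_pow_right (by norm_num) (by omega)
  have hP3 : 2 ≤ 3 ^ m := hP2.trans (Nat.pow_le_pow_left (by norm_num) _)
  obtain ⟨a1, a2⟩ := I1_bounds (p := 2) (m := m) (L := L) (j := j) hP2
  obtain ⟨b1, b2⟩ := I1_bounds (p := 3) (m := m) (L := L) (j := j) hP3
  obtain ⟨_, c2⟩ := Y_bounds (p := 3) (q := 2) (m := m) (L := L) (j := j) (n := 0) le_rfl (by omega)
  obtain ⟨_, d2⟩ := Y_bounds (p := 2) (q := 3) (m := m) (L := L) (j := j) (n := 0) (by norm_num)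
    (by omega)
  rw [add_zero] at c2 d2
  constructor
  · have e : 2 ^ Yf 3 2 m L j 0 ≤ 2 ^ (m * I1f 2 m L j + (2 * m + 3)) := by
      calc 2 ^ Yf 3 2 m L j 0 ≤ 2 * (4 * (3 ^ m) ^ I1f 3 m L j) := c2
        _ ≤ 2 * (4 * (3 ^ m * (4 * (MM L j * ZZ L)))) := by gcongr
        _ ≤ 2 * (4 * (4 ^ m * (2 ^ m) ^ I1f 2 m L j)) := by
            gcongr
            norm_num
        _ = 2 ^ (m * I1f 2 m L j + (2 * m + 3)) := by
            rw [show (4 : ℕ) ^ m = 2 ^ (2 * m) by rw [pow_mul]; norm_num]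
            rw [← pow_mul, pow_add, pow_add]; ring
    exact (Nat.pow_le_pow_iff_right (by norm_num)).1 e
  · have e : 3 ^ Yf 2 3 m L j 0 ≤ 3 ^ (m * I1f 3 m L j + (2 * m + 3)) := by
      calc 3 ^ Yf 2 3 m L j 0 ≤ 3 * (4 * (2 ^ m) ^ I1f 2 m L j) := d2
        _ ≤ 3 * (4 * (2 ^ m * (4 * (MM L j * ZZ L)))) := by gcongr
        _ ≤ 3 * (9 * (9 ^ m * (3 ^ m) ^ I1f 3 m L j)) := by
            gcongr
            · norm_num
            · norm_num
        _ = 3 ^ (m * I1f 3 m L j + (2 * m + 3)) := by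
            rw [show (9 : ℕ) ^ m = 3 ^ (2 * m) by rw [pow_mul]; norm_num]
            rw [← pow_mul, pow_add, pow_add]; ring
    exact (Nat.pow_le_pow_iff_right (by norm_num)).1 e

/-- the numerical end game: from an approximate solution to an exact one -/
theorem finish {a b L u v r j w : ℕ} (ha : 1 ≤ a) (hb : 1 ≤ b) (hbox : Box L u v r)
    (hj1 : 2 ^ (L + 1) ≤ 3 ^ j) (hw : 0 < w) (hr : 4 * (a + b) ≤ r)
    (hE : |2 * ((a : ℤ) * F 2 (MM L j * w) - b * F 3 (MM L j * w)) +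
      (a * (2 * u + r) - b * (2 * v + r))| * 2 ≤ r) :
    ∃ n, L ≤ n ∧ 0 < n ∧ a * padicValNat 2 (catalan n) = b * padicValNat 3 (catalan n) := by
  have hj0 : 0 < j := by
    rcases Nat.eq_zero_or_pos j with h0 | h0
    · rw [h0, pow_zero] at hj1
      have : 1 < 2 ^ (L + 1) := Nat.one_lt_two_pow (by omega)
      omega
    · exact h0
  have hF2 : F 2 (MM L j * w) = F 2 (3 ^ j * w) := by
    unfold MM; rw [mul_assoc, F_pow_mul Nat.prime_two]
  have hF3 : F 3 (MM L j * w) = F 3 (2 ^ (L + 1) * w) := by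
    unfold MM
    rw [show 2 ^ (L + 1) * 3 ^ j * w = 3 ^ j * (2 ^ (L + 1) * w) by ring, F_pow_mul Nat.prime_three]
  rw [hF2, hF3] at hE
  set f2 := F 2 (3 ^ j * w) with hf2
  set f3 := F 3 (2 ^ (L + 1) * w) with hf3
  set t := (2 * f2 + 2 * u + r) / (2 * b) with ht
  have t1 : 2 * b * t ≤ 2 * f2 + 2 * u + r := Nat.mul_div_le _ _
  have t2 : 2 * f2 + 2 * u + r < 2 * b * (t + 1) := Nat.lt_mul_div_succ _ (by omega)
  have t3 : 2 * b * (t + 1) = 2 * b * t + 2 * b := by ring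
  have t4 : 2 * b * t = 2 * (b * t) := by ring
  -- the two coordinates
  have k1a : u + f2 ≤ b * t + 1 := by omega
  have k1b : b * t + 1 ≤ u + f2 + r := by omega
  have hE' := abs_le.1 (show |2 * ((a : ℤ) * f2 - b * f3) + (a * (2 * u + r) - b * (2 * v + r))| ≤
    r / 2 by omega)
  have e1 : (2 : ℤ) * b * (a * t) ≤ a * (2 * f2 + 2 * u + r) := by
    have : ((2 * b * t : ℕ) : ℤ) ≤ ((2 * f2 + 2 * u + r : ℕ) : ℤ) := by exact_mod_cast t1
    push_cast at this
    have h := mul_le_mul_of_nonneg_left this (by positivity : (0 : ℤ) ≤ a)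
    linarith
  have e2 : (a : ℤ) * (2 * f2 + 2 * u + r) ≤ 2 * b * (a * t) + 2 * a * b := by
    have : ((2 * f2 + 2 * u + r : ℕ) : ℤ) ≤ ((2 * b * t + 2 * b : ℕ) : ℤ) := by
      exact_mod_cast (by omega : 2 * f2 + 2 * u + r ≤ 2 * b * t + 2 * b)
    push_cast at this
    have h := mul_le_mul_of_nonneg_left this (by positivity : (0 : ℤ) ≤ a)
    linarith
  have hbZ : (1 : ℤ) ≤ b := by exact_mod_cast hb
  have haZ : (1 : ℤ) ≤ a := by exact_mod_cast ha
  have hrZ : 4 * ((a : ℤ) + b) ≤ r := by exact_mod_cast hr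
  have hr2 : (r : ℤ) / 2 * 2 ≤ r := by omega
  have hr0 : (0 : ℤ) ≤ r := by positivity
  have hbr : (r : ℤ) ≤ b * r := by
    have := mul_le_mul_of_nonneg_right hbZ hr0
    linarith
  have hab : (4 : ℤ) * (a * b) ≤ b * r := by
    have h1 := mul_le_mul_of_nonneg_left hrZ (by linarith : (0 : ℤ) ≤ b)
    have h2 : (0 : ℤ) ≤ b * b := by positivity
    linarith
  have hE1 := hE'.1
  have hE2 := hE'.2
  have k2a' : (b : ℤ) * (2 * (v + f3)) ≤ b * (2 * (a * t)) := by linarith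
  have k2b' : (b : ℤ) * (2 * (a * t)) ≤ b * (2 * (v + f3 + r)) := by linarith
  have k2a : v + f3 ≤ a * t := by
    have := le_of_mul_le_mul_left k2a' (by linarith)
    have h : ((v + f3 : ℕ) : ℤ) ≤ ((a * t : ℕ) : ℤ) := by push_cast; linarith
    exact_mod_cast h
  have k2b : a * t ≤ v + f3 + r := by
    have := le_of_mul_le_mul_left k2b' (by linarith)
    have h : ((a * t : ℕ) : ℤ) ≤ ((v + f3 + r : ℕ) : ℤ) := by push_cast; linarith
    exact_mod_cast h
  obtain ⟨e, he, he3, g1, g2⟩ := hbox (b * t + 1 - f2) (a * t - f3) (by omega) (by omega) (by omega)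
    (by omega)
  obtain ⟨q1, q2, q3⟩ := combine (w := w) (le_refl (L + 1)) hj1 hj0 he he3
  set N := 2 ^ (L + 1) * 3 ^ j * w + e with hN
  have hNbig : 2 ^ (L + 1) ≤ N := by
    have : 2 ^ (L + 1) * 1 ≤ 2 ^ (L + 1) * (3 ^ j * w) :=
      Nat.mul_le_mul_left _ (Nat.mul_pos (by positivity) hw)
    rw [hN]
    rw [← mul_assoc] at this
    omega
  have hLlt : L + 1 < 2 ^ (L + 1) := Nat.lt_two_pow_self
  refine ⟨N - 1, by omega, by omega, ?_⟩
  have hN1 : N - 1 + 1 = N := by omega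
  obtain ⟨l1, l2⟩ := catalan_link (n := N - 1) (by rw [hN1]; exact q1)
  rw [hN1] at l1 l2
  rw [q2, g1] at l1
  rw [q3, g2] at l2
  have m1 : padicValNat 2 (catalan (N - 1)) = b * t := by omega
  have m2 : padicValNat 3 (catalan (N - 1)) = a * t := by omega
  rw [m1, m2]
  ring

set_option maxHeartbeats 4000000 in
/-- **Main theorem.** -/
theorem main (a b : ℕ) (ha : 1 ≤ a) (hb : 1 ≤ b) (N₀ : ℕ) :
    ∃ n, N₀ ≤ n ∧ 0 < n ∧ a * padicValNat 2 (catalan n) = b * padicValNat 3 (catalan n) := by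
  set m := 4 * (a + b) with hm
  have hm8 : 8 ≤ m := by omega
  have hP2 : 9 ≤ 2 ^ m := by
    calc 9 ≤ 2 ^ 8 := by norm_num
      _ ≤ 2 ^ m := Nat.pow_le_pow_right (by norm_num) hm8
  have hP3 : 9 ≤ 3 ^ m := hP2.trans (Nat.pow_le_pow_left (by norm_num) _)
  set A₀ := 2 * (a + b) * (2 * m + 19 + 8) with hA₀
  have hab0 : (0 : ℝ) < a + b := by
    have : (1 : ℝ) ≤ a := by exact_mod_cast ha
    have : (1 : ℝ) ≤ b := by exact_mod_cast hb
    linarith
  obtain ⟨L₂, hL₂⟩ := assemble (p := 2) (q := 3) (c := 1) (m := m) (Or.inl ⟨rfl, rfl, rfl⟩) hP2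
    (δ := 1 / (64 * ((a : ℝ) + b))) (by positivity) A₀
  obtain ⟨L₃, hL₃⟩ := assemble (p := 3) (q := 2) (c := 0) (m := m) (Or.inr ⟨rfl, rfl, rfl⟩) hP3
    (δ := 1 / (64 * ((a : ℝ) + b))) (by positivity) A₀
  set Cn := (a + b) * (2 * m + 3) with hCn
  -- choose the scale
  set k := N₀ + L₂ + L₃ + Cn with hk
  obtain ⟨u, v, hbox⟩ := box_all k
  set ℓ := 1000 * 10 ^ k with hℓ
  have hkℓ : 1000 * k < ℓ := by
    have : k < 10 ^ k := Nat.lt_pow_self (by norm_num)
    omega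
  have hℓ1000 : 1000 ≤ ℓ := Nat.le_mul_of_pos_right _ (by positivity)
  set L := 80 * ℓ with hL
  set r := 5 * ℓ with hr
  have hL1 : 1 ≤ L := by omega
  have hCr : 8 * Cn ≤ r := by omega
  have hmab : a + b ≤ Cn := by
    rw [hCn]; exact Nat.le_mul_of_pos_right _ (by omega)
  obtain ⟨hu, hv⟩ := box_bound hbox
  obtain ⟨j, s, hj1, hj0, hs1, hs2, hs3⟩ := exists_js L
  have hj2 : 3 ^ j ≤ 2 ^ (L + 3) := hs1.trans (Nat.pow_le_pow_right (by norm_num) hs3)
  have hjL : j ≤ L + 3 := by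
    have : 2 ^ j ≤ 2 ^ (L + 3) := (Nat.pow_le_pow_left (by norm_num) j).trans hj2
    exact (Nat.pow_le_pow_iff_right (by norm_num)).1 this
  set c₀ : ℤ := a * (2 * u + r) - b * (2 * v + r) with hc₀
  have hc0a : |c₀| ≤ 2 * (a + b) * L := by
    have h1 : (0 : ℤ) ≤ (a : ℤ) * (2 * u + r) := by positivity
    have h2 : (0 : ℤ) ≤ (b : ℤ) * (2 * v + r) := by positivity
    have huZ : ((2 * u + r : ℕ) : ℤ) ≤ ((2 * L : ℕ) : ℤ) := by exact_mod_cast (by omega)
    have hvZ : ((2 * v + r : ℕ) : ℤ) ≤ ((2 * L : ℕ) : ℤ) := by exact_mod_cast (by omega)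
    push_cast at huZ hvZ
    have h3 : (a : ℤ) * (2 * u + r) ≤ a * (2 * L) := mul_le_mul_of_nonneg_left huZ (by positivity)
    have h4 : (b : ℤ) * (2 * v + r) ≤ b * (2 * L) := mul_le_mul_of_nonneg_left hvZ (by positivity)
    have h5 : (0 : ℤ) ≤ (a : ℤ) * (2 * L) := by positivity
    have h6 : (0 : ℤ) ≤ (b : ℤ) * (2 * L) := by positivity
    rw [abs_le]
    constructor
    · rw [hc₀]; linarith
    · rw [hc₀]; linarith
  have hI2 := mI1_le (p := 2) (m := m) (L := L) (j := j) le_rfl (by omega) hL1 hj2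
  have hI3 := mI1_le (p := 3) (m := m) (L := L) (j := j) (by norm_num) (by omega) hL1 hj2
  obtain ⟨cmp1, cmp2⟩ := compare (m := m) (L := L) (j := j) (by omega)
  -- the end game for an approximate solution
  have endgame : ∀ w, 0 < w → ∀ x y : ℤ,
      |2 * (F 2 (MM L j * w) : ℝ) - x| ≤ 1 / (64 * ((a : ℝ) + b)) * L →
      |2 * (F 3 (MM L j * w) : ℝ) - y| ≤ 1 / (64 * ((a : ℝ) + b)) * L →
      |a * x - b * y + c₀| ≤ Cn →
      ∃ n, N₀ ≤ n ∧ 0 < n ∧ a * padicValNat 2 (catalan n) = b * padicValNat 3 (catalan n) := by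
    intro w hw x y hx hy hxy
    have hE : |2 * ((a : ℤ) * F 2 (MM L j * w) - b * F 3 (MM L j * w)) +
        (a * (2 * u + r) - b * (2 * v + r))| * 2 ≤ r := by
      set f2 := F 2 (MM L j * w)
      set f3 := F 3 (MM L j * w)
      have h1 : |((2 * ((a : ℤ) * f2 - b * f3) + (a * (2 * u + r) - b * (2 * v + r)) : ℤ) : ℝ)| ≤
          Cn + (L : ℝ) / 64 := by
        have e : ((2 * ((a : ℤ) * f2 - b * f3) + (a * (2 * u + r) - b * (2 * v + r)) : ℤ) : ℝ) =
            a * (2 * (f2 : ℝ) - x) - b * (2 * (f3 : ℝ) - y) + ((a * x - b * y + c₀ : ℤ) : ℝ) := by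
          rw [hc₀]; push_cast; ring
        rw [e]
        have g1 : |(a : ℝ) * (2 * (f2 : ℝ) - x)| ≤ a * (1 / (64 * ((a : ℝ) + b)) * L) := by
          rw [abs_mul, abs_of_nonneg (by positivity : (0 : ℝ) ≤ a)]
          exact mul_le_mul_of_nonneg_left hx (by positivity)
        have g2 : |(b : ℝ) * (2 * (f3 : ℝ) - y)| ≤ b * (1 / (64 * ((a : ℝ) + b)) * L) := by
          rw [abs_mul, abs_of_nonneg (by positivity : (0 : ℝ) ≤ b)]
          exact mul_le_mul_of_nonneg_left hy (by positivity)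
        have g3 : |((a * x - b * y + c₀ : ℤ) : ℝ)| ≤ Cn := by
          rw [← Int.cast_abs]; exact_mod_cast hxy
        have g4 : (a : ℝ) * (1 / (64 * ((a : ℝ) + b)) * L) + b * (1 / (64 * ((a : ℝ) + b)) * L) =
            L / 64 := by field_simp
        refine (abs_add_le _ _).trans ?_
        have g5 := abs_sub (a * (2 * (f2 : ℝ) - x)) (b * (2 * (f3 : ℝ) - y))
        linarith
      have h2 : (Cn : ℝ) + (L : ℝ) / 64 ≤ (r : ℝ) / 2 := by
        have e1 : (L : ℝ) = 16 * r := by rw [hL, hr]; push_cast; ring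
        have e2 : 8 * (Cn : ℝ) ≤ r := by exact_mod_cast hCr
        rw [e1]; linarith
      have h3 := h1.trans h2
      rw [← Int.cast_abs] at h3
      have h4 : ((|2 * ((a : ℤ) * f2 - b * f3) + (a * (2 * u + r) - b * (2 * v + r))| * 2 : ℤ) : ℝ) ≤
          ((r : ℤ) : ℝ) := by
        push_cast at h3 ⊢
        linarith
      exact_mod_cast h4
    obtain ⟨n, hn1, hn2, hn3⟩ := finish ha hb hbox hj1 hw (by omega) hE
    exact ⟨n, by omega, hn2, hn3⟩
  -- the two families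
  set fA : ℕ → ℤ := fun n => a * ((m * I1f 2 m L j : ℕ) - vv L j 2 + 2 * n) -
    b * (Yf 2 3 m L j n - vv L j 3) + c₀ with hfA
  set fB : ℕ → ℤ := fun n => a * (Yf 3 2 m L j n - vv L j 2) -
    b * ((m * I1f 3 m L j : ℕ) - vv L j 3) + c₀ with hfB
  have hv2 : vv L j 2 = L + 1 := by simp [vv]
  have hv3 : vv L j 3 = j := by simp [vv]
  have haZ : (1 : ℤ) ≤ a := by exact_mod_cast ha
  have hbZ : (1 : ℤ) ≤ b := by exact_mod_cast hb
  have hcmp : fB 0 ≤ fA 0 + Cn := by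
    simp only [hfA, hfB]
    have c1 : (Yf 3 2 m L j 0 : ℤ) ≤ (m * I1f 2 m L j : ℕ) + (2 * m + 3) := by exact_mod_cast cmp1
    have c2 : (Yf 2 3 m L j 0 : ℤ) ≤ (m * I1f 3 m L j : ℕ) + (2 * m + 3) := by exact_mod_cast cmp2
    have c3 := mul_le_mul_of_nonneg_left c1 (by linarith : (0 : ℤ) ≤ a)
    have c4 := mul_le_mul_of_nonneg_left c2 (by linarith : (0 : ℤ) ≤ b)
    rw [hCn]
    push_cast at c3 c4 ⊢
    linarith
  have hab_c : 2 * ((a : ℤ) + b) * L ≤ 2 * ((a + b) * L : ℕ) := by push_cast; linarith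
  by_cases hcase : -(Cn : ℤ) ≤ fA 0
  · -- sparse part in base two
    set NA := 2 * (a * (m * I1f 2 m L j) + b * j + c₀.natAbs) with hNA
    have hstep : ∀ n, fA n - Cn ≤ fA (n + 1) := by
      intro n
      have h1 := Y_step (p := 2) (q := 3) (m := m) (L := L) (j := j) (n := n) (by norm_num)
        (by omega) (by norm_num)
      have h1Z : (Yf 2 3 m L j (n + 1) : ℤ) ≤ Yf 2 3 m L j n + (2 * m + 1) := by exact_mod_cast h1
      have h2 := mul_le_mul_of_nonneg_left h1Z (by linarith : (0 : ℤ) ≤ b)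
      have h3 : (0 : ℤ) ≤ (a : ℤ) * (m : ℤ) := by positivity
      have hCnZ : (Cn : ℤ) = (a + b) * (2 * (m : ℤ) + 3) := by rw [hCn]; push_cast; ring
      simp only [hfA]
      rw [hCnZ]
      push_cast
      linarith
    have hNAle : fA NA ≤ Cn := by
      obtain ⟨y1, _⟩ := Y_bounds (p := 2) (q := 3) (m := m) (L := L) (j := j) (n := NA)
        (by norm_num) (by omega)
      have y2 : 5 * (m * (I1f 2 m L j + NA)) ≤ 8 * Yf 2 3 m L j NA := by
        have : 2 ^ (5 * (m * (I1f 2 m L j + NA))) ≤ 2 ^ (8 * Yf 2 3 m L j NA) := by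
          calc 2 ^ (5 * (m * (I1f 2 m L j + NA))) = ((2 ^ m) ^ (I1f 2 m L j + NA)) ^ 5 := by
                rw [← pow_mul, ← pow_mul]; congr 1; ring
            _ ≤ (3 ^ Yf 2 3 m L j NA) ^ 5 := Nat.pow_le_pow_left (by omega) 5
            _ = 243 ^ Yf 2 3 m L j NA := by rw [← pow_mul, mul_comm, pow_mul]; norm_num
            _ ≤ 256 ^ Yf 2 3 m L j NA := Nat.pow_le_pow_left (by norm_num) _
            _ = 2 ^ (8 * Yf 2 3 m L j NA) := by rw [pow_mul]; norm_num
        exact (Nat.pow_le_pow_iff_right (by norm_num)).1 this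
      have y3 : 20 * (a + b) * NA ≤ 8 * (b * Yf 2 3 m L j NA) := by
        have t1 : 20 * (a + b) * NA ≤ b * (5 * (m * (I1f 2 m L j + NA))) := by
          calc 20 * (a + b) * NA = 1 * (5 * (4 * (a + b) * NA)) := by ring
            _ ≤ b * (5 * (m * (I1f 2 m L j + NA))) := by
                apply Nat.mul_le_mul hb
                apply Nat.mul_le_mul_left
                rw [hm]
                apply Nat.mul_le_mul_left
                omega
        calc 20 * (a + b) * NA ≤ b * (5 * (m * (I1f 2 m L j + NA))) := t1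
          _ ≤ b * (8 * Yf 2 3 m L j NA) := Nat.mul_le_mul_left _ y2
          _ = 8 * (b * Yf 2 3 m L j NA) := by ring
      have y3Z : 20 * ((a : ℤ) + b) * NA ≤ 8 * (b * Yf 2 3 m L j NA) := by exact_mod_cast y3
      have hNAZ : (NA : ℤ) = 2 * (a * (m * I1f 2 m L j : ℕ) + b * j + |c₀|) := by
        rw [hNA]; push_cast; ring
      have hc := le_abs_self c₀
      have hNA0 : (0 : ℤ) ≤ NA := by positivity
      have hv20 : (0 : ℤ) ≤ a * (vv L j 2 : ℤ) := by positivity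
      have haN : (0 : ℤ) ≤ ((a : ℤ) + b - 1) * NA := mul_nonneg (by linarith) hNA0
      have hbN : (0 : ℤ) ≤ (b : ℤ) * NA := by positivity
      simp only [hfA]
      rw [hv3]
      have hC0 : (0 : ℤ) ≤ Cn := by positivity
      have e1 : 8 * ((a : ℤ) * ((m * I1f 2 m L j : ℕ) - vv L j 2 + 2 * NA) -
          b * (Yf 2 3 m L j NA - j) + c₀) ≤ 8 * Cn := by
        linarith
      linarith
    obtain ⟨n, hn, hfn⟩ := ivt hcase hstep hNAle
    have hNA0 : NA ≤ A₀ * L := by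
      have t1 : a * (m * I1f 2 m L j) ≤ a * ((2 * m + 19) * L) := Nat.mul_le_mul_left _ hI2
      have t2 : b * j ≤ b * (4 * L) := Nat.mul_le_mul_left _ (by omega)
      have t3 : c₀.natAbs ≤ 2 * (a + b) * L := by
        have : (c₀.natAbs : ℤ) ≤ ((2 * (a + b) * L : ℕ) : ℤ) := by
          rw [Int.natCast_natAbs]; push_cast; exact hc0a
        exact_mod_cast this
      have t4 : A₀ * L = 2 * (a * ((2 * m + 19) * L) + b * ((2 * m + 19) * L) + 8 * (a * L) +
          8 * (b * L)) := by rw [hA₀]; ring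
      have t5 : b * (4 * L) = 4 * (b * L) := by ring
      have t6 : 2 * (a + b) * L = 2 * (a * L) + 2 * (b * L) := by ring
      have t7 : 0 ≤ b * ((2 * m + 19) * L) := Nat.zero_le _
      omega
    obtain ⟨w, hw, hw2, hw3⟩ := hL₂ L (by omega) j hj1 hj2 n (hn.trans hNA0)
    apply endgame w hw ((m * I1f 2 m L j : ℕ) - vv L j 2 + 2 * n) (Yf 2 3 m L j n - vv L j 3)
    · push_cast at hw2 ⊢
      convert hw2 using 2
      ring
    · push_cast at hw3 ⊢
      exact hw3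
    · exact hfn
  · -- sparse part in base three
    have hB0 : -(Cn : ℤ) ≤ -fB 0 := by
      rw [not_le] at hcase
      linarith
    set NB := a * (L + 1) + b * (m * I1f 3 m L j) + c₀.natAbs with hNB
    have hstep : ∀ n, -fB n - Cn ≤ -fB (n + 1) := by
      intro n
      have h1 := Y_step (p := 3) (q := 2) (m := m) (L := L) (j := j) (n := n) (by norm_num)
        (by omega) (by norm_num)
      have h1Z : (Yf 3 2 m L j (n + 1) : ℤ) ≤ Yf 3 2 m L j n + (2 * m + 1) := by exact_mod_cast h1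
      have h2 := mul_le_mul_of_nonneg_left h1Z (by linarith : (0 : ℤ) ≤ a)
      have h3 : (0 : ℤ) ≤ (b : ℤ) * (m : ℤ) := by positivity
      have hCnZ : (Cn : ℤ) = (a + b) * (2 * (m : ℤ) + 3) := by rw [hCn]; push_cast; ring
      simp only [hfB]
      rw [hCnZ]
      linarith
    have hNBle : -fB NB ≤ Cn := by
      obtain ⟨y1, _⟩ := Y_bounds (p := 3) (q := 2) (m := m) (L := L) (j := j) (n := NB)
        (by norm_num) (by omega)
      have y2 : m * (I1f 3 m L j + NB) ≤ Yf 3 2 m L j NB := by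
        have : 2 ^ (m * (I1f 3 m L j + NB)) ≤ 2 ^ Yf 3 2 m L j NB := by
          calc 2 ^ (m * (I1f 3 m L j + NB)) ≤ 3 ^ (m * (I1f 3 m L j + NB)) :=
                Nat.pow_le_pow_left (by norm_num) _
            _ = (3 ^ m) ^ (I1f 3 m L j + NB) := by rw [← pow_mul]
            _ ≤ 2 ^ Yf 3 2 m L j NB := by omega
        exact (Nat.pow_le_pow_iff_right (by norm_num)).1 this
      have y3 : NB ≤ a * Yf 3 2 m L j NB := by
        calc NB ≤ m * (I1f 3 m L j + NB) := by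
              calc NB ≤ 1 * (I1f 3 m L j + NB) := by omega
                _ ≤ m * (I1f 3 m L j + NB) := Nat.mul_le_mul_right _ (by omega)
          _ ≤ Yf 3 2 m L j NB := y2
          _ ≤ a * Yf 3 2 m L j NB := Nat.le_mul_of_pos_left _ (by omega)
      have y3Z : (NB : ℤ) ≤ a * Yf 3 2 m L j NB := by exact_mod_cast y3
      have hNBZ : (NB : ℤ) = a * ((L : ℤ) + 1) + b * (m * I1f 3 m L j : ℕ) + |c₀| := by
        rw [hNB]; push_cast; ring
      have hc := neg_abs_le c₀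
      have hj0' : (0 : ℤ) ≤ b * (j : ℤ) := by positivity
      simp only [hfB]
      rw [hv2, hv3]
      have hC0 : (0 : ℤ) ≤ Cn := by positivity
      push_cast at hNBZ ⊢
      linarith
    obtain ⟨n, hn, hfn⟩ := ivt (f := fun n => -fB n) hB0 hstep hNBle
    have hNB0 : NB ≤ A₀ * L := by
      have t1 : b * (m * I1f 3 m L j) ≤ b * ((2 * m + 19) * L) := Nat.mul_le_mul_left _ hI3
      have t2 : a * (L + 1) ≤ a * (2 * L) := Nat.mul_le_mul_left _ (by omega)
      have t3 : c₀.natAbs ≤ 2 * (a + b) * L := by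
        have : (c₀.natAbs : ℤ) ≤ ((2 * (a + b) * L : ℕ) : ℤ) := by
          rw [Int.natCast_natAbs]; push_cast; exact hc0a
        exact_mod_cast this
      have t4 : A₀ * L = 2 * (a * ((2 * m + 19) * L) + b * ((2 * m + 19) * L) + 8 * (a * L) +
          8 * (b * L)) := by rw [hA₀]; ring
      have t5 : a * (2 * L) = 2 * (a * L) := by ring
      have t6 : 2 * (a + b) * L = 2 * (a * L) + 2 * (b * L) := by ring
      have t7 : 0 ≤ a * ((2 * m + 19) * L) := Nat.zero_le _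
      omega
    obtain ⟨w, hw, hw2, hw3⟩ := hL₃ L (by omega) j hj1 hj2 n (hn.trans hNB0)
    apply endgame w hw (Yf 3 2 m L j n - vv L j 2) ((m * I1f 3 m L j : ℕ) - vv L j 3)
    · push_cast at hw3 ⊢
      exact hw3
    · push_cast at hw2 ⊢
      convert hw2 using 2
      ring
    · have : |(-fB n)| ≤ (Cn : ℤ) := hfn
      rwa [abs_neg] at this

end Pool.Agent.H58.Cat
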